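import Pool.Agent.R419.ST.Coc
import Pool.Agent.TH954.Closure

/-!
# Three-power descent over a field over which `E` has finitely many points and no three-primary part of
# the Tate-Shafarevich group
-/

set_option autoImplicit false
set_option linter.all false

open IsDedekindDomain NumberField WeierstrassCurve MvPolynomial

namespace Pool.Agent.R419.ST

open Pool.Agent.TH954

open scoped Classical

section

variable {K : Type} [Field K] [NumberField K] {E : WeierstrassCurve K}

/-- **Selmer classes of three-power order come from rational points.** -/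
theorem coc_three (k : ℕ) (hsha : ∀ s : Pool.Agent.TH841.NF.D.Sha E, 3 ^ k • s = 0 → s = 0)
    (ξ : (AlgebraicClosure K ≃ₐ[K] AlgebraicClosure K) → AlgPt E K) (hξ : IsCocycle E ξ)
    (hk : ∀ σ, 3 ^ k • ξ σ = 0)
    (hv : ∀ v : HeightOneSpectrum (𝓞 K), TrivialOver E ξ (v.adicCompletion K))
    (hw : ∀ w : InfinitePlace K, TrivialOver E ξ w.Completion) :
    ∃ (R : AlgPt E K) (y : (E.baseChange K).toAffine.Point), incl E K y = 3 ^ k • R ∧
      ∀ σ, ξ σ = act E σ R - R := by
  have hcoc : Pool.Agent.TH841.NF.D.IsShaCoc E ξ :=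
    ⟨coc_of hξ, fun v => loc_of hξ (hv v), fun w => loc_of hξ (hw w)⟩
  let x : Pool.Agent.TH841.NF.D.shaCoc E := ⟨ξ, hcoc⟩
  have hx0 : 3 ^ k • x = 0 := by
    apply Subtype.ext
    funext σ
    exact hk σ
  let q : Pool.Agent.TH841.NF.D.shaCoc E →+ Pool.Agent.TH841.NF.D.Sha E :=
    QuotientAddGroup.mk' ((Pool.Agent.TH841.SH.D.cob E).addSubgroupOf
      (Pool.Agent.TH841.NF.D.shaCoc E))
  have hq : q x = 0 := by
    refine hsha _ ?_
    rw [← map_nsmul, hx0, map_zero]
  have hq' : x ∈ (Pool.Agent.TH841.SH.D.cob E).addSubgroupOf (Pool.Agent.TH841.NF.D.shaCoc E) :=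
    (QuotientAddGroup.eq_zero_iff x).1 hq
  have hcob : Pool.Agent.TH841.SH.D.IsCob E ξ := hq'
  obtain ⟨R, hR'⟩ : ∃ R : AlgPt E K, ∀ σ, ξ σ = act E σ R - R := hcob
  obtain ⟨y, hy⟩ : ∃ y : (E.baseChange K).toAffine.Point, incl E K y = 3 ^ k • R := by
    refine exists_of_fixed (L := K) (3 ^ k • R) fun σ => ?_
    have e1 : act E σ R = R + ξ σ := by
      rw [hR' σ]
      abel
    rw [act_nsmul, e1, ns_add, hk, add_zero]
  exact ⟨R, y, hy, hR'⟩

/-- coordinates of the image in a completion -/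
lemma crd_pm {L₁ L₂ : Type} [Field L₁] [Algebra K L₁] [Field L₂] [Algebra K L₂] (f : L₁ →ₐ[K] L₂)
    (P : (E.baseChange L₁).toAffine.Point) (j : Fin 3) : crd (pm E f P) j = f (crd P j) := by
  match P with
  | .zero =>
    have e : pm E f (Affine.Point.zero : (E.baseChange L₁).toAffine.Point) = Affine.Point.zero :=
      map_zero (pm E f)
    rw [e]
    fin_cases j <;> simp [crd]
  | .some x y h =>
    obtain ⟨h', e⟩ := pm_some (E := E) f h
    rw [e]
    fin_cases j <;> simp [crd]

/-- a point over `L` which lifts to the covering of `ξ` differs from the rational point belonging to `ξ`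
by a point divisible by `3 ^ k` -/
theorem shift {k : ℕ} {ξ : (AlgebraicClosure K ≃ₐ[K] AlgebraicClosure K) → AlgPt E K}
    {R : AlgPt E K} {y : (E.baseChange K).toAffine.Point} (hy : incl E K y = 3 ^ k • R)
    (hR : ∀ σ, ξ σ = act E σ R - R) {L : Type} [Field L] [CharZero L] [Algebra K L]
    (ι : AlgebraicClosure K →ₐ[K] AlgebraicClosure L) {P : (E.baseChange L).toAffine.Point}
    {Q : AlgPt E L} (hPQ : 3 ^ k • Q = incl E L P)
    (hQ : ∀ σ τ, Compat ι σ τ → pm E ι (ξ τ) = act E σ Q - Q) :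
    ∃ z : (E.baseChange L).toAffine.Point, P = pm E (Algebra.ofId K L) y + 3 ^ k • z := by
  have hfix : ∀ σ : AlgebraicClosure L ≃ₐ[L] AlgebraicClosure L, act E σ (Q - pm E ι R) =
      Q - pm E ι R := by
    intro σ
    obtain ⟨τ, hτ⟩ := exists_compat ι σ
    have e1 : act E σ Q = Q + pm E ι (ξ τ) := by
      rw [hQ σ τ hτ]
      abel
    have e2 : act E τ R = R + ξ τ := by
      rw [hR τ]
      abel
    rw [act_sub, act_pm ι hτ, e1, e2, map_add]
    abel
  obtain ⟨z, hz⟩ := exists_of_fixed _ hfix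
  refine ⟨z, incl_injective ?_⟩
  have e3 : pm E ι (3 ^ k • R) = 3 ^ k • pm E ι R := map_nsmul _ _ _
  have e4 : incl E L (pm E (Algebra.ofId K L) y) = pm E ι (incl E K y) := by
    unfold incl
    rw [pm_pm, pm_pm]
    congr 2
    apply AlgHom.ext
    intro z
    exact (((IsScalarTower.toAlgHom K L (AlgebraicClosure L)).comp (Algebra.ofId K L)).commutes z).trans
      ((ι.comp (IsScalarTower.toAlgHom K K (AlgebraicClosure K))).commutes z).symm
  have e5 : incl E L (pm E (Algebra.ofId K L) y + 3 ^ k • z) =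
      incl E L (pm E (Algebra.ofId K L) y) + incl E L (3 ^ k • z) := map_add (pm E _) _ _
  rw [e5, incl_nsmul, hz, ns_sub, hPQ, ← e3, e4, hy]
  abel

end

end Pool.Agent.R419.ST
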