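import Pool.Agent.R419.ST.Three
import Pool.Agent.R419.ST.Glob
import Pool.Agent.Y696.CTK.Stm2

/-!
# Three-power descent on closed subvarieties of products of the curves `y² + D y = x³`
-/

set_option autoImplicit false
set_option linter.all false

open IsDedekindDomain NumberField WeierstrassCurve MvPolynomial Filter Topology

namespace Pool.Agent.R419.ST

open Pool.Agent.TH954
open Pool.Agent.Y696.CTK (ED Tri)

open scoped Classical

section

variable {L : Type} [NormedField L] [IsUltrametricDist L] [ProperSpace L]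

/-- version of `lim_main` for curves which are equal to the curves `WE (d i)` -/
theorem lim_V (hL : Th L) {n : ℕ} (d : Fin n → L) (hd : ∀ i, ‖d i‖ ≤ 1) (hd0 : ∀ i, d i ≠ 0)
    (V : Fin n → WeierstrassCurve L) (hV : V = fun i => WE (d i))
    (S : Set (MvPolynomial (Fin n × Fin 3) L)) (hS : ∀ f ∈ S, ∃ e, MultiHom e f)
    (Y : Set ((i : Fin n) → (V i).toAffine.Point)) (hY : Y.Finite)
    (h : ∀ k : ℕ, ∃ P : (i : Fin n) → (V i).toAffine.Point,
      (∀ f ∈ S, eval (fun p => crd (P p.1) p.2) f = 0) ∧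
        ∃ y ∈ Y, ∀ i, ∃ z, P i = y i + 3 ^ k • z) :
    ∃ P : (i : Fin n) → (V i).toAffine.Point,
      (∀ f ∈ S, eval (fun p => crd (P p.1) p.2) f = 0) ∧
        ∃ y ∈ Y, ∀ i, ∃ m : ℕ, ¬ 3 ∣ m ∧ m • (P i - y i) = 0 := by
  subst hV
  exact lim_main hL d hd hd0 S hS Y hY h

/-- a fixed point -/
theorem const_main (hL : Th L) {n : ℕ} (d : Fin n → L) (hd : ∀ i, ‖d i‖ ≤ 1) (hd0 : ∀ i, d i ≠ 0)
    (Y : Set ((i : Fin n) → (WE (d i)).toAffine.Point)) (hY : Y.Finite)
    (P : (i : Fin n) → (WE (d i)).toAffine.Point)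
    (h : ∀ k : ℕ, ∃ y ∈ Y, ∀ i, ∃ z, P i = y i + 3 ^ k • z) :
    ∃ y ∈ Y, ∀ i, ∃ m : ℕ, ¬ 3 ∣ m ∧ m • (P i - y i) = 0 := by
  choose y hyY z hz using h
  obtain ⟨y₀, hy₀Y, hy₀⟩ : ∃ y₀ ∈ Y, ∀ᶠ k in (hyperfilter ℕ : Filter ℕ), y k = y₀ := by
    have h1 : ∀ᶠ k in (hyperfilter ℕ : Filter ℕ), y k ∈ Y := Filter.Eventually.of_forall hyY
    have h2 : (⋃ y₀ ∈ Y, {k | y k = y₀}) ∈ (hyperfilter ℕ : Filter ℕ) := by
      filter_upwards [h1] with k hk
      exact Set.mem_biUnion hk rfl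
    obtain ⟨y₀, h3, h4⟩ := (Ultrafilter.finite_biUnion_mem_iff hY).1 h2
    exact ⟨y₀, h3, h4⟩
  refine ⟨y₀, hy₀Y, fun i => ?_⟩
  have hU : ((hyperfilter ℕ : Ultrafilter ℕ) : Filter ℕ) ≤ atTop := by
    have hle : (hyperfilter ℕ : Filter ℕ) ≤ cofinite := hyperfilter_le_cofinite
    rwa [Nat.cofinite_eq_atTop] at hle
  obtain ⟨m, hm, h1⟩ := lim_pr hL (si_WS hL (hd i)) rfl (disc_WS hL (hd0 i)) (hyperfilter ℕ) hU
    (fun k => isoS hL.two_ne (d i) (P i)) (isoS hL.two_ne (d i) (P i))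
    (isoS hL.two_ne (d i) (y₀ i)) (fun j => tendsto_const_nhds) (by
      filter_upwards [hy₀] with k hk
      refine ⟨isoS hL.two_ne (d i) (z k i), ?_⟩
      have e : P i - y₀ i = 3 ^ k • z k i := by
        rw [← hk]
        nth_rewrite 1 [hz k i]
        abel
      rw [← map_sub, ← map_nsmul, e])
  refine ⟨m, hm, ?_⟩
  apply (isoS hL.two_ne (d i)).injective
  rw [map_nsmul, map_sub, map_zero]
  exact h1

theorem const_V (hL : Th L) {n : ℕ} (d : Fin n → L) (hd : ∀ i, ‖d i‖ ≤ 1) (hd0 : ∀ i, d i ≠ 0)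
    (V : Fin n → WeierstrassCurve L) (hV : V = fun i => WE (d i))
    (Y : Set ((i : Fin n) → (V i).toAffine.Point)) (hY : Y.Finite)
    (P : (i : Fin n) → (V i).toAffine.Point)
    (h : ∀ k : ℕ, ∃ y ∈ Y, ∀ i, ∃ z, P i = y i + 3 ^ k • z) :
    ∃ y ∈ Y, ∀ i, ∃ m : ℕ, ¬ 3 ∣ m ∧ m • (P i - y i) = 0 := by
  subst hV
  exact const_main hL d hd hd0 Y hY P h

/-- the points of order prime to three -/
lemma two_V {lam : L} (hL : IsLoc lam) {V : WeierstrassCurve L} {d : L} (hV : V = WE d)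
    (hd : ‖d‖ ≤ 1) (hc : ‖d ^ 2 / 4 - 1‖ < 1) {T : V.toAffine.Point} {m : ℕ} (hm : ¬ 3 ∣ m)
    (h : m • T = 0) : 2 • T = 0 ∧ (T ≠ 0 → ‖d ^ 2 / 4 - 1‖ ≤ ‖(9 : L)‖) := by
  subst hV
  obtain ⟨h1, h2⟩ := two_of hL (si_WS hL.th hd) rfl hc (T := isoS hL.th.two_ne d T)
    ⟨m, hm, by rw [← map_nsmul, h, map_zero]⟩
  refine ⟨?_, fun hT => h2 fun h0 => hT ?_⟩
  · apply (isoS hL.th.two_ne d).injective
    rw [map_nsmul, map_zero]
    exact h1
  · apply (isoS hL.th.two_ne d).injective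
    rw [map_zero]
    exact h0

end

section

variable {K : Type} [Field K]

/-- The `N`-covering of `E_1 × … × E_n` given by the cocycles `ξ i` with values in the points of order
dividing `N` has a point over the extension `L` of `K` which lies over a point of the subvariety `X`
defined by the equations in `S`. -/
def CovPt {n : ℕ} (E : Fin n → WeierstrassCurve K) (S : Set (MvPolynomial (Fin n × Fin 3) K)) (N : ℕ)
    (ξ : (i : Fin n) → (AlgebraicClosure K ≃ₐ[K] AlgebraicClosure K) → AlgPt (E i) K)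
    (L : Type) [Field L] [Algebra K L] : Prop :=
  ∃ (ι : AlgebraicClosure K →ₐ[K] AlgebraicClosure L)
    (P : (i : Fin n) → ((E i).baseChange L).toAffine.Point) (Q : (i : Fin n) → AlgPt (E i) L),
    OnX S (fun i => crd (P i)) ∧ (∀ i, N • Q i = incl (E i) L (P i)) ∧
      ∀ i σ τ, Compat ι σ τ → pm (E i) ι (ξ i τ) = act (E i) σ (Q i) - Q i

/-- The point `P` over the extension `L` of `K` lifts to the `N`-covering given by the `ξ i`. -/
def CovAt {n : ℕ} (E : Fin n → WeierstrassCurve K) (N : ℕ)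
    (ξ : (i : Fin n) → (AlgebraicClosure K ≃ₐ[K] AlgebraicClosure K) → AlgPt (E i) K)
    (L : Type) [Field L] [Algebra K L] (P : (i : Fin n) → ((E i).baseChange L).toAffine.Point) : Prop :=
  ∃ (ι : AlgebraicClosure K →ₐ[K] AlgebraicClosure L) (Q : (i : Fin n) → AlgPt (E i) L),
    (∀ i, N • Q i = incl (E i) L (P i)) ∧
      ∀ i σ τ, Compat ι σ τ → pm (E i) ι (ξ i τ) = act (E i) σ (Q i) - Q i

variable [NumberField K]

/-- the `N`-Selmer set of `X` -/
def SelSet {n : ℕ} (E : Fin n → WeierstrassCurve K) (S : Set (MvPolynomial (Fin n × Fin 3) K)) (N : ℕ) :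
    Set ((i : Fin n) → (AlgebraicClosure K ≃ₐ[K] AlgebraicClosure K) → AlgPt (E i) K) :=
  {ξ | (∀ i, IsCocycle (E i) (ξ i)) ∧ (∀ i σ, N • ξ i σ = 0) ∧
    (∀ v : HeightOneSpectrum (𝓞 K), CovPt E S N ξ (v.adicCompletion K)) ∧
    ∀ w : InfinitePlace K, CovPt E S N ξ w.Completion}

/-- the three-primary part of the Tate-Shafarevich group is trivial -/
def Sha3 (E : WeierstrassCurve K) : Prop :=
  ∀ (k : ℕ) (s : Pool.Agent.TH841.NF.D.Sha E), 3 ^ k • s = 0 → s = 0

/-- the coverings of the Selmer set come from rational points -/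
theorem shift_all {n : ℕ} (E : Fin n → WeierstrassCurve K) (hsha : ∀ i, Sha3 (E i))
    (S : Set (MvPolynomial (Fin n × Fin 3) K)) (k : ℕ)
    (ξ : (i : Fin n) → (AlgebraicClosure K ≃ₐ[K] AlgebraicClosure K) → AlgPt (E i) K)
    (hξ : ξ ∈ SelSet E S (3 ^ k)) :
    ∃ y : (i : Fin n) → ((E i).baseChange K).toAffine.Point,
      ∀ (L : Type) [Field L] [CharZero L] [Algebra K L]
        (P : (i : Fin n) → ((E i).baseChange L).toAffine.Point), CovAt E (3 ^ k) ξ L P →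
        ∀ i, ∃ z, P i = pm (E i) (Algebra.ofId K L) (y i) + 3 ^ k • z := by
  obtain ⟨h1, h2, h3, h4⟩ := hξ
  have hT : ∀ i, ∃ (R : AlgPt (E i) K) (y : ((E i).baseChange K).toAffine.Point),
      incl (E i) K y = 3 ^ k • R ∧ ∀ σ, ξ i σ = act (E i) σ R - R := by
    intro i
    refine coc_three k (hsha i k) (ξ i) (h1 i) (h2 i) (fun u => ?_) (fun w => ?_)
    · obtain ⟨ι, P, Q, -, -, h⟩ := h3 u
      exact ⟨ι, Q i, fun σ τ hστ => h i σ τ hστ⟩
    · obtain ⟨ι, P, Q, -, -, h⟩ := h4 w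
      exact ⟨ι, Q i, fun σ τ hστ => h i σ τ hστ⟩
  choose R y hy hR using hT
  refine ⟨y, fun L _ _ _ P hP i => ?_⟩
  obtain ⟨ι, Q, hPQ, hQ⟩ := hP
  exact shift (hy i) (hR i) ι (hPQ i) fun σ τ hστ => hQ i σ τ hστ

lemma base_ED (L : Type) [Field L] [Algebra K L] (D : 𝓞 K) :
    (ED (D : K)).baseChange L = WE (algebraMap K L (D : K)) := by
  show (ED (D : K)).map (algebraMap K L) = _
  simp [ED, WE, WeierstrassCurve.map]

end

section

variable {K : Type} [Field K] [NumberField K] [IsCyclotomicExtension {3} ℚ K] {n : ℕ}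

/-- the conclusion for one component -/
def NearAt (D : 𝓞 K) (L : Type) [Field L] [Algebra K L]
    (P : ((ED (D : K)).baseChange L).toAffine.Point)
    (y : ((ED (D : K)).baseChange K).toAffine.Point) : Prop :=
  2 • P = 2 • pm (ED (D : K)) (Algebra.ofId K L) y ∧
    (¬ (9 : 𝓞 K) ∣ D + 2 → P = pm (ED (D : K)) (Algebra.ofId K L) y)

lemma near_of {D : 𝓞 K} (hD : (3 : 𝓞 K) ∣ D - 1) {v : HeightOneSpectrum (𝓞 K)}
    (hv : ((3 : ℕ) : 𝓞 K) ∈ v.asIdeal) {lam : v.adicCompletion K} (hL : IsLoc lam)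
    {P : ((ED (D : K)).baseChange (v.adicCompletion K)).toAffine.Point}
    {y : ((ED (D : K)).baseChange K).toAffine.Point} {m : ℕ} (hm : ¬ 3 ∣ m)
    (h : m • (P - pm (ED (D : K)) (Algebra.ofId K (v.adicCompletion K)) y) = 0) :
    NearAt D (v.adicCompletion K) P y := by
  have inst3 : ProperSpace (v.adicCompletion K) := Pool.Agent.Y791.BS.proper v
  obtain ⟨h1, h2⟩ := two_V hL (base_ED (v.adicCompletion K) D) (nff_le v D) (a6_lt hL hD).1 hm h
  refine ⟨?_, fun h9 => ?_⟩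
  · rw [smul_sub, sub_eq_zero] at h1
    exact h1
  · by_contra hne
    exact h9 (nine_of hv hL hD (h2 (sub_ne_zero.2 hne)))

lemma ne_ff {D : 𝓞 K} (h : D ≠ 0) (v : HeightOneSpectrum (𝓞 K)) : ff v D ≠ 0 := by
  intro h0
  have h1 : algebraMap K (v.adicCompletion K) (D : K) = 0 := h0
  rw [map_eq_zero] at h1
  exact h (NumberField.RingOfIntegers.coe_injective (h1.trans (map_zero _).symm))

/-- **Components at the place above three.** -/
theorem thmV1 {D : Fin n → 𝓞 K} (hD : ∀ i, (3 : 𝓞 K) ∣ D i - 1) (hD0 : ∀ i, D i ≠ 0)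
    (htri : ∀ i, Tri (D i)) (S : Set (MvPolynomial (Fin n × Fin 3) K))
    (v : HeightOneSpectrum (𝓞 K)) (hv : ((3 : ℕ) : 𝓞 K) ∈ v.asIdeal)
    (P : (i : Fin n) → ((ED (D i : K)).baseChange (v.adicCompletion K)).toAffine.Point)
    (h : ∀ k : ℕ, ∃ ξ ∈ SelSet (fun i => ED (D i : K)) S (3 ^ k),
      CovAt (fun i => ED (D i : K)) (3 ^ k) ξ (v.adicCompletion K) P) :
    ∃ y : (i : Fin n) → ((ED (D i : K)).baseChange K).toAffine.Point,
      ∀ i, NearAt (D i) (v.adicCompletion K) (P i) (y i) := by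
  obtain ⟨lam, hL⟩ := isLoc v hv
  have inst3 : ProperSpace (v.adicCompletion K) := Pool.Agent.Y791.BS.proper v
  have : CharZero (v.adicCompletion K) :=
    charZero_of_injective_algebraMap (algebraMap K (v.adicCompletion K)).injective
  have hfin : ∀ i, Finite ((ED (D i : K)).baseChange K).toAffine.Point := fun i => (htri i).1
  let Y : Set ((i : Fin n) → ((ED (D i : K)).baseChange (v.adicCompletion K)).toAffine.Point) :=
    Set.range fun (y : (i : Fin n) → ((ED (D i : K)).baseChange K).toAffine.Point) i =>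
      pm (ED (D i : K)) (Algebra.ofId K (v.adicCompletion K)) (y i)
  have hY : Y.Finite := Set.finite_range _
  obtain ⟨y', ⟨y, hy⟩, h1⟩ := const_V hL.th (fun i => ff v (D i)) (fun i => nff_le v (D i))
    (fun i => ne_ff (hD0 i) v) (fun i => (ED (D i : K)).baseChange (v.adicCompletion K))
    (funext fun i => base_ED (v.adicCompletion K) (D i)) Y hY P (fun k => by
      obtain ⟨ξ, hξ, hc⟩ := h k
      obtain ⟨y, hy⟩ := shift_all (fun i => ED (D i : K)) (fun i => (htri i).2) S k ξ hξ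
      exact ⟨_, ⟨y, rfl⟩, hy (v.adicCompletion K) P hc⟩)
  refine ⟨y, fun i => ?_⟩
  obtain ⟨m, hm, h2⟩ := h1 i
  rw [← hy] at h2
  exact near_of (hD i) hv hL hm h2

/-- **The Hasse principle part.** -/
theorem thmV2 {D : Fin n → 𝓞 K} (hD : ∀ i, (3 : 𝓞 K) ∣ D i - 1) (hD0 : ∀ i, D i ≠ 0)
    (htri : ∀ i, Tri (D i)) (S : Set (MvPolynomial (Fin n × Fin 3) K))
    (hS : ∀ f ∈ S, ∃ d, MultiHom d f)
    (v : HeightOneSpectrum (𝓞 K)) (hv : ((3 : ℕ) : 𝓞 K) ∈ v.asIdeal)
    (hX : ∀ P : (i : Fin n) → ((ED (D i : K)).baseChange (v.adicCompletion K)).toAffine.Point,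
      OnX S (fun i => crd (P i)) →
      ¬ ∃ y : (i : Fin n) → ((ED (D i : K)).baseChange K).toAffine.Point,
        ∀ i, NearAt (D i) (v.adicCompletion K) (P i) (y i)) :
    ∃ k : ℕ, SelSet (fun i => ED (D i : K)) S (3 ^ k) = ∅ := by
  by_contra hcon
  push Not at hcon
  obtain ⟨lam, hL⟩ := isLoc v hv
  have inst3 : ProperSpace (v.adicCompletion K) := Pool.Agent.Y791.BS.proper v
  have : CharZero (v.adicCompletion K) :=
    charZero_of_injective_algebraMap (algebraMap K (v.adicCompletion K)).injective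
  have hfin : ∀ i, Finite ((ED (D i : K)).baseChange K).toAffine.Point := fun i => (htri i).1
  let Y : Set ((i : Fin n) → ((ED (D i : K)).baseChange (v.adicCompletion K)).toAffine.Point) :=
    Set.range fun (y : (i : Fin n) → ((ED (D i : K)).baseChange K).toAffine.Point) i =>
      pm (ED (D i : K)) (Algebra.ofId K (v.adicCompletion K)) (y i)
  have hY : Y.Finite := Set.finite_range _
  let θ : K →+* v.adicCompletion K := algebraMap K (v.adicCompletion K)
  obtain ⟨P, hP, y', ⟨y, hy⟩, h1⟩ := lim_V hL.th (fun i => ff v (D i)) (fun i => nff_le v (D i))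
    (fun i => ne_ff (hD0 i) v) (fun i => (ED (D i : K)).baseChange (v.adicCompletion K))
    (funext fun i => base_ED (v.adicCompletion K) (D i)) {f | ∃ h ∈ S, f = map θ h}
    (by
      rintro f ⟨h, hh, rfl⟩
      obtain ⟨d, hd⟩ := hS h hh
      exact ⟨d, fun m hm => hd m (MvPolynomial.support_map_subset _ _ hm)⟩) Y hY (fun k => by
      obtain ⟨ξ, hξ⟩ := hcon k
      obtain ⟨y, hy⟩ := shift_all (fun i => ED (D i : K)) (fun i => (htri i).2) S k ξ hξ
      obtain ⟨-, -, h3, -⟩ := hξ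
      obtain ⟨ι, P, Q, hP, hPQ, hQ⟩ := h3 v
      refine ⟨P, ?_, _, ⟨y, rfl⟩, hy (v.adicCompletion K) P ⟨ι, Q, hPQ, hQ⟩⟩
      rintro f ⟨h, hh, rfl⟩
      have h1 := hP h hh
      rw [aeval_def] at h1
      rw [eval_map]
      exact h1)
  refine hX P ?_ ⟨y, fun i => ?_⟩
  · intro f hf
    have h2 := hP (map θ f) ⟨f, hf, rfl⟩
    rw [eval_map] at h2
    rw [aeval_def]
    exact h2
  · obtain ⟨m, hm, h2⟩ := h1 i
    rw [← hy] at h2
    exact near_of (hD i) hv hL hm h2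

end

end Pool.Agent.R419.ST
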