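import Pool.Agent.R419.ST.Uni
import Pool.Agent.R419.ST.Main
import Pool.Agent.TH841.SH.ShaDef

/-!
# Families of subvarieties of `ℙ^N × E_{D_1} × … × E_{D_n}` over `ℚ`
-/

set_option autoImplicit false
set_option linter.all false

open WeierstrassCurve MvPolynomial Filter Topology

namespace Pool.Agent.R419.ST

open Pool.Agent.TH954

open scoped Classical

/-! ### Multihomogeneous polynomials -/

/-- the variables: the parameters `D_i`, the coordinates on `ℙ^N`, the coordinates of the points -/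
abbrev Var (n N : ℕ) : Type := Fin n ⊕ Fin (N + 1) ⊕ (Fin n × Fin 3)

/-- the values of the variables -/
def val {L : Type} {n N : ℕ} (d : Fin n → L) (u : Fin (N + 1) → L) (v : Fin n → Fin 3 → L) :
    Var n N → L := Sum.elim d (Sum.elim u fun p => v p.1 p.2)

/-- `f` is homogeneous in the coordinates on `ℙ^N` and in the coordinates of each of the points -/
def IsHom {n N : ℕ} (f : MvPolynomial (Var n N) ℚ) : Prop :=
  ∃ (e₀ : ℕ) (e : Fin n → ℕ), ∀ m ∈ f.support, ∑ j, m (Sum.inr (Sum.inl j)) = e₀ ∧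
    ∀ i, ∑ j, m (Sum.inr (Sum.inr (i, j))) = e i

lemma hom_smul {n N : ℕ} {f : MvPolynomial (Var n N) ℚ} (hf : IsHom f) {L : Type} [Field L]
    [Algebra ℚ L] (d : Fin n → L) (u : Fin (N + 1) → L) (v : Fin n → Fin 3 → L) {a : L}
    (ha : a ≠ 0) {s : Fin n → L} (hs : ∀ i, s i ≠ 0) :
    aeval (val d (fun j => a * u j) (fun i j => s i * v i j)) f = 0 ↔
      aeval (val d u v) f = 0 := by
  obtain ⟨e₀, e, h⟩ := hf
  have key : aeval (val d (fun j => a * u j) (fun i j => s i * v i j)) f =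
      (a ^ e₀ * ∏ i, s i ^ e i) * aeval (val d u v) f := by
    rw [aeval_def, aeval_def, eval₂_eq', eval₂_eq', Finset.mul_sum]
    refine Finset.sum_congr rfl fun m hm => ?_
    obtain ⟨h1, h2⟩ := h m hm
    have e1 : ∏ i, val d (fun j => a * u j) (fun i j => s i * v i j) i ^ m i =
        (a ^ e₀ * ∏ i, s i ^ e i) * ∏ i, val d u v i ^ m i := by
      rw [Fintype.prod_sum_type, Fintype.prod_sum_type, Fintype.prod_sum_type,
        Fintype.prod_sum_type]
      have e2 : ∏ j : Fin (N + 1), val d (fun j => a * u j) (fun i j => s i * v i j)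
          (Sum.inr (Sum.inl j)) ^ m (Sum.inr (Sum.inl j)) =
          a ^ e₀ * ∏ j : Fin (N + 1), val d u v (Sum.inr (Sum.inl j)) ^ m (Sum.inr (Sum.inl j)) := by
        have e3 : ∀ j : Fin (N + 1), val d (fun j => a * u j) (fun i j => s i * v i j)
          (Sum.inr (Sum.inl j)) ^ m (Sum.inr (Sum.inl j)) =
            a ^ m (Sum.inr (Sum.inl j)) *
              val d u v (Sum.inr (Sum.inl j)) ^ m (Sum.inr (Sum.inl j)) := fun j =>
          mul_pow _ _ _
        rw [Finset.prod_congr rfl fun j _ => e3 j, Finset.prod_mul_distrib,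
          Finset.prod_pow_eq_pow_sum, h1]
      have e4 : ∏ p : Fin n × Fin 3, val d (fun j => a * u j) (fun i j => s i * v i j)
          (Sum.inr (Sum.inr p)) ^ m (Sum.inr (Sum.inr p)) =
          (∏ i, s i ^ e i) *
            ∏ p : Fin n × Fin 3, val d u v (Sum.inr (Sum.inr p)) ^ m (Sum.inr (Sum.inr p)) := by
        have e3 : ∀ p : Fin n × Fin 3, val d (fun j => a * u j) (fun i j => s i * v i j)
          (Sum.inr (Sum.inr p)) ^ m (Sum.inr (Sum.inr p)) =
            s p.1 ^ m (Sum.inr (Sum.inr p)) *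
              val d u v (Sum.inr (Sum.inr p)) ^ m (Sum.inr (Sum.inr p)) := fun p =>
          mul_pow _ _ _
        rw [Finset.prod_congr rfl fun p _ => e3 p, Finset.prod_mul_distrib]
        congr 1
        rw [Fintype.prod_prod_type]
        refine Finset.prod_congr rfl fun i _ => ?_
        show ∏ j, s i ^ m (Sum.inr (Sum.inr (i, j))) = s i ^ e i
        rw [Finset.prod_pow_eq_pow_sum, h2 i]
      rw [e2, e4]
      have e5 : ∀ i : Fin n, val d (fun j => a * u j) (fun i j => s i * v i j) (Sum.inl i) =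
        val d u v (Sum.inl i) := fun i => rfl
      simp only [e5]
      ring
    rw [e1]
    ring
  rw [key, mul_eq_zero, or_iff_right]
  exact mul_ne_zero (pow_ne_zero _ ha) (Finset.prod_ne_zero_iff.2 fun i _ => pow_ne_zero _ (hs i))

/-- scaling a non-zero vector -/
lemma unit_vec {L : Type} [NormedField L] {N : ℕ} {u : Fin (N + 1) → L} (hu : u ≠ 0) :
    ∃ (a : L) (w : Fin (N + 1) → L), a ≠ 0 ∧ (∀ j, u j = a * w j) ∧ (∀ j, ‖w j‖ ≤ 1) ∧
      ∃ j, ‖w j‖ = 1 := by
  obtain ⟨j₀, -, hj₀⟩ := Finset.exists_max_image Finset.univ (fun j => ‖u j‖)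
    ⟨0, Finset.mem_univ _⟩
  have h0 : u j₀ ≠ 0 := by
    intro h0
    apply hu
    funext j
    have := hj₀ j (Finset.mem_univ _)
    rw [h0, norm_zero] at this
    exact norm_le_zero_iff.1 this
  have hp : 0 < ‖u j₀‖ := norm_pos_iff.2 h0
  refine ⟨u j₀, fun j => u j / u j₀, h0, fun j => (mul_div_cancel₀ _ h0).symm, fun j => ?_, j₀, ?_⟩
  · rw [norm_div, div_le_one hp]
    exact hj₀ j (Finset.mem_univ _)
  · show ‖u j₀ / u j₀‖ = 1
    rw [div_self h0, norm_one]

/-! ### The field of the 3-adic numbers -/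

instance fact3 : Fact (Nat.Prime 3) := ⟨Nat.prime_three⟩

lemma norm3 : ‖(3 : ℚ_[3])‖ = 1 / 3 := by
  have := Padic.norm_p (p := 3)
  push_cast at this
  rw [this]
  norm_num

lemma q3 : Q3 ℚ_[3] where
  th := by
    refine ⟨?_, ?_, ?_⟩
    · have h : ‖((2 : ℤ) : ℚ_[3])‖ = 1 := by
        have h1 : ¬ ‖((2 : ℤ) : ℚ_[3])‖ < 1 := by
          rw [Padic.norm_intCast_lt_one_iff]
          norm_num
        exact le_antisymm (Padic.norm_int_le_one 2) (not_lt.1 h1)
      exact_mod_cast h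
    · rw [norm3]; norm_num
    · rw [norm3]; norm_num
  res := by
    intro x hx
    obtain ⟨n, hn, h⟩ := PadicInt.exists_mem_range (p := 3) ⟨x, hx⟩
    rw [IsLocalRing.mem_maximalIdeal, PadicInt.mem_nonunits] at h
    have h' : ‖x - (n : ℚ_[3])‖ < 1 := by
      have e : ((⟨x, hx⟩ - (n : ℤ_[3]) : ℤ_[3]) : ℚ_[3]) = x - (n : ℚ_[3]) := by
        push_cast
        rfl
      rw [← e, ← PadicInt.norm_def]
      exact h
    interval_cases n
    · left
      simpa using h'
    · right; left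
      simpa using h'
    · right; right
      have e : x + 1 = (x - ((2 : ℕ) : ℚ_[3])) + 3 := by
        push_cast
        ring
      rw [e]
      refine uadd_lt h' ?_
      rw [norm3]
      norm_num
  disc := by
    intro x hx
    have h := (Padic.norm_le_pow_iff_norm_lt_pow_add_one x (-1)).2 (by
      rw [show (-1 : ℤ) + 1 = 0 by norm_num, zpow_zero]
      exact hx)
    rw [norm3]
    refine h.trans (le_of_eq ?_)
    norm_num

lemma norm9 : ‖(9 : ℚ_[3])‖ = 1 / 9 := by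
  have : (9 : ℚ_[3]) = 3 * 3 := by norm_num
  rw [this, norm_mul, norm3]
  norm_num

lemma nat_le (m : ℕ) : ‖(m : ℚ_[3])‖ ≤ 1 := by
  have := Padic.norm_int_le_one (p := 3) (m : ℤ)
  exact_mod_cast this

lemma d_cond {D : ℕ} (hD : D % 9 = 4 ∨ D % 9 = 5) :
    ‖(D : ℚ_[3])‖ ≤ 1 ∧ ‖(D : ℚ_[3]) ^ 2 / 4 - 1‖ < 1 ∧
      ¬ ‖(D : ℚ_[3]) ^ 2 / 4 - 1‖ ≤ ‖(9 : ℚ_[3])‖ := by
  obtain ⟨q, hq⟩ : ∃ q : ℕ, D ^ 2 = 9 * q + 7 := by
    refine ⟨D ^ 2 / 9, ?_⟩
    have h1 : D ^ 2 % 9 = 7 := by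
      rcases hD with h | h <;> rw [pow_two, Nat.mul_mod, h]
    omega
  have h4 : (4 : ℚ_[3]) ≠ 0 := q3.th.four_ne
  have e : (D : ℚ_[3]) ^ 2 / 4 - 1 = 3 * ((3 * (q : ℚ_[3]) + 1) / 4) := by
    have hq' : (D : ℚ_[3]) ^ 2 = 9 * (q : ℚ_[3]) + 7 := by exact_mod_cast hq
    rw [hq']
    field_simp
    ring
  have h1 : ‖(3 * (q : ℚ_[3]) + 1)‖ = 1 := by
    rw [add_comm, uadd_eq, norm_one]
    rw [norm_one, norm_mul, norm3]
    have := nat_le q
    linarith
  have h2 : ‖(D : ℚ_[3]) ^ 2 / 4 - 1‖ = 1 / 3 := by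
    rw [e, norm_mul, norm_div, h1, q3.th.four, norm3]
    norm_num
  refine ⟨nat_le D, ?_, ?_⟩
  · rw [h2]; norm_num
  · rw [h2, norm9]; norm_num

end Pool.Agent.R419.ST
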