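import Pool.Agent.R419.ST.FamA

/-!
# Three-power descent over `ℚ` in families
-/

set_option autoImplicit false
set_option linter.all false

open WeierstrassCurve MvPolynomial Filter Topology

namespace Pool.Agent.R419.ST

open Pool.Agent.TH954

open scoped Classical

section

variable {K : Type} [Field K] [NumberField K] {E : WeierstrassCurve K}

/-- the rational point belonging to a coboundary -/
lemma cob_three (k : ℕ) (ξ : (AlgebraicClosure K ≃ₐ[K] AlgebraicClosure K) → AlgPt E K)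
    (hk : ∀ σ, 3 ^ k • ξ σ = 0) (R : AlgPt E K) (hR' : ∀ σ, ξ σ = act E σ R - R) :
    ∃ y : (E.baseChange K).toAffine.Point, incl E K y = 3 ^ k • R := by
  refine exists_of_fixed (L := K) (3 ^ k • R) fun σ => ?_
  have e1 : act E σ R = R + ξ σ := by
    rw [hR' σ]
    abel
  rw [act_nsmul, e1, ns_add, hk, add_zero]

/-- images of points of finite groups have finite order -/
lemma fin_image (hfin : Finite (E.baseChange K).toAffine.Point) {L : Type} [Field L] [Algebra K L]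
    (y : (E.baseChange K).toAffine.Point) :
    ∃ m : ℕ, m ≠ 0 ∧ m • pm E (Algebra.ofId K L) y = 0 := by
  refine ⟨addOrderOf y, (addOrderOf_pos y).ne', ?_⟩
  rw [← map_nsmul, addOrderOf_nsmul_eq_zero, map_zero]

/-- general form of the descent -/
lemma coc_gen (A : AddSubgroup (Pool.Agent.TH841.SH.D.Coch E)) (k : ℕ)
    (hsha : ∀ s : A ⧸ (Pool.Agent.TH841.SH.D.cob E).addSubgroupOf A, 3 ^ k • s = 0 → s = 0)
    (ξ : (AlgebraicClosure K ≃ₐ[K] AlgebraicClosure K) → AlgPt E K)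
    (hk : ∀ σ, 3 ^ k • ξ σ = 0) (hξ : (ξ : Pool.Agent.TH841.SH.D.Coch E) ∈ A) :
    ∃ (R : AlgPt E K) (y : (E.baseChange K).toAffine.Point), incl E K y = 3 ^ k • R ∧
      ∀ σ, ξ σ = act E σ R - R := by
  let x : A := ⟨ξ, hξ⟩
  have hx0 : 3 ^ k • x = 0 := by
    apply Subtype.ext
    funext σ
    exact hk σ
  let q : A →+ A ⧸ (Pool.Agent.TH841.SH.D.cob E).addSubgroupOf A :=
    QuotientAddGroup.mk' ((Pool.Agent.TH841.SH.D.cob E).addSubgroupOf A)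
  have hq : q x = 0 := by
    refine hsha _ ?_
    rw [← map_nsmul, hx0, map_zero]
  have hq' : x ∈ (Pool.Agent.TH841.SH.D.cob E).addSubgroupOf A :=
    (QuotientAddGroup.eq_zero_iff x).1 hq
  have hcob : Pool.Agent.TH841.SH.D.IsCob E ξ := hq'
  obtain ⟨R, hR'⟩ : ∃ R : AlgPt E K, ∀ σ, ξ σ = act E σ R - R := hcob
  obtain ⟨y, hy⟩ := cob_three k ξ hk R hR'
  exact ⟨R, y, hy, hR'⟩

end

/-- the absolute Galois group of `ℚ` -/
abbrev GQ : Type := Pool.Agent.TH841.SH.D.Gal ℚ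

/-- **Selmer classes of three-power order come from rational points.** -/
theorem coc_threeQ {E : WeierstrassCurve ℚ} (k : ℕ)
    (hsha : ∀ s : Pool.Agent.TH841.SH.D.Sha E, 3 ^ k • s = 0 → s = 0)
    (ξ : GQ → AlgPt E ℚ) (hξ : IsCocycle E ξ)
    (hk : ∀ σ, 3 ^ k • ξ σ = 0)
    (hv : ∀ (p : ℕ) [Fact p.Prime], TrivialOver E ξ ℚ_[p]) (hw : TrivialOver E ξ ℝ) :
    ∃ (R : AlgPt E ℚ) (y : (E.baseChange ℚ).toAffine.Point), incl E ℚ y = 3 ^ k • R ∧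
      ∀ σ, ξ σ = act E σ R - R := by
  have hcoc : Pool.Agent.TH841.SH.D.IsShaCoc E ξ :=
    ⟨coc_of hξ, fun p _ => loc_of hξ (hv p), loc_of hξ hw⟩
  exact coc_gen (Pool.Agent.TH841.SH.D.shaCoc E) k hsha ξ hk hcoc

/-- the curve `y² + D y = x³` over `ℚ` -/
def EN (D : ℕ) : WeierstrassCurve ℚ := ⟨0, 0, (D : ℚ), 0, 0⟩

section

variable {n N : ℕ}

/-- the points over `L` of the fibre `X_D` -/
def OnF (S : Set (MvPolynomial (Var n N) ℚ)) (D : Fin n → ℕ) (L : Type) [Field L] [Algebra ℚ L]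
    (u : Fin (N + 1) → L) (P : (i : Fin n) → ((EN (D i)).baseChange L).toAffine.Point) : Prop :=
  u ≠ 0 ∧ ∀ f ∈ S, aeval (val (fun i => (D i : L)) u fun i => crd (P i)) f = 0

/-- the `M`-Selmer set of `X_D` -/
def SelQ (S : Set (MvPolynomial (Var n N) ℚ)) (D : Fin n → ℕ) (M : ℕ) :
    Set ((i : Fin n) → GQ → AlgPt (EN (D i)) ℚ) :=
  {ξ | (∀ i, IsCocycle (EN (D i)) (ξ i)) ∧ (∀ i σ, M • ξ i σ = 0) ∧
    (∀ (p : ℕ) [Fact p.Prime], ∃ (u : Fin (N + 1) → ℚ_[p])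
      (P : (i : Fin n) → ((EN (D i)).baseChange ℚ_[p]).toAffine.Point),
        OnF S D ℚ_[p] u P ∧ CovAt (fun i => EN (D i)) M ξ ℚ_[p] P) ∧
    ∃ (u : Fin (N + 1) → ℝ) (P : (i : Fin n) → ((EN (D i)).baseChange ℝ).toAffine.Point),
        OnF S D ℝ u P ∧ CovAt (fun i => EN (D i)) M ξ ℝ P}

/-- the good `D` -/
structure GoodQ (D : ℕ) : Prop where
  mod : D % 9 = 4 ∨ D % 9 = 5
  fin : Finite (EN D).toAffine.Point
  sha : ∀ (m : ℕ) (x : Pool.Agent.TH841.SH.D.Sha (EN D)), 3 ^ m • x = 0 → x = 0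

lemma base_EN (L : Type) [Field L] [Algebra ℚ L] (D : ℕ) :
    (EN D).baseChange L = WE (D : L) := by
  show (EN D).map (algebraMap ℚ L) = _
  simp [EN, WE, WeierstrassCurve.map]

lemma near_V {V : WeierstrassCurve ℚ_[3]} {d : ℚ_[3]} (hV : V = WE d)
    (hd : ‖d‖ ≤ 1) (hc : ‖d ^ 2 / 4 - 1‖ < 1)
    (h9 : ¬ ‖d ^ 2 / 4 - 1‖ ≤ ‖(9 : ℚ_[3])‖) {P y z : V.toAffine.Point} {m : ℕ} (hm : m ≠ 0)
    (hy : m • y = 0) (k : ℕ) (h : P = y + 3 ^ (k + 1) • z) :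
    ∃ (t : Fin 3) (s : ℚ_[3]) (v : Fin 3 → ℚ_[3]), s ≠ 0 ∧ (∀ j, crd P j = s * v j) ∧
      ∀ j, ‖v j - tau d t j‖ ≤ (1 / 3 : ℝ) ^ (k + 2) := by
  subst hV
  have := near_tau q3 hd hc h9 hm hy k h
  rw [norm3] at this
  exact this

/-- **The approximation**: a 3-adic point on `X_D` which lifts to an element of the `3 ^ (k + 1)`-Selmer
set is near to a torsion point. -/
theorem near_sel (S : Set (MvPolynomial (Var n N) ℚ)) (hS : ∀ f ∈ S, IsHom f) (D : Fin n → ℕ)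
    (hD : ∀ i, GoodQ (D i)) (k : ℕ)
    (ξ : (i : Fin n) → GQ → AlgPt (EN (D i)) ℚ)
    (hξ : ξ ∈ SelQ S D (3 ^ (k + 1))) :
    ∃ (t : Fin n → Fin 3) (w : Fin (N + 1) → ℚ_[3]) (v : Fin n → Fin 3 → ℚ_[3]),
      (∀ j, ‖w j‖ ≤ 1) ∧ (∃ j, ‖w j‖ = 1) ∧
      (∀ i j, ‖v i j - tau (D i : ℚ_[3]) (t i) j‖ ≤ (1 / 3 : ℝ) ^ (k + 2)) ∧
      ∀ f ∈ S, aeval (val (fun i => (D i : ℚ_[3])) w v) f = 0 := by
  obtain ⟨h1, h2, h3, h4⟩ := hξ
  have hfin : ∀ i, Finite ((EN (D i)).baseChange ℚ).toAffine.Point := by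
    intro i
    have e : (EN (D i)).baseChange ℚ = EN (D i) := by
      show (EN (D i)).map (algebraMap ℚ ℚ) = _
      simp [EN, WeierstrassCurve.map]
    rw [e]
    exact (hD i).fin
  have hT : ∀ i, ∃ (R : AlgPt (EN (D i)) ℚ) (y : ((EN (D i)).baseChange ℚ).toAffine.Point),
      incl (EN (D i)) ℚ y = 3 ^ (k + 1) • R ∧ ∀ σ, ξ i σ = act (EN (D i)) σ R - R := by
    intro i
    refine coc_threeQ (k + 1) ((hD i).sha (k + 1)) (ξ i) (h1 i) (h2 i) (fun p _ => ?_) ?_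
    · obtain ⟨u, P, -, ι, Q, -, h⟩ := h3 p
      exact ⟨ι, Q i, fun σ τ hστ => h i σ τ hστ⟩
    · obtain ⟨u, P, -, ι, Q, -, h⟩ := h4
      exact ⟨ι, Q i, fun σ τ hστ => h i σ τ hστ⟩
  choose R y hy hR using hT
  obtain ⟨u, P, ⟨hu, hP⟩, ι, Q, hPQ, hQ⟩ := h3 3
  have hz : ∀ i, ∃ z, P i = pm (EN (D i)) (Algebra.ofId ℚ ℚ_[3]) (y i) + 3 ^ (k + 1) • z :=
    fun i => shift (hy i) (hR i) ι (hPQ i) fun σ τ hστ => hQ i σ τ hστ
  choose z hz using hz
  have hn : ∀ i, ∃ (t : Fin 3) (s : ℚ_[3]) (v : Fin 3 → ℚ_[3]), s ≠ 0 ∧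
      (∀ j, crd (P i) j = s * v j) ∧
      ∀ j, ‖v j - tau (D i : ℚ_[3]) t j‖ ≤ (1 / 3 : ℝ) ^ (k + 2) := by
    intro i
    obtain ⟨c1, c2, c3⟩ := d_cond (hD i).mod
    obtain ⟨m, hm, hm0⟩ := fin_image (hfin i) (L := ℚ_[3]) (y i)
    exact near_V (base_EN ℚ_[3] (D i)) c1 c2 c3 hm hm0 k (hz i)
  choose t s v hs hv hvt using hn
  obtain ⟨a, w, ha, hw, hw1, hw2⟩ := unit_vec hu
  refine ⟨t, w, v, hw1, hw2, hvt, fun f hf => ?_⟩
  have h5 := hP f hf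
  have e1 : val (fun i => (D i : ℚ_[3])) u (fun i => crd (P i)) =
      val (fun i => (D i : ℚ_[3])) (fun j => a * w j) (fun i j => s i * v i j) := by
    have e2 : u = fun j => a * w j := funext hw
    have e3 : (fun i => crd (P i)) = fun i j => s i * v i j := by
      funext i j
      exact hv i j
    rw [e3, ← e2]
  rw [e1] at h5
  exact (hom_smul (hS f hf) _ w v ha hs).1 h5

/-- `d ≡ ±4` modulo `9` -/
def Cl3 (d : ℤ_[3]) : Prop := ‖d - 4‖ ≤ 1 / 9 ∨ ‖d + 4‖ ≤ 1 / 9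

lemma cl3_closed : IsClosed {d : ℤ_[3] | Cl3 d} := by
  have h1 : IsClosed {d : ℤ_[3] | ‖d - 4‖ ≤ 1 / 9} :=
    isClosed_le (by fun_prop) continuous_const
  have h2 : IsClosed {d : ℤ_[3] | ‖d + 4‖ ≤ 1 / 9} :=
    isClosed_le (by fun_prop) continuous_const
  exact h1.union h2

lemma norm9' (q : ℤ) : ‖(9 : ℤ_[3]) * (q : ℤ_[3])‖ ≤ 1 / 9 := by
  rw [norm_mul]
  have h1 : ‖(9 : ℤ_[3])‖ = 1 / 9 := by
    rw [PadicInt.norm_def]
    exact norm9
  rw [h1]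
  have := PadicInt.norm_le_one (q : ℤ_[3])
  linarith

lemma cl3_nat {D : ℕ} (hD : D % 9 = 4 ∨ D % 9 = 5) : Cl3 (D : ℤ_[3]) := by
  rcases hD with h | h
  · left
    obtain ⟨q, hq⟩ : ∃ q : ℤ, (D : ℤ) = 9 * q + 4 := ⟨(D : ℤ) / 9, by omega⟩
    have e : (D : ℤ_[3]) - 4 = 9 * (q : ℤ_[3]) := by
      have : (D : ℤ_[3]) = 9 * (q : ℤ_[3]) + 4 := by exact_mod_cast congrArg (Int.cast : ℤ → ℤ_[3]) hq
      rw [this]
      ring
    rw [e]
    exact norm9' q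
  · right
    obtain ⟨q, hq⟩ : ∃ q : ℤ, (D : ℤ) = 9 * q + 5 := ⟨(D : ℤ) / 9, by omega⟩
    have e : (D : ℤ_[3]) + 4 = 9 * ((q + 1 : ℤ) : ℤ_[3]) := by
      have : (D : ℤ_[3]) = 9 * (q : ℤ_[3]) + 5 := by exact_mod_cast congrArg (Int.cast : ℤ → ℤ_[3]) hq
      rw [this]
      push_cast
      ring
    rw [e]
    exact norm9' (q + 1)

/-- **One level for a family.** -/
theorem uniform (S : Set (MvPolynomial (Var n N) ℚ)) (hS : ∀ f ∈ S, IsHom f)
    (Z : Set (Fin n → ℤ_[3])) (hZ : IsClosed Z)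
    (H : ∀ d ∈ Z, (∀ i, Cl3 (d i)) → ∀ (t : Fin n → Fin 3) (u : Fin (N + 1) → ℚ_[3]), u ≠ 0 →
      ∃ f ∈ S, aeval (val (fun i => (d i : ℚ_[3])) u fun i => tau (d i : ℚ_[3]) (t i)) f ≠ 0) :
    ∃ k : ℕ, ∀ D : Fin n → ℕ, (∀ i, GoodQ (D i)) → (fun i => (D i : ℤ_[3])) ∈ Z →
      SelQ S D (3 ^ k) = ∅ := by
  by_contra hcon
  push Not at hcon
  have hstep : ∀ k : ℕ, ∃ (D : Fin n → ℕ) (t : Fin n → Fin 3) (w : Fin (N + 1) → ℚ_[3])
      (v : Fin n → Fin 3 → ℚ_[3]), (∀ i, Cl3 (D i : ℤ_[3])) ∧ (fun i => (D i : ℤ_[3])) ∈ Z ∧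
      (∀ j, ‖w j‖ ≤ 1) ∧ (∃ j, ‖w j‖ = 1) ∧
      (∀ i j, ‖v i j - tau (D i : ℚ_[3]) (t i) j‖ ≤ (1 / 3 : ℝ) ^ (k + 2)) ∧
      ∀ f ∈ S, aeval (val (fun i => (D i : ℚ_[3])) w v) f = 0 := by
    intro k
    obtain ⟨D, hD, hDZ, ξ, hξ⟩ := hcon (k + 1)
    obtain ⟨t, w, v, h1, h2, h3, h4⟩ := near_sel S hS D hD k ξ hξ
    exact ⟨D, t, w, v, fun i => cl3_nat (hD i).mod, hDZ, h1, h2, h3, h4⟩
  choose D t w v hDc hDZ hw1 hw2 hv hf using hstep
  choose j hj using hw2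
  have hU : (hyperfilter ℕ : Filter ℕ) ≤ atTop := by
    have hle : (hyperfilter ℕ : Filter ℕ) ≤ cofinite := hyperfilter_le_cofinite
    rwa [Nat.cofinite_eq_atTop] at hle
  -- constant indices
  have hconst : ∀ {α : Type} [Finite α] (g : ℕ → α), ∃ a, ∀ᶠ k in (hyperfilter ℕ : Filter ℕ),
      g k = a := by
    intro α _ g
    have h2 : (⋃ a ∈ (Set.univ : Set α), {k | g k = a}) ∈ (hyperfilter ℕ : Filter ℕ) := by
      refine Filter.univ_mem' fun k => Set.mem_biUnion (Set.mem_univ (g k)) rfl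
    obtain ⟨a, -, h4⟩ := (Ultrafilter.finite_biUnion_mem_iff Set.finite_univ).1 h2
    exact ⟨a, h4⟩
  obtain ⟨t₀, ht₀⟩ := hconst t
  obtain ⟨j₀, hj₀⟩ := hconst j
  -- limits
  obtain ⟨d, -, hd⟩ := isCompact_univ.ultrafilter_le_nhds
    ((hyperfilter ℕ).map fun k => (fun i => (D k i : ℤ_[3]))) (by
      rw [principal_univ]
      exact le_top)
  have hd' : Tendsto (fun k => (fun i => (D k i : ℤ_[3]))) (hyperfilter ℕ) (𝓝 d) := hd
  have hwlim : ∀ j, ∃ c : ℚ_[3], Tendsto (fun k => w k j) (hyperfilter ℕ) (𝓝 c) := by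
    intro j
    obtain ⟨c, -, hc⟩ := (isCompact_closedBall (0 : ℚ_[3]) 1).ultrafilter_le_nhds
      ((hyperfilter ℕ).map (fun k => w k j)) (by
        rw [le_principal_iff]
        refine Filter.mem_map.2 (Filter.univ_mem' fun k => ?_)
        show w k j ∈ Metric.closedBall (0 : ℚ_[3]) 1
        rw [mem_closedBall_zero_iff]
        exact hw1 k j)
    exact ⟨c, hc⟩
  choose u hu using hwlim
  have hdZ : d ∈ Z := hZ.mem_of_tendsto hd' (Filter.Eventually.of_forall hDZ)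
  have hdi : ∀ i, Tendsto (fun k => (D k i : ℤ_[3])) (hyperfilter ℕ) (𝓝 (d i)) := fun i =>
    ((continuous_apply i).tendsto d).comp hd'
  have hdc : ∀ i, Cl3 (d i) := fun i =>
    cl3_closed.mem_of_tendsto (hdi i) (Filter.Eventually.of_forall fun k => hDc k i)
  have hdq : ∀ i, Tendsto (fun k => (D k i : ℚ_[3])) (hyperfilter ℕ) (𝓝 (d i : ℚ_[3])) := by
    intro i
    have h1 : Tendsto (fun k => ((D k i : ℤ_[3]) : ℚ_[3])) (hyperfilter ℕ) (𝓝 (d i : ℚ_[3])) :=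
      (continuous_subtype_val.tendsto (d i)).comp (hdi i)
    refine h1.congr fun k => ?_
    push_cast
    rfl
  have hu0 : u ≠ 0 := by
    intro h0
    have h1 : Tendsto (fun k => ‖w k j₀‖) (hyperfilter ℕ) (𝓝 ‖u j₀‖) := (hu j₀).norm
    have h2 : Tendsto (fun k => ‖w k j₀‖) (hyperfilter ℕ) (𝓝 1) := by
      refine tendsto_const_nhds.congr' ?_
      filter_upwards [hj₀] with k hk
      rw [← hk]
      exact (hj k).symm
    have h3 := tendsto_nhds_unique h1 h2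
    rw [h0] at h3
    simp at h3
  have htau : ∀ i l, Tendsto (fun k => tau (D k i : ℚ_[3]) (t₀ i) l) (hyperfilter ℕ)
      (𝓝 (tau (d i : ℚ_[3]) (t₀ i) l)) := by
    intro i l
    have hc : Continuous fun x : ℚ_[3] => tau x (t₀ i) l := by
      unfold tau
      generalize t₀ i = a
      fin_cases a <;> fin_cases l <;> simp <;> fun_prop
    exact (hc.tendsto _).comp (hdq i)
  have hvlim : ∀ i l, Tendsto (fun k => v k i l) (hyperfilter ℕ)
      (𝓝 (tau (d i : ℚ_[3]) (t₀ i) l)) := by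
    intro i l
    have h1 : Tendsto (fun k => v k i l - tau (D k i : ℚ_[3]) (t₀ i) l) (hyperfilter ℕ) (𝓝 0) := by
      have h2 : Tendsto (fun k : ℕ => (1 / 3 : ℝ) ^ (k + 2)) (hyperfilter ℕ) (𝓝 0) := by
        have h3 : Tendsto (fun k : ℕ => (1 / 3 : ℝ) ^ (k + 2)) atTop (𝓝 0) :=
          (tendsto_pow_atTop_nhds_zero_of_lt_one (by norm_num) (by norm_num)).comp
            (tendsto_add_atTop_nat 2)
        exact h3.mono_left hU
      refine squeeze_zero_norm' ?_ h2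
      filter_upwards [ht₀] with k hk
      rw [← hk]
      exact hv k i l
    have h4 := h1.add (htau i l)
    rw [zero_add] at h4
    refine h4.congr fun k => ?_
    ring
  obtain ⟨f, hfS, hne⟩ := H d hdZ hdc t₀ u hu0
  apply hne
  have hcont : Continuous fun x : Var n N → ℚ_[3] => aeval x f := by
    have : (fun x : Var n N → ℚ_[3] => aeval x f) =
        fun x => eval x (map (algebraMap ℚ ℚ_[3]) f) := by
      funext x
      rw [aeval_def, eval_map]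
    rw [this]
    exact MvPolynomial.continuous_eval _
  have hlim : Tendsto (fun k => val (fun i => (D k i : ℚ_[3])) (w k) (v k)) (hyperfilter ℕ)
      (𝓝 (val (fun i => (d i : ℚ_[3])) u fun i => tau (d i : ℚ_[3]) (t₀ i))) := by
    rw [tendsto_pi_nhds]
    rintro (i | j | ⟨i, l⟩)
    · exact hdq i
    · exact hu j
    · exact hvlim i l
  have h5 := (hcont.tendsto _).comp hlim
  have h6 : ((fun x : Var n N → ℚ_[3] => aeval x f) ∘ fun k =>
      val (fun i => (D k i : ℚ_[3])) (w k) (v k)) = fun _ => (0 : ℚ_[3]) := by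
    funext k
    exact hf k f hfS
  rw [h6] at h5
  exact tendsto_nhds_unique h5 tendsto_const_nhds

end

end Pool.Agent.R419.ST
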