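import Pool.Agent.R419.ST.FamB

/-!
# The components at three, closed subvarieties, and an example
-/

set_option autoImplicit false
set_option linter.all false

open WeierstrassCurve MvPolynomial Filter Topology

namespace Pool.Agent.R419.ST

open Pool.Agent.TH954

open scoped Classical

/-! ### Points -/

section

variable {L : Type} [Field L] [CharZero L]

lemma ns_WE {d x y : L} (hd : d ≠ 0) (h : y ^ 2 + d * y = x ^ 3) :
    (WE d).toAffine.Nonsingular x y := by
  rw [Affine.nonsingular_iff, Affine.equation_iff]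
  simp only [WE]
  refine ⟨by linear_combination h, ?_⟩
  by_cases hx : x = 0
  · right
    intro h1
    have h2 : y * (y + d) = 0 := by
      rw [hx] at h
      linear_combination h
    rcases mul_eq_zero.1 h2 with h3 | h3
    · apply hd
      rw [h3] at h1
      linear_combination h1
    · apply hd
      linear_combination 2 * h3 - h1
  · left
    intro h1
    have h2 : 3 * x ^ 2 = 0 := by linear_combination -h1
    exact (mul_ne_zero three_ne_zero (pow_ne_zero 2 hx)) h2

lemma pt_V {V : WeierstrassCurve L} {d : L} (hV : V = WE d) {x y : L} (hd : d ≠ 0)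
    (h : y ^ 2 + d * y = x ^ 3) : ∃ P : V.toAffine.Point, crd P = ![x, y, 1] := by
  subst hV
  exact ⟨Affine.Point.some x y (ns_WE hd h), rfl⟩

lemma pt_O (V : WeierstrassCurve L) : ∃ P : V.toAffine.Point, crd P = ![0, 1, 0] :=
  ⟨Affine.Point.zero, rfl⟩

/-- the three points -/
lemma pt_tau {V : WeierstrassCurve L} {d : L} (hV : V = WE d) (hd : d ≠ 0) (t : Fin 3) :
    ∃ P : V.toAffine.Point, crd P = tau d t := by
  fin_cases t
  · exact pt_O V
  · exact pt_V hV hd (by ring)
  · exact pt_V hV hd (by ring)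

/-- points whose coordinates are proportional to those of one of the three points -/
lemma crd_prop {V : WeierstrassCurve L} (P : V.toAffine.Point) {d : L} {t : Fin 3}
    (h : ∀ j l, crd P j * tau d t l = crd P l * tau d t j) : crd P = tau d t := by
  match P with
  | .zero =>
    have e : crd (Affine.Point.zero : V.toAffine.Point) = ![0, 1, 0] := rfl
    rw [e] at h ⊢
    fin_cases t
    · rfl
    · exfalso
      have := h 1 2
      simp [tau] at this
    · exfalso
      have := h 1 2
      simp [tau] at this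
  | .some x y n =>
    have e : crd (Affine.Point.some x y n : V.toAffine.Point) = ![x, y, 1] := rfl
    rw [e] at h ⊢
    fin_cases t
    · exfalso
      have := h 2 1
      simp [tau] at this
    · have h1 := h 0 2
      have h2 := h 1 2
      simp [tau] at h1 h2
      simp [tau, h1, h2]
    · have h1 := h 0 2
      have h2 := h 1 2
      simp [tau] at h1 h2
      simp [tau, h1, h2]

end

section

variable {n N : ℕ}

lemma good_ne {D : ℕ} (h : GoodQ D) (L : Type) [Field L] [CharZero L] : (D : L) ≠ 0 := by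
  have h1 : D ≠ 0 := by
    rintro rfl
    rcases h.mod with h | h <;> simp at h
  exact_mod_cast h1

/-- **The component at three** of a point which survives all the descents is rational. -/
theorem comp_tau (S : Set (MvPolynomial (Var n N) ℚ)) (D : Fin n → ℕ) (hD : ∀ i, GoodQ (D i))
    (P : (i : Fin n) → ((EN (D i)).baseChange ℚ_[3]).toAffine.Point)
    (h : ∀ k : ℕ, ∃ ξ ∈ SelQ S D (3 ^ k), CovAt (fun i => EN (D i)) (3 ^ k) ξ ℚ_[3] P) (i : Fin n) :
    ∃ t : Fin 3, crd (P i) = tau (D i : ℚ_[3]) t := by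
  have hfin : Finite ((EN (D i)).baseChange ℚ).toAffine.Point := by
    have e : (EN (D i)).baseChange ℚ = EN (D i) := by
      show (EN (D i)).map (algebraMap ℚ ℚ) = _
      simp [EN, WeierstrassCurve.map]
    rw [e]
    exact (hD i).fin
  have hstep : ∀ k : ℕ, ∃ (t : Fin 3) (s : ℚ_[3]) (v : Fin 3 → ℚ_[3]), s ≠ 0 ∧
      (∀ j, crd (P i) j = s * v j) ∧
      ∀ j, ‖v j - tau (D i : ℚ_[3]) t j‖ ≤ (1 / 3 : ℝ) ^ (k + 2) := by
    intro k
    obtain ⟨ξ, ⟨h1, h2, h3, h4⟩, ι, Q, hPQ, hQ⟩ := h (k + 1)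
    obtain ⟨R, y, hy, hR⟩ := coc_threeQ (k + 1) ((hD i).sha (k + 1)) (ξ i) (h1 i) (h2 i)
      (fun p _ => by
        obtain ⟨u, P, -, ι, Q, -, h⟩ := h3 p
        exact ⟨ι, Q i, fun σ τ hστ => h i σ τ hστ⟩) (by
        obtain ⟨u, P, -, ι, Q, -, h⟩ := h4
        exact ⟨ι, Q i, fun σ τ hστ => h i σ τ hστ⟩)
    obtain ⟨z, hz⟩ := shift hy hR ι (hPQ i) fun σ τ hστ => hQ i σ τ hστ
    obtain ⟨c1, c2, c3⟩ := d_cond (hD i).mod
    obtain ⟨m, hm, hm0⟩ := fin_image hfin (L := ℚ_[3]) y
    exact near_V (base_EN ℚ_[3] (D i)) c1 c2 c3 hm hm0 k hz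
  choose t s v hs hv hvt using hstep
  have hU : (hyperfilter ℕ : Filter ℕ) ≤ atTop := by
    have hle : (hyperfilter ℕ : Filter ℕ) ≤ cofinite := hyperfilter_le_cofinite
    rwa [Nat.cofinite_eq_atTop] at hle
  obtain ⟨t₀, ht₀⟩ : ∃ t₀, ∀ᶠ k in (hyperfilter ℕ : Filter ℕ), t k = t₀ := by
    have h2 : (⋃ a ∈ (Set.univ : Set (Fin 3)), {k | t k = a}) ∈ (hyperfilter ℕ : Filter ℕ) := by
      refine Filter.univ_mem' fun k => Set.mem_biUnion (Set.mem_univ (t k)) rfl
    obtain ⟨a, -, h4⟩ := (Ultrafilter.finite_biUnion_mem_iff Set.finite_univ).1 h2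
    exact ⟨a, h4⟩
  have hvlim : ∀ l, Tendsto (fun k => v k l) (hyperfilter ℕ) (𝓝 (tau (D i : ℚ_[3]) t₀ l)) := by
    intro l
    have h1 : Tendsto (fun k => v k l - tau (D i : ℚ_[3]) t₀ l) (hyperfilter ℕ) (𝓝 0) := by
      have h2 : Tendsto (fun k : ℕ => (1 / 3 : ℝ) ^ (k + 2)) (hyperfilter ℕ) (𝓝 0) := by
        have h3 : Tendsto (fun k : ℕ => (1 / 3 : ℝ) ^ (k + 2)) atTop (𝓝 0) :=
          (tendsto_pow_atTop_nhds_zero_of_lt_one (by norm_num) (by norm_num)).comp
            (tendsto_add_atTop_nat 2)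
        exact h3.mono_left hU
      refine squeeze_zero_norm' ?_ h2
      filter_upwards [ht₀] with k hk
      rw [← hk]
      exact hvt k l
    have h4 := h1.add (tendsto_const_nhds (x := tau (D i : ℚ_[3]) t₀ l))
    rw [zero_add] at h4
    refine h4.congr fun k => ?_
    ring
  refine ⟨t₀, crd_prop (P i) fun j l => ?_⟩
  have l1 := (tendsto_const_nhds (x := crd (P i) j) (f := (hyperfilter ℕ : Filter ℕ))).mul (hvlim l)
  have l2 := (tendsto_const_nhds (x := crd (P i) l) (f := (hyperfilter ℕ : Filter ℕ))).mul (hvlim j)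
  refine tendsto_nhds_unique l1 (l2.congr fun k => ?_)
  rw [hv k j, hv k l]
  ring

/-- **Closed subvarieties of the product.** -/
theorem closed_case (S : Set (MvPolynomial (Var n 0) ℚ)) (hS : ∀ f ∈ S, IsHom f) (D : Fin n → ℕ)
    (hD : ∀ i, GoodQ (D i))
    (hX : ¬ ∃ (u : Fin 1 → ℚ) (y : (i : Fin n) → (EN (D i)).toAffine.Point), u ≠ 0 ∧
      ∀ f ∈ S, aeval (val (fun i => (D i : ℚ)) u fun i => crd (y i)) f = 0) :
    ∃ k : ℕ, SelQ S D (3 ^ k) = ∅ := by
  obtain ⟨k, hk⟩ := uniform S hS {fun i => (D i : ℤ_[3])} isClosed_singleton (by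
    intro d hd hc t u hu
    rw [Set.mem_singleton_iff] at hd
    by_contra hcon
    push Not at hcon
    apply hX
    choose y hy using fun i => pt_tau (V := EN (D i)) (d := (D i : ℚ)) rfl (good_ne (hD i) ℚ) (t i)
    refine ⟨fun _ => 1, y, fun h => ?_, fun f hf => ?_⟩
    · have := congrFun h 0
      simp at this
    · have h1 := hcon f hf
      have hsub : ∀ j : Fin (0 + 1), j = 0 := fun j => Fin.ext (by omega)
      have hu0 : u 0 ≠ 0 := by
        intro h0
        apply hu
        funext j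
        rw [hsub j]
        exact h0
      have e1 : u = fun j => u 0 * 1 := by
        funext j
        rw [mul_one, hsub j]
      have e2 : (fun i => tau (d i : ℚ_[3]) (t i)) =
          fun i j => (1 : ℚ_[3]) * tau (d i : ℚ_[3]) (t i) j := by
        funext i j
        rw [one_mul]
      rw [e1, e2] at h1
      have h2 := (hom_smul (hS f hf) (fun i => (d i : ℚ_[3])) (fun _ => 1)
        (fun i => tau (d i : ℚ_[3]) (t i)) (a := u 0) (s := fun _ => 1) hu0
        (fun _ => one_ne_zero)).1 h1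
      have h3 : aeval (val (fun i => (d i : ℚ_[3])) (fun _ => 1)
          fun i => tau (d i : ℚ_[3]) (t i)) f =
          algebraMap ℚ ℚ_[3] (aeval (val (fun i => (D i : ℚ)) (fun _ => 1) fun i => crd (y i)) f) := by
        rw [← aeval_algebraMap_apply]
        congr 2
        funext x
        rcases x with i | j | ⟨i, l⟩
        · show (d i : ℚ_[3]) = algebraMap ℚ ℚ_[3] (D i : ℚ)
          rw [hd]
          simp
        · show (1 : ℚ_[3]) = algebraMap ℚ ℚ_[3] 1
          simp
        · show tau (d i : ℚ_[3]) (t i) l = algebraMap ℚ ℚ_[3] (crd (y i) l)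
          rw [hy i, hd]
          generalize t i = a
          fin_cases a <;> fin_cases l <;> simp [tau]
      rw [h3, map_eq_zero] at h2
      exact h2)
  exact ⟨k, hk D hD rfl⟩

end

end Pool.Agent.R419.ST
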