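import Pool.Agent.R419.ST.FamC

/-!
# The curves `y² + D y = x³`, `w² = -3 x² + 28 D y + 21 D²`
-/

set_option autoImplicit false
set_option linter.all false

open WeierstrassCurve MvPolynomial Filter Topology

namespace Pool.Agent.R419.ST

open Pool.Agent.TH954

open scoped Classical

/-! ### Homogeneity -/

section

variable {n N : ℕ}

/-- homogeneity with given degrees -/
def HomD (e₀ : ℕ) (e : Fin n → ℕ) (f : MvPolynomial (Var n N) ℚ) : Prop :=
  ∀ m ∈ f.support, ∑ j, m (Sum.inr (Sum.inl j)) = e₀ ∧ ∀ i, ∑ j, m (Sum.inr (Sum.inr (i, j))) = e i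

variable {e₀ e₁ : ℕ} {e e' : Fin n → ℕ} {f g : MvPolynomial (Var n N) ℚ}

lemma HomD.isHom (h : HomD e₀ e f) : IsHom f := ⟨e₀, e, h⟩

lemma HomD.add (hf : HomD e₀ e f) (hg : HomD e₀ e g) : HomD e₀ e (f + g) := by
  intro m hm
  rcases Finset.mem_union.1 (support_add hm) with h | h
  · exact hf m h
  · exact hg m h

lemma HomD.neg (hf : HomD e₀ e f) : HomD e₀ e (-f) := by
  intro m hm
  rw [support_neg] at hm
  exact hf m hm

lemma HomD.sub (hf : HomD e₀ e f) (hg : HomD e₀ e g) : HomD e₀ e (f - g) := by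
  rw [sub_eq_add_neg]
  exact hf.add hg.neg

lemma HomD.mul (hf : HomD e₀ e f) (hg : HomD e₁ e' g) :
    HomD (e₀ + e₁) (fun i => e i + e' i) (f * g) := by
  intro m hm
  obtain ⟨m1, h1, m2, h2, rfl⟩ := Finset.mem_add.1 (support_mul f g hm)
  obtain ⟨a1, b1⟩ := hf m1 h1
  obtain ⟨a2, b2⟩ := hg m2 h2
  refine ⟨?_, fun i => ?_⟩
  · simp only [Finsupp.add_apply, Finset.sum_add_distrib, a1, a2]
  · simp only [Finsupp.add_apply, Finset.sum_add_distrib, b1, b2]

lemma homD_C (a : ℚ) : HomD (n := n) (N := N) 0 (fun _ => 0) (C a) := by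
  intro m hm
  rw [mem_support_iff, coeff_C] at hm
  have : m = 0 := by
    by_contra h
    exact hm (if_neg (Ne.symm h))
  subst this
  simp

lemma homD_par (i : Fin n) : HomD (n := n) (N := N) 0 (fun _ => 0) (X (Sum.inl i)) := by
  intro m hm
  rw [support_X, Finset.mem_singleton] at hm
  subst hm
  simp

lemma homD_u (j : Fin (N + 1)) : HomD (n := n) (N := N) 1 (fun _ => 0) (X (Sum.inr (Sum.inl j))) := by
  intro m hm
  rw [support_X, Finset.mem_singleton] at hm
  subst hm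
  refine ⟨?_, fun i => ?_⟩
  · rw [Finset.sum_eq_single j]
    · simp
    · intro b _ hb
      rw [Finsupp.single_apply, if_neg]
      intro h
      exact hb (Sum.inl_injective (Sum.inr_injective h)).symm
    · intro h
      exact absurd (Finset.mem_univ j) h
  · simp

lemma homD_v (i : Fin n) (j : Fin 3) :
    HomD (n := n) (N := N) 0 (fun i' => if i' = i then 1 else 0) (X (Sum.inr (Sum.inr (i, j)))) := by
  intro m hm
  rw [support_X, Finset.mem_singleton] at hm
  subst hm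
  refine ⟨by simp, fun i' => ?_⟩
  show _ = if i' = i then 1 else 0
  by_cases h : i' = i
  · subst h
    rw [if_pos rfl, Finset.sum_eq_single j]
    · simp
    · intro b _ hb
      rw [Finsupp.single_apply, if_neg]
      intro h
      have := Sum.inr_injective (Sum.inr_injective h)
      rw [Prod.mk.injEq] at this
      exact hb this.2.symm
    · intro h
      exact absurd (Finset.mem_univ j) h
  · rw [if_neg h]
    refine Finset.sum_eq_zero fun b _ => ?_
    rw [Finsupp.single_apply, if_neg]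
    intro h'
    have := Sum.inr_injective (Sum.inr_injective h')
    rw [Prod.mk.injEq] at this
    exact h this.1.symm

lemma HomD.cast (hf : HomD e₀ e f) (h0 : e₀ = e₁) (h : e = e') : HomD e₁ e' f := by
  subst h0
  subst h
  exact hf

end

/-! ### The equations -/

/-- the parameter -/
noncomputable def pD : MvPolynomial (Var 1 2) ℚ := X (Sum.inl 0)

/-- the coordinates on `ℙ²` -/
noncomputable def pU (j : Fin 3) : MvPolynomial (Var 1 2) ℚ := X (Sum.inr (Sum.inl j))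

/-- the coordinates of the point on `E_D` -/
noncomputable def pV (j : Fin 3) : MvPolynomial (Var 1 2) ℚ := X (Sum.inr (Sum.inr (0, j)))

noncomputable def f1 : MvPolynomial (Var 1 2) ℚ := pU 1 * pV 2 - pU 2 * pV 0

noncomputable def f2 : MvPolynomial (Var 1 2) ℚ :=
  (pU 0 * pU 0 + C 3 * (pU 1 * pU 1)) * pV 2 - C 28 * pD * (pU 2 * pU 2) * pV 1 -
    C 21 * (pD * pD) * (pU 2 * pU 2) * pV 2

noncomputable def f3 : MvPolynomial (Var 1 2) ℚ :=
  (pU 0 * pU 0 + C 3 * (pU 1 * pU 1)) * (pV 1 + pD * pV 2) - C 28 * pD * (pU 1 * pU 1) * pV 0 -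
    C 21 * (pD * pD) * (pU 2 * pU 2) * (pV 1 + pD * pV 2)

/-- the equations of the family -/
noncomputable def exS : Set (MvPolynomial (Var 1 2) ℚ) := {f1, f2, f3}

lemma hom_ex : ∀ f ∈ exS, IsHom f := by
  have hv : ∀ j, HomD (n := 1) (N := 2) 0 (fun _ => 1) (pV j) := fun j =>
    (homD_v 0 j).cast rfl (by funext i; rw [if_pos (Subsingleton.elim _ _)])
  have hu : ∀ j, HomD (n := 1) (N := 2) 1 (fun _ => 0) (pU j) := fun j => homD_u j
  have hd : HomD (n := 1) (N := 2) 0 (fun _ => 0) pD := homD_par 0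
  have huu : ∀ i j, HomD (n := 1) (N := 2) 2 (fun _ => 0) (pU i * pU j) := fun i j =>
    ((hu i).mul (hu j)).cast rfl rfl
  have hl : HomD (n := 1) (N := 2) 0 (fun _ => 1) (pV 1 + pD * pV 2) :=
    (hv 1).add ((hd.mul (hv 2)).cast rfl rfl)
  rintro f (rfl | rfl | rfl)
  · exact HomD.isHom (e₀ := 1) (e := fun _ => 1)
      ((((hu 1).mul (hv 2)).cast rfl rfl).sub (((hu 2).mul (hv 0)).cast rfl rfl))
  · refine HomD.isHom (e₀ := 2) (e := fun _ => 1) ((HomD.sub ?_ ?_).sub ?_)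
    · exact (((huu 0 0).add (((homD_C 3).mul (huu 1 1)).cast rfl rfl)).mul (hv 2)).cast rfl rfl
    · exact ((((homD_C 28).mul hd).mul (huu 2 2)).mul (hv 1)).cast rfl rfl
    · exact ((((homD_C 21).mul (hd.mul hd)).mul (huu 2 2)).mul (hv 2)).cast rfl rfl
  · refine HomD.isHom (e₀ := 2) (e := fun _ => 1) ((HomD.sub ?_ ?_).sub ?_)
    · exact (((huu 0 0).add (((homD_C 3).mul (huu 1 1)).cast rfl rfl)).mul hl).cast rfl rfl
    · exact ((((homD_C 28).mul hd).mul (huu 1 1)).mul (hv 0)).cast rfl rfl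
    · exact ((((homD_C 21).mul (hd.mul hd)).mul (huu 2 2)).mul hl).cast rfl rfl

section

variable {L : Type} [Field L] [Algebra ℚ L]

lemma ev1 (d : Fin 1 → L) (u : Fin 3 → L) (v : Fin 1 → Fin 3 → L) :
    aeval (val d u v) f1 = u 1 * v 0 2 - u 2 * v 0 0 := by
  simp [f1, pU, pV, val]

lemma ev2 (d : Fin 1 → L) (u : Fin 3 → L) (v : Fin 1 → Fin 3 → L) :
    aeval (val d u v) f2 = (u 0 * u 0 + 3 * (u 1 * u 1)) * v 0 2 -
      28 * d 0 * (u 2 * u 2) * v 0 1 - 21 * (d 0 * d 0) * (u 2 * u 2) * v 0 2 := by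
  simp [f2, pU, pV, pD, val, map_ofNat]

lemma ev3 (d : Fin 1 → L) (u : Fin 3 → L) (v : Fin 1 → Fin 3 → L) :
    aeval (val d u v) f3 = (u 0 * u 0 + 3 * (u 1 * u 1)) * (v 0 1 + d 0 * v 0 2) -
      28 * d 0 * (u 1 * u 1) * v 0 0 - 21 * (d 0 * d 0) * (u 2 * u 2) * (v 0 1 + d 0 * v 0 2) := by
  simp [f3, pU, pV, pD, val, map_ofNat]

lemma onF_ex [CharZero L] {D : ℕ} {u : Fin 3 → L} {P : ((EN D).baseChange L).toAffine.Point}
    {v : Fin 3 → L} (hP : crd P = v) (hu : u ≠ 0) (h1 : u 1 * v 2 - u 2 * v 0 = 0)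
    (h2 : (u 0 * u 0 + 3 * (u 1 * u 1)) * v 2 -
      28 * (D : L) * (u 2 * u 2) * v 1 - 21 * ((D : L) * (D : L)) * (u 2 * u 2) * v 2 = 0)
    (h3 : (u 0 * u 0 + 3 * (u 1 * u 1)) * (v 1 + (D : L) * v 2) -
      28 * (D : L) * (u 1 * u 1) * v 0 -
      21 * ((D : L) * (D : L)) * (u 2 * u 2) * (v 1 + (D : L) * v 2) = 0) :
    ∃ (u : Fin 3 → L) (P : (i : Fin 1) → ((EN D).baseChange L).toAffine.Point),
      OnF exS (fun _ => D) L u P := by
  refine ⟨u, fun _ => P, hu, ?_⟩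
  rintro f (rfl | rfl | rfl)
  · rw [ev1]
    simp only [hP]
    exact h1
  · rw [ev2]
    simp only [hP]
    exact h2
  · rw [ev3]
    simp only [hP]
    exact h3

/-- points with `x = 0` or `x = ∞` -/
lemma ex_pt [CharZero L] {D : ℕ} (hD : D ≠ 0)
    (h : (∃ r : L, r ^ 2 = 21) ∨ (∃ r : L, r ^ 2 = -7) ∨ ∃ r : L, r ^ 2 = -3) :
    ∃ (u : Fin 3 → L) (P : (i : Fin 1) → ((EN D).baseChange L).toAffine.Point),
      OnF exS (fun _ => D) L u P := by
  have hD0 : (D : L) ≠ 0 := by exact_mod_cast hD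
  have hne : ∀ a b : L, (![a, b, 1] : Fin 3 → L) ≠ 0 := by
    intro a b h
    have := congrFun h 2
    simp at this
  rcases h with ⟨r, hr⟩ | ⟨r, hr⟩ | ⟨r, hr⟩
  · obtain ⟨P, hP⟩ := pt_tau (base_EN L D) hD0 1
    refine onF_ex (u := ![r * D, 0, 1]) hP (hne _ _) ?_ ?_ ?_
    · simp [tau]
    · simp [tau]
      linear_combination (D : L) ^ 2 * hr
    · simp [tau]
      linear_combination (D : L) ^ 3 * hr
  · obtain ⟨P, hP⟩ := pt_tau (base_EN L D) hD0 2
    refine onF_ex (u := ![r * D, 0, 1]) hP (hne _ _) ?_ ?_ ?_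
    · simp [tau]
    · simp [tau]
      linear_combination (D : L) ^ 2 * hr
    · simp [tau]
  · obtain ⟨P, hP⟩ := pt_tau (base_EN L D) hD0 0
    refine onF_ex (u := ![r, 1, 0]) hP ?_ ?_ ?_ ?_
    · intro h
      have := congrFun h 1
      simp at this
    · simp [tau]
    · simp [tau]
    · simp [tau]
      linear_combination hr

end

end Pool.Agent.R419.ST
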