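import Pool.Agent.R419.ST.FamD

/-!
# The curves `y² + D y = x³`, `w² = -3 x² + 28 D y + 21 D²`: local points
-/

set_option autoImplicit false
set_option linter.all false

open WeierstrassCurve MvPolynomial Filter Topology

namespace Pool.Agent.R419.ST

open Pool.Agent.TH954

open scoped Classical

section

variable {p : ℕ} [hp : Fact p.Prime]

lemma pnorm_one {z : ℤ} (hz : ¬ (p : ℤ) ∣ z) : ‖(z : ℤ_[p])‖ = 1 := by
  have h1 : ¬ ‖(z : ℤ_[p])‖ < 1 := by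
    rw [PadicInt.norm_def]
    push_cast
    rw [Padic.norm_intCast_lt_one_iff]
    exact hz
  exact le_antisymm (PadicInt.norm_le_one _) (not_lt.1 h1)

lemma pnorm_lt {z : ℤ} (hz : (p : ℤ) ∣ z) : ‖(z : ℤ_[p])‖ < 1 := by
  rw [PadicInt.norm_def]
  push_cast
  rw [Padic.norm_intCast_lt_one_iff]
  exact hz

/-- Hensel's lemma for squares -/
lemma hensel_sq (z : ℤ) (a : ℤ) (h : ‖((a ^ 2 - z : ℤ) : ℤ_[p])‖ < ‖((2 * a : ℤ) : ℤ_[p])‖ ^ 2) :
    ∃ r : ℚ_[p], r ^ 2 = (z : ℚ_[p]) := by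
  let F : Polynomial ℤ_[p] := Polynomial.X ^ 2 - Polynomial.C (z : ℤ_[p])
  have h1 : F.aeval (a : ℤ_[p]) = ((a ^ 2 - z : ℤ) : ℤ_[p]) := by
    simp [F]
  have h2 : F.derivative.aeval (a : ℤ_[p]) = ((2 * a : ℤ) : ℤ_[p]) := by
    simp [F, one_add_one_eq_two]
  obtain ⟨r, hr, -⟩ := hensels_lemma (p := p) (R := ℤ_[p]) (F := F) (a := (a : ℤ_[p])) (by
    rw [h1, h2]
    exact h)
  have h8 : r ^ 2 = (z : ℤ_[p]) := by
    have : F.aeval r = r ^ 2 - (z : ℤ_[p]) := by simp [F]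
    rw [this] at hr
    exact sub_eq_zero.1 hr
  refine ⟨(r : ℚ_[p]), ?_⟩
  have h9 := congrArg (fun w : ℤ_[p] => (w : ℚ_[p])) h8
  simpa using h9

lemma sq_of_res (h2 : p ≠ 2) {z : ℤ} (hz : ¬ (p : ℤ) ∣ z) (h : IsSquare ((z : ℤ) : ZMod p)) :
    ∃ r : ℚ_[p], r ^ 2 = (z : ℚ_[p]) := by
  obtain ⟨b, hb⟩ := h
  have hb' : (((b.val : ℤ)) : ZMod p) = b := by
    push_cast
    exact ZMod.natCast_zmod_val b
  have hdvd : (p : ℤ) ∣ (b.val : ℤ) ^ 2 - z := by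
    rw [← ZMod.intCast_zmod_eq_zero_iff_dvd]
    rw [Int.cast_sub, Int.cast_pow, hb', hb]
    ring
  have hna : ¬ (p : ℤ) ∣ 2 * (b.val : ℤ) := by
    intro hd
    have hpi : Prime (p : ℤ) := Nat.prime_iff_prime_int.1 hp.out
    rcases hpi.dvd_or_dvd hd with h | h
    · have h5 : p ∣ 2 := by exact_mod_cast h
      exact h2 ((Nat.prime_dvd_prime_iff_eq hp.out Nat.prime_two).1 h5)
    · apply hz
      have h6 : (p : ℤ) ∣ (b.val : ℤ) ^ 2 := dvd_pow h (by norm_num)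
      have := dvd_sub h6 hdvd
      rwa [sub_sub_cancel] at this
  refine hensel_sq z (b.val : ℤ) ?_
  rw [pnorm_one hna, one_pow]
  exact pnorm_lt hdvd

/-- for every prime `p ≠ 3` one of `-7`, `-3`, `21` is a square in `ℚ_p` -/
theorem three_sq (h3 : p ≠ 3) :
    (∃ r : ℚ_[p], r ^ 2 = 21) ∨ (∃ r : ℚ_[p], r ^ 2 = -7) ∨ ∃ r : ℚ_[p], r ^ 2 = -3 := by
  by_cases h2 : p = 2
  · right; left
    subst h2
    obtain ⟨r, hr⟩ := hensel_sq (p := 2) (-7) 1 (by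
      have e1 : ((1 ^ 2 - -7 : ℤ) : ℤ_[2]) = ((2 : ℕ) : ℤ_[2]) ^ 3 := by norm_num
      have e2 : ((2 * 1 : ℤ) : ℤ_[2]) = ((2 : ℕ) : ℤ_[2]) := by norm_num
      rw [e1, e2, norm_pow, PadicInt.norm_p]
      norm_num)
    exact ⟨r, by rw [hr]; norm_num⟩
  by_cases h7 : p = 7
  · right; right
    subst h7
    obtain ⟨r, hr⟩ := hensel_sq (p := 7) (-3) 2 (by
      rw [pnorm_one (p := 7) (z := 2 * 2) (by norm_num), one_pow]
      exact pnorm_lt (by norm_num))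
    exact ⟨r, by rw [hr]; norm_num⟩
  have hpi : Prime (p : ℤ) := Nat.prime_iff_prime_int.1 hp.out
  have n3 : ¬ (p : ℤ) ∣ 3 := by
    intro h
    have h5 : p ∣ 3 := by exact_mod_cast h
    exact h3 ((Nat.prime_dvd_prime_iff_eq hp.out Nat.prime_three).1 h5)
  have n7 : ¬ (p : ℤ) ∣ 7 := by
    intro h
    have h5 : p ∣ 7 := by exact_mod_cast h
    exact h7 ((Nat.prime_dvd_prime_iff_eq hp.out (by norm_num)).1 h5)
  have m3 : ¬ (p : ℤ) ∣ (-3 : ℤ) := by rwa [dvd_neg]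
  have m7 : ¬ (p : ℤ) ∣ (-7 : ℤ) := by rwa [dvd_neg]
  have m21 : ¬ (p : ℤ) ∣ (21 : ℤ) := by
    intro h
    have : (21 : ℤ) = 3 * 7 := by norm_num
    rw [this] at h
    rcases hpi.dvd_or_dvd h with h | h
    · exact n3 h
    · exact n7 h
  have z3 : (((-3 : ℤ)) : ZMod p) ≠ 0 := fun h => m3 ((ZMod.intCast_zmod_eq_zero_iff_dvd _ p).1 h)
  have z7 : (((-7 : ℤ)) : ZMod p) ≠ 0 := fun h => m7 ((ZMod.intCast_zmod_eq_zero_iff_dvd _ p).1 h)
  have z21 : (((21 : ℤ)) : ZMod p) ≠ 0 := fun h => m21 ((ZMod.intCast_zmod_eq_zero_iff_dvd _ p).1 h)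
  rcases legendreSym.eq_one_or_neg_one p z3 with l3 | l3
  · right; right
    obtain ⟨r, hr⟩ := sq_of_res h2 m3 ((legendreSym.eq_one_iff p z3).1 l3)
    exact ⟨r, by rw [hr]; norm_num⟩
  rcases legendreSym.eq_one_or_neg_one p z7 with l7 | l7
  · right; left
    obtain ⟨r, hr⟩ := sq_of_res h2 m7 ((legendreSym.eq_one_iff p z7).1 l7)
    exact ⟨r, by rw [hr]; norm_num⟩
  · left
    have l21 : legendreSym p 21 = 1 := by
      have : (21 : ℤ) = -3 * -7 := by norm_num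
      rw [this, legendreSym.mul, l3, l7]
      norm_num
    obtain ⟨r, hr⟩ := sq_of_res h2 m21 ((legendreSym.eq_one_iff p z21).1 l21)
    exact ⟨r, by rw [hr]; norm_num⟩

end

/-! ### The prime three -/

lemma n7 : ‖(7 : ℚ_[3])‖ = 1 := by
  have h1 : ¬ ‖((7 : ℤ) : ℚ_[3])‖ < 1 := by
    rw [Padic.norm_intCast_lt_one_iff]
    norm_num
  exact_mod_cast le_antisymm (Padic.norm_int_le_one 7) (not_lt.1 h1)

lemma no_root {a : ℚ_[3]} (ha : ‖a‖ = 1 / 3) (r : ℚ_[3]) : r ^ 2 ≠ a := by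
  intro h
  have h1 : ‖r‖ ^ 2 = 1 / 3 := by rw [← norm_pow, h, ha]
  have h2 : ‖r‖ < 1 := by
    by_contra hc
    have := one_le_pow₀ (not_lt.1 hc) (n := 2)
    linarith
  have h3 := q3.disc r h2
  rw [norm3] at h3
  have h4 := pow_le_pow_left₀ (norm_nonneg _) h3 2
  linarith

lemma nosq (r : ℚ_[3]) : r ^ 2 ≠ 21 ∧ r ^ 2 ≠ -7 ∧ r ^ 2 ≠ -3 := by
  refine ⟨no_root ?_ r, fun h => ?_, no_root ?_ r⟩
  · have : (21 : ℚ_[3]) = 3 * 7 := by norm_num
    rw [this, norm_mul, norm3, n7, mul_one]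
  · have h1 : ‖r‖ ^ 2 = 1 := by rw [← norm_pow, h, norm_neg, n7]
    have h2 : ‖r‖ = 1 := (pow_eq_one_iff_of_nonneg (norm_nonneg _) (by norm_num)).1 h1
    have h3 := res_sq q3.res h2
    rw [h] at h3
    have : (-7 : ℚ_[3]) - 1 = -8 := by norm_num
    rw [this, norm_neg, q3.th.eight] at h3
    exact lt_irrefl _ h3
  · rw [norm_neg, norm3]

lemma H_alg {D : ℚ_[3]} (hD : D ≠ 0) (a : Fin 3) (u : Fin 3 → ℚ_[3])
    (h1 : u 1 * tau D a 2 - u 2 * tau D a 0 = 0)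
    (h2 : (u 0 * u 0 + 3 * (u 1 * u 1)) * tau D a 2 - 28 * D * (u 2 * u 2) * tau D a 1 -
      21 * (D * D) * (u 2 * u 2) * tau D a 2 = 0)
    (h3 : (u 0 * u 0 + 3 * (u 1 * u 1)) * (tau D a 1 + D * tau D a 2) -
      28 * D * (u 1 * u 1) * tau D a 0 -
      21 * (D * D) * (u 2 * u 2) * (tau D a 1 + D * tau D a 2) = 0) : u = 0 := by
  have hext : u 0 = 0 → u 1 = 0 → u 2 = 0 → u = 0 := by
    intro h0 h1 h2
    funext j
    fin_cases j
    · exact h0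
    · exact h1
    · exact h2
  have h28 : (28 : ℚ_[3]) ≠ 0 := by
    have : ((28 : ℕ) : ℚ_[3]) ≠ 0 := by exact_mod_cast (by norm_num : (28 : ℕ) ≠ 0)
    exact_mod_cast this
  match a with
  | 0 =>
    change u 1 * 0 - u 2 * 0 = 0 at h1
    change (u 0 * u 0 + 3 * (u 1 * u 1)) * 0 - 28 * D * (u 2 * u 2) * 1 -
      21 * (D * D) * (u 2 * u 2) * 0 = 0 at h2
    change (u 0 * u 0 + 3 * (u 1 * u 1)) * (1 + D * 0) - 28 * D * (u 1 * u 1) * 0 -
      21 * (D * D) * (u 2 * u 2) * (1 + D * 0) = 0 at h3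
    have hu2 : u 2 = 0 := by
      have h5 : 28 * D * (u 2 * u 2) = 0 := by linear_combination -h2
      rcases mul_eq_zero.1 h5 with h | h
      · exact absurd h (mul_ne_zero h28 hD)
      · exact mul_self_eq_zero.1 h
    rw [hu2] at h3
    have h4 : u 0 ^ 2 = -3 * u 1 ^ 2 := by linear_combination h3
    by_cases hu1 : u 1 = 0
    · rw [hu1] at h4
      have : u 0 = 0 := by
        have h5 : u 0 ^ 2 = 0 := by rw [h4]; ring
        exact pow_eq_zero_iff (two_ne_zero) |>.1 h5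
      exact hext this hu1 hu2
    · refine ((nosq (u 0 / u 1)).2.2 ?_).elim
      rw [div_pow, h4]
      field_simp
  | 1 =>
    change u 1 * 1 - u 2 * 0 = 0 at h1
    change (u 0 * u 0 + 3 * (u 1 * u 1)) * 1 - 28 * D * (u 2 * u 2) * 0 -
      21 * (D * D) * (u 2 * u 2) * 1 = 0 at h2
    have hu1 : u 1 = 0 := by linear_combination h1
    rw [hu1] at h2
    have h4 : u 0 ^ 2 = 21 * (D * u 2) ^ 2 := by linear_combination h2
    by_cases hu2 : u 2 = 0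
    · rw [hu2] at h4
      have : u 0 = 0 := by
        have h5 : u 0 ^ 2 = 0 := by rw [h4]; ring
        exact pow_eq_zero_iff (two_ne_zero) |>.1 h5
      exact hext this hu1 hu2
    · refine ((nosq (u 0 / (D * u 2))).1 ?_).elim
      rw [div_pow, h4]
      field_simp
  | 2 =>
    change u 1 * 1 - u 2 * 0 = 0 at h1
    change (u 0 * u 0 + 3 * (u 1 * u 1)) * 1 - 28 * D * (u 2 * u 2) * -D -
      21 * (D * D) * (u 2 * u 2) * 1 = 0 at h2
    have hu1 : u 1 = 0 := by linear_combination h1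
    rw [hu1] at h2
    have h4 : u 0 ^ 2 = -7 * (D * u 2) ^ 2 := by linear_combination h2
    by_cases hu2 : u 2 = 0
    · rw [hu2] at h4
      have : u 0 = 0 := by
        have h5 : u 0 ^ 2 = 0 := by rw [h4]; ring
        exact pow_eq_zero_iff (two_ne_zero) |>.1 h5
      exact hext this hu1 hu2
    · refine ((nosq (u 0 / (D * u 2))).2.1 ?_).elim
      rw [div_pow, h4]
      field_simp

/-- the hypothesis of the theorem on families -/
theorem H_ex (d : Fin 1 → ℤ_[3]) (hd : ∀ i, Cl3 (d i)) (t : Fin 1 → Fin 3) (u : Fin 3 → ℚ_[3])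
    (hu : u ≠ 0) :
    ∃ f ∈ exS, aeval (val (fun i => (d i : ℚ_[3])) u fun i => tau (d i : ℚ_[3]) (t i)) f ≠ 0 := by
  by_contra hcon
  push Not at hcon
  have h1 := hcon f1 (by simp [exS])
  have h2 := hcon f2 (by simp [exS])
  have h3 := hcon f3 (by simp [exS])
  rw [ev1] at h1
  rw [ev2] at h2
  rw [ev3] at h3
  have hd0 : (d 0 : ℚ_[3]) ≠ 0 := by
    intro h0
    have h0' : d 0 = 0 := by
      apply Subtype.ext
      exact h0
    have h4 : ‖(4 : ℤ_[3])‖ = 1 := by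
      rw [PadicInt.norm_def]
      exact q3.th.four
    rcases hd 0 with h | h
    · rw [h0', zero_sub, norm_neg, h4] at h
      norm_num at h
    · rw [h0', zero_add, h4] at h
      norm_num at h
  exact hu (H_alg hd0 (t 0) u h1 h2 h3)

/-- inverses modulo nine -/
lemma inv_nine {D : ℕ} (hD : ¬ 3 ∣ D) : ∃ (u : ℕ) (q : ℤ), u ≠ 0 ∧ (D : ℤ) * u = 4 + 9 * q := by
  have h : D % 9 = 1 ∨ D % 9 = 2 ∨ D % 9 = 4 ∨ D % 9 = 5 ∨ D % 9 = 7 ∨ D % 9 = 8 := by omega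
  rcases h with h | h | h | h | h | h
  · exact ⟨4, ((D : ℤ) * 4 - 4) / 9, by norm_num, by push_cast; omega⟩
  · exact ⟨2, ((D : ℤ) * 2 - 4) / 9, by norm_num, by push_cast; omega⟩
  · exact ⟨1, ((D : ℤ) * 1 - 4) / 9, by norm_num, by push_cast; omega⟩
  · exact ⟨8, ((D : ℤ) * 8 - 4) / 9, by norm_num, by push_cast; omega⟩
  · exact ⟨7, ((D : ℤ) * 7 - 4) / 9, by norm_num, by push_cast; omega⟩
  · exact ⟨5, ((D : ℤ) * 5 - 4) / 9, by norm_num, by push_cast; omega⟩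

lemma n2' : ‖(2 : ℤ_[3])‖ = 1 := by
  rw [PadicInt.norm_def]
  exact q3.th.two

lemma n3' : ‖(3 : ℤ_[3])‖ = 1 / 3 := by
  rw [PadicInt.norm_def]
  exact norm3

/-- elements near to one are squares -/
lemma sq_near_one {w : ℚ_[3]} (h : ‖w - 1‖ < 1) : ∃ r : ℚ_[3], r ^ 2 = w := by
  have hw : ‖w‖ ≤ 1 := by
    have : w = 1 + (w - 1) := by ring
    rw [this]
    exact uadd (by rw [norm_one]) h.le
  let w' : ℤ_[3] := ⟨w, hw⟩
  let F : Polynomial ℤ_[3] := Polynomial.X ^ 2 - Polynomial.C w'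
  have h1 : F.aeval (1 : ℤ_[3]) = 1 - w' := by
    simp [F]
  have h2 : F.derivative.aeval (1 : ℤ_[3]) = 2 := by
    simp [F, one_add_one_eq_two]
  have h3 : ‖1 - w'‖ < 1 := by
    rw [PadicInt.norm_def]
    have e : ((1 - w' : ℤ_[3]) : ℚ_[3]) = -(w - 1) := by
      rw [PadicInt.coe_sub, PadicInt.coe_one]
      show 1 - w = _
      ring
    rw [e, norm_neg]
    exact h
  obtain ⟨r, hr, -⟩ := hensels_lemma (p := 3) (R := ℤ_[3]) (F := F) (a := 1) (by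
    rw [h1, h2, n2', one_pow]
    exact h3)
  have h8 : r ^ 2 = w' := by
    have : F.aeval r = r ^ 2 - w' := by simp [F]
    rw [this] at hr
    exact sub_eq_zero.1 hr
  refine ⟨(r : ℚ_[3]), ?_⟩
  have h9 := congrArg (fun w : ℤ_[3] => (w : ℚ_[3])) h8
  simp only [PadicInt.coe_pow] at h9
  exact h9

/-- cube roots of elements near to one -/
lemma cube_root (m : ℤ_[3]) : ∃ κ : ℚ_[3], κ ^ 3 = 1 + 27 * (m : ℚ_[3]) ∧ ‖κ - 1‖ ≤ 1 / 9 := by
  let F : Polynomial ℤ_[3] := Polynomial.X ^ 3 - Polynomial.C (1 + 27 * m)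
  have h1 : F.aeval (1 : ℤ_[3]) = -(3 * 3 * 3 * m) := by
    have : F.aeval (1 : ℤ_[3]) = 1 ^ 3 - (1 + 27 * m) := by simp [F]
    rw [this]
    ring
  have h2 : F.derivative.aeval (1 : ℤ_[3]) = 3 := by
    simp [F]
    norm_num
  obtain ⟨r, hr, hr2, -⟩ := hensels_lemma (p := 3) (R := ℤ_[3]) (F := F) (a := 1) (by
    rw [h1, h2, norm_neg, norm_mul, norm_mul, norm_mul, n3']
    have := PadicInt.norm_le_one m
    nlinarith [norm_nonneg m])
  rw [h2, n3'] at hr2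
  have h8 : r ^ 3 = 1 + 27 * m := by
    have : F.aeval r = r ^ 3 - (1 + 27 * m) := by simp [F]
    rw [this] at hr
    exact sub_eq_zero.1 hr
  refine ⟨(r : ℚ_[3]), ?_, ?_⟩
  · have h9 := congrArg (fun w : ℤ_[3] => (w : ℚ_[3])) h8
    simp only [PadicInt.coe_pow, PadicInt.coe_add, PadicInt.coe_one, PadicInt.coe_mul] at h9
    exact h9
  · have h9 : ‖((r : ℚ_[3]) - 1) / 3‖ < 1 := by
      rw [norm_div, norm3]
      have : ‖(r : ℚ_[3]) - 1‖ = ‖r - 1‖ := by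
        rw [PadicInt.norm_def, PadicInt.coe_sub, PadicInt.coe_one]
      rw [this]
      linarith
    have h10 := q3.disc _ h9
    rw [norm_div, norm3] at h10
    linarith

/-- points over the 3-adic numbers -/
theorem ex_pt3 {D : ℕ} (hD : ¬ 3 ∣ D) :
    ∃ (u : Fin 3 → ℚ_[3]) (P : (i : Fin 1) → ((EN D).baseChange ℚ_[3]).toAffine.Point),
      OnF exS (fun _ => D) ℚ_[3] u P := by
  have hD' : D ≠ 0 := by
    rintro rfl
    exact hD (dvd_zero 3)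
  have hD0 : (D : ℚ_[3]) ≠ 0 := by exact_mod_cast hD'
  obtain ⟨u, q, hu, hq⟩ := inv_nine hD
  have hu0 : (u : ℚ_[3]) ≠ 0 := by exact_mod_cast hu
  have h30 : (3 : ℚ_[3]) ≠ 0 := norm_pos_iff.1 q3.th.three_pos
  have hq' : (D : ℚ_[3]) * u = 4 + 9 * q := by exact_mod_cast congrArg (Int.cast : ℤ → ℚ_[3]) hq
  obtain ⟨κ, hκ, hκ1⟩ := cube_root ((D * u ^ 3 : ℕ) : ℤ_[3])
  have hκ' : κ ^ 3 = 1 + 27 * ((D : ℚ_[3]) * u ^ 3) := by
    rw [hκ]
    push_cast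
    ring
  -- the square root
  have hk2 : ‖κ ^ 2 - 1‖ ≤ 1 / 9 := by
    have e : κ ^ 2 - 1 = (κ - 1) * ((κ - 1) + 2) := by ring
    rw [e, norm_mul]
    have h1 : ‖(κ - 1) + 2‖ ≤ 1 := uadd (hκ1.trans (by norm_num)) (by rw [q3.th.two])
    nlinarith [norm_nonneg (κ - 1), norm_nonneg ((κ - 1) + 2)]
  obtain ⟨r, hr⟩ := sq_near_one (w := (-κ ^ 2 + 28 * (D * u) + 567 * (D ^ 2 * u ^ 4)) / 3) (by
    have e : (-κ ^ 2 + 28 * ((D : ℚ_[3]) * u) + 567 * (D ^ 2 * u ^ 4)) / 3 - 1 =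
        (-(κ ^ 2 - 1) + 9 * ((12 + 28 * q : ℤ) + 63 * ((D ^ 2 * u ^ 4 : ℕ) : ℚ_[3]))) / 3 := by
      push_cast
      rw [hq']
      field_simp
      ring
    rw [e, norm_div, norm3]
    have h1 : ‖((12 + 28 * q : ℤ) : ℚ_[3]) + 63 * ((D ^ 2 * u ^ 4 : ℕ) : ℚ_[3])‖ ≤ 1 := by
      have e2 : ((12 + 28 * q : ℤ) : ℚ_[3]) + 63 * ((D ^ 2 * u ^ 4 : ℕ) : ℚ_[3]) =
        ((12 + 28 * q + 63 * (D ^ 2 * u ^ 4 : ℕ) : ℤ) : ℚ_[3]) := by
        push_cast
        ring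
      rw [e2]
      exact Padic.norm_int_le_one _
    have h2 : ‖-(κ ^ 2 - 1) + 9 * (((12 + 28 * q : ℤ) : ℚ_[3]) +
        63 * ((D ^ 2 * u ^ 4 : ℕ) : ℚ_[3]))‖ ≤ 1 / 9 := by
      refine uadd (by rw [norm_neg]; exact hk2) ?_
      rw [norm_mul, norm9]
      linarith
    linarith)
  have hr' : 3 * r ^ 2 = -κ ^ 2 + 28 * ((D : ℚ_[3]) * u) + 567 * (D ^ 2 * u ^ 4) := by
    rw [hr]
    field_simp
  have hv : (3 * (u : ℚ_[3])) ≠ 0 := mul_ne_zero h30 hu0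
  have hcurve : (1 / (3 * (u : ℚ_[3])) ^ 3) ^ 2 + D * (1 / (3 * (u : ℚ_[3])) ^ 3) =
      (κ / (3 * u) ^ 2) ^ 3 := by
    rw [div_pow κ, hκ']
    field_simp
    ring
  obtain ⟨P, hP⟩ := pt_V (base_EN ℚ_[3] D) hD0 hcurve
  have h2 : ((3 * r / (3 * (u : ℚ_[3])) ^ 2) * (3 * r / (3 * u) ^ 2) +
      3 * ((κ / (3 * u) ^ 2) * (κ / (3 * u) ^ 2))) -
      28 * (D : ℚ_[3]) * (1 / (3 * u) ^ 3) - 21 * ((D : ℚ_[3]) * D) = 0 := by
    field_simp
    linear_combination hr'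
  refine onF_ex (u := ![3 * r / (3 * u) ^ 2, κ / (3 * u) ^ 2, 1]) hP ?_ ?_ ?_ ?_
  · intro h
    have := congrFun h 2
    simp at this
  · simp
  · simp only [Matrix.cons_val_zero, Matrix.cons_val_one, Matrix.cons_val, mul_one]
    linear_combination h2
  · simp only [Matrix.cons_val_zero, Matrix.cons_val_one, Matrix.cons_val, mul_one]
    linear_combination (1 / (3 * (u : ℚ_[3])) ^ 3 + D) * h2 + 28 * (D : ℚ_[3]) * hcurve

/-- **Points everywhere locally.** -/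
theorem ex_loc {D : ℕ} (hD : ¬ 3 ∣ D) :
    (∀ (p : ℕ) [Fact p.Prime], ∃ (u : Fin 3 → ℚ_[p])
      (P : (i : Fin 1) → ((EN D).baseChange ℚ_[p]).toAffine.Point),
        OnF exS (fun _ => D) ℚ_[p] u P) ∧
    ∃ (u : Fin 3 → ℝ) (P : (i : Fin 1) → ((EN D).baseChange ℝ).toAffine.Point),
      OnF exS (fun _ => D) ℝ u P := by
  have hD' : D ≠ 0 := by
    rintro rfl
    exact hD (dvd_zero 3)
  refine ⟨fun p hp => ?_, ?_⟩
  · by_cases h3 : p = 3
    · subst h3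
      exact ex_pt3 hD
    · exact ex_pt hD' (three_sq h3)
  · exact ex_pt hD' (Or.inl ⟨Real.sqrt 21, Real.sq_sqrt (by norm_num)⟩)

end Pool.Agent.R419.ST
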