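import Pool.Agent.R419.ST.FamE

/-!
# The curves `y² + D y = x³`, `w² = -3 x² + 28 D y + 21 D²`: the 3-Selmer set is empty
-/

set_option autoImplicit false
set_option linter.all false

open WeierstrassCurve MvPolynomial Filter Topology

namespace Pool.Agent.R419.ST

open Pool.Agent.TH954

open scoped Classical

lemma sub_max (x y : ℚ_[3]) : ‖x - y‖ ≤ max ‖x‖ ‖y‖ := by
  rw [sub_eq_add_neg, ← norm_neg y]
  exact IsUltrametricDist.norm_add_le_max _ _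

/-- the norm of `r² + s` -/
lemma an1 {s : ℚ_[3]} (hs : ‖s‖ = 1 / 3) (r : ℚ_[3]) : 1 / 3 ≤ ‖r ^ 2 + s‖ ∧ ‖r‖ ^ 2 ≤ ‖r ^ 2 + s‖ := by
  rcases lt_or_ge ‖r‖ 1 with h | h
  · have h1 := q3.disc r h
    rw [norm3] at h1
    have h2 := pow_le_pow_left₀ (norm_nonneg _) h1 2
    have h3 : ‖r ^ 2‖ < ‖s‖ := by
      rw [norm_pow, hs]
      linarith
    rw [add_comm, uadd_eq h3, hs]
    exact ⟨le_rfl, by linarith⟩
  · have h1 := one_le_pow₀ h (n := 2)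
    have h3 : ‖s‖ < ‖r ^ 2‖ := by
      rw [norm_pow, hs]
      linarith
    rw [uadd_eq h3, norm_pow]
    exact ⟨by linarith, le_rfl⟩

lemma an2 {s : ℚ_[3]} (hs : ‖s‖ = 1 / 3) (a b : ℚ_[3]) :
    ‖b‖ ^ 2 / 3 ≤ ‖a ^ 2 + s * b ^ 2‖ ∧ ‖a‖ ^ 2 ≤ ‖a ^ 2 + s * b ^ 2‖ := by
  by_cases hb : b = 0
  · subst hb
    rw [norm_zero, zero_pow two_ne_zero, zero_pow two_ne_zero, mul_zero, add_zero, norm_pow,
      zero_div]
    exact ⟨by positivity, le_rfl⟩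
  · obtain ⟨h1, h2⟩ := an1 hs (a / b)
    have e : a ^ 2 + s * b ^ 2 = ((a / b) ^ 2 + s) * b ^ 2 := by
      field_simp
    have hbp : 0 < ‖b‖ ^ 2 := by
      have := norm_pos_iff.2 hb
      positivity
    rw [e, norm_mul, norm_pow b]
    constructor
    · nlinarith
    · have e2 : ‖a‖ ^ 2 = ‖a / b‖ ^ 2 * ‖b‖ ^ 2 := by
        rw [norm_div, div_pow]
        field_simp
      rw [e2]
      nlinarith

lemma an3 (a b : ℚ_[3]) : ‖b‖ ^ 2 ≤ ‖a ^ 2 + 7 * b ^ 2‖ ∧ ‖a‖ ^ 2 ≤ ‖a ^ 2 + 7 * b ^ 2‖ := by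
  by_cases hb : b = 0
  · subst hb
    rw [norm_zero, zero_pow two_ne_zero, zero_pow two_ne_zero, mul_zero, add_zero, norm_pow]
    exact ⟨by positivity, le_rfl⟩
  · have h : 1 ≤ ‖(a / b) ^ 2 + 7‖ ∧ ‖a / b‖ ^ 2 ≤ ‖(a / b) ^ 2 + 7‖ := by
      generalize a / b = r
      rcases lt_trichotomy ‖r‖ 1 with h | h | h
      · have h3 : ‖r ^ 2‖ < ‖(7 : ℚ_[3])‖ := by
          rw [norm_pow, n7]
          exact pow_lt_one₀ (norm_nonneg _) h two_ne_zero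
        rw [add_comm, uadd_eq h3, n7]
        exact ⟨le_rfl, pow_le_one₀ (norm_nonneg _) h.le⟩
      · have h3 := res_sq q3.res h
        have e : r ^ 2 + 7 = 8 + (r ^ 2 - 1) := by ring
        have h4 : ‖r ^ 2 - 1‖ < ‖(8 : ℚ_[3])‖ := by
          rw [q3.th.eight]
          exact h3
        rw [e, uadd_eq h4, q3.th.eight, h]
        norm_num
      · have h3 : ‖(7 : ℚ_[3])‖ < ‖r ^ 2‖ := by
          rw [norm_pow, n7]
          exact one_lt_pow₀ h two_ne_zero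
        rw [uadd_eq h3, norm_pow]
        exact ⟨one_le_pow₀ h.le, le_rfl⟩
    have e : a ^ 2 + 7 * b ^ 2 = ((a / b) ^ 2 + 7) * b ^ 2 := by
      field_simp
    have hbp : 0 < ‖b‖ ^ 2 := by
      have := norm_pos_iff.2 hb
      positivity
    rw [e, norm_mul, norm_pow b]
    constructor
    · nlinarith [h.1]
    · have e2 : ‖a‖ ^ 2 = ‖a / b‖ ^ 2 * ‖b‖ ^ 2 := by
        rw [norm_div, div_pow]
        field_simp
      rw [e2]
      nlinarith [h.2]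

lemma zero_of_sq_le {x : ℚ_[3]} (h : ‖x‖ ^ 2 ≤ 0) : x = 0 := by
  by_contra hx
  have := norm_pos_iff.2 hx
  have : 0 < ‖x‖ ^ 2 := by positivity
  linarith

lemma one_of_near {a : ℚ_[3]} {b : ℚ_[3]} (hb : ‖b‖ = 1) (h : ‖a - b‖ ≤ 1 / 9) : ‖a‖ = 1 := by
  have e : a = b + (a - b) := by ring
  rw [e, uadd_eq, hb]
  rw [hb]
  linarith

/-- the equations have no solution near to the torsion points -/
lemma ex_three {D : ℚ_[3]} (hD : ‖D‖ = 1) (t : Fin 3) (w v : Fin 3 → ℚ_[3])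
    (hv : ∀ j, ‖v j - tau D t j‖ ≤ 1 / 9)
    (h1 : w 1 * v 2 - w 2 * v 0 = 0)
    (h2 : (w 0 * w 0 + 3 * (w 1 * w 1)) * v 2 - 28 * D * (w 2 * w 2) * v 1 -
      21 * (D * D) * (w 2 * w 2) * v 2 = 0)
    (h3 : (w 0 * w 0 + 3 * (w 1 * w 1)) * (v 1 + D * v 2) -
      28 * D * (w 1 * w 1) * v 0 -
      21 * (D * D) * (w 2 * w 2) * (v 1 + D * v 2) = 0) : ∀ j, w j = 0 := by
  have hall : w 0 = 0 → w 1 = 0 → w 2 = 0 → ∀ j, w j = 0 := by
    intro h0 h1 h2 j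
    fin_cases j
    · exact h0
    · exact h1
    · exact h2
  have n28 : ‖(28 : ℚ_[3])‖ = 1 := by
    have : (28 : ℚ_[3]) = 4 * 7 := by norm_num
    rw [this, norm_mul, n7, q3.th.four, mul_one]
  have n21 : ‖(21 : ℚ_[3])‖ = 1 / 3 := by
    have : (21 : ℚ_[3]) = 3 * 7 := by norm_num
    rw [this, norm_mul, norm3, n7, mul_one]
  have a0 := norm_nonneg (w 0)
  have a1 := norm_nonneg (w 1)
  have a2 := norm_nonneg (w 2)
  match t with
  | 0 =>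
    have b0 : ‖v 0 - 0‖ ≤ 1 / 9 := hv 0
    have b1 : ‖v 1 - 1‖ ≤ 1 / 9 := hv 1
    have b2 : ‖v 2 - 0‖ ≤ 1 / 9 := hv 2
    rw [sub_zero] at b0 b2
    have c1 : ‖v 1‖ = 1 := one_of_near norm_one b1
    have c2 : ‖v 1 + D * v 2‖ = 1 := by
      rw [uadd_eq, c1]
      rw [c1, norm_mul, hD, one_mul]
      linarith
    obtain ⟨q1, q2⟩ := an2 (s := 3) norm3 (w 0) (w 1)
    set A := w 0 ^ 2 + 3 * w 1 ^ 2 with hA
    have d1 : ‖w 2‖ ^ 2 ≤ ‖A‖ / 9 := by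
      have e : 28 * D * w 2 ^ 2 * v 1 = A * v 2 - 21 * D ^ 2 * w 2 ^ 2 * v 2 := by
        rw [hA]
        linear_combination -h2
      have e1 : ‖28 * D * w 2 ^ 2 * v 1‖ = ‖w 2‖ ^ 2 := by
        rw [norm_mul, norm_mul, norm_mul, n28, hD, c1, norm_pow]
        ring
      have e2 : ‖A * v 2‖ ≤ ‖A‖ / 9 := by
        rw [norm_mul]
        nlinarith [norm_nonneg A]
      have e3 : ‖21 * D ^ 2 * w 2 ^ 2 * v 2‖ ≤ ‖w 2‖ ^ 2 / 27 := by
        rw [norm_mul, norm_mul, norm_mul, n21, norm_pow, norm_pow, hD]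
        nlinarith [sq_nonneg ‖w 2‖]
      have e4 : ‖w 2‖ ^ 2 ≤ max (‖A‖ / 9) (‖w 2‖ ^ 2 / 27) := by
        calc ‖w 2‖ ^ 2 = ‖28 * D * w 2 ^ 2 * v 1‖ := e1.symm
          _ = ‖A * v 2 - 21 * D ^ 2 * w 2 ^ 2 * v 2‖ := by rw [e]
          _ ≤ max ‖A * v 2‖ ‖21 * D ^ 2 * w 2 ^ 2 * v 2‖ := sub_max _ _
          _ ≤ max (‖A‖ / 9) (‖w 2‖ ^ 2 / 27) := max_le_max e2 e3
      rcases le_max_iff.1 e4 with h | h
      · exact h
      · have := norm_nonneg A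
        nlinarith [sq_nonneg ‖w 2‖]
    have d2 : ‖A‖ ≤ ‖w 1‖ ^ 2 / 9 := by
      have e : A * (v 1 + D * v 2) = 28 * D * w 1 ^ 2 * v 0 +
          21 * D ^ 2 * w 2 ^ 2 * (v 1 + D * v 2) := by
        rw [hA]
        linear_combination h3
      have e1 : ‖A * (v 1 + D * v 2)‖ = ‖A‖ := by rw [norm_mul, c2, mul_one]
      have e2 : ‖28 * D * w 1 ^ 2 * v 0‖ ≤ ‖w 1‖ ^ 2 / 9 := by
        rw [norm_mul, norm_mul, norm_mul, n28, hD, norm_pow]
        nlinarith [sq_nonneg ‖w 1‖]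
      have e3 : ‖21 * D ^ 2 * w 2 ^ 2 * (v 1 + D * v 2)‖ ≤ ‖A‖ / 27 := by
        rw [norm_mul, norm_mul, norm_mul, n21, norm_pow, norm_pow, hD, c2]
        nlinarith
      have e4 : ‖A‖ ≤ max (‖w 1‖ ^ 2 / 9) (‖A‖ / 27) := by
        nth_rewrite 1 [← e1]
        rw [e]
        refine (IsUltrametricDist.norm_add_le_max _ _).trans ?_
        exact max_le_max e2 e3
      rcases le_max_iff.1 e4 with h | h
      · exact h
      · have := norm_nonneg A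
        nlinarith [sq_nonneg ‖w 1‖]
    have d3 : w 1 = 0 := zero_of_sq_le (by linarith)
    rw [d3, norm_zero] at d2
    have d4 : w 0 = 0 := zero_of_sq_le (by linarith)
    have d5 : w 2 = 0 := zero_of_sq_le (by linarith)
    exact hall d4 d3 d5
  | 1 =>
    have b0 : ‖v 0 - 0‖ ≤ 1 / 9 := hv 0
    have b1 : ‖v 1 - 0‖ ≤ 1 / 9 := hv 1
    have b2 : ‖v 2 - 1‖ ≤ 1 / 9 := hv 2
    rw [sub_zero] at b0 b1
    have c2 : ‖v 2‖ = 1 := one_of_near norm_one b2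
    have d1 : ‖w 1‖ ≤ ‖w 2‖ / 9 := by
      have e : w 1 * v 2 = w 2 * v 0 := by linear_combination h1
      have e1 : ‖w 1‖ = ‖w 2‖ * ‖v 0‖ := by
        rw [← norm_mul, ← e, norm_mul, c2, mul_one]
      rw [e1]
      nlinarith
    obtain ⟨q1, q2⟩ := an2 (s := -21) (by rw [norm_neg]; exact n21) (w 0) (D * w 2)
    rw [norm_mul, hD, one_mul] at q1
    have d2 : ‖w 0 ^ 2 + -21 * (D * w 2) ^ 2‖ ≤ ‖w 2‖ ^ 2 / 9 := by
      have e : (w 0 ^ 2 + -21 * (D * w 2) ^ 2) * v 2 =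
          28 * D * w 2 ^ 2 * v 1 - 3 * w 1 ^ 2 * v 2 := by
        linear_combination h2
      have e1 : ‖w 0 ^ 2 + -21 * (D * w 2) ^ 2‖ = ‖28 * D * w 2 ^ 2 * v 1 - 3 * w 1 ^ 2 * v 2‖ := by
        rw [← e, norm_mul, c2, mul_one]
      rw [e1]
      refine (sub_max _ _).trans (max_le ?_ ?_)
      · rw [norm_mul, norm_mul, norm_mul, n28, hD, norm_pow]
        nlinarith [sq_nonneg ‖w 2‖]
      · rw [norm_mul, norm_mul, norm3, c2, norm_pow]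
        nlinarith
    have d5 : w 2 = 0 := zero_of_sq_le (by linarith)
    rw [d5, norm_zero] at d1 d2
    have d3 : w 1 = 0 := norm_le_zero_iff.1 (by linarith)
    rw [d5] at q2
    have d4 : w 0 = 0 := zero_of_sq_le (by linarith)
    exact hall d4 d3 d5
  | 2 =>
    have b0 : ‖v 0 - 0‖ ≤ 1 / 9 := hv 0
    have b1 : ‖v 1 - -D‖ ≤ 1 / 9 := hv 1
    have b2 : ‖v 2 - 1‖ ≤ 1 / 9 := hv 2
    rw [sub_zero] at b0
    have c2 : ‖v 2‖ = 1 := one_of_near norm_one b2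
    have d1 : ‖w 1‖ ≤ ‖w 2‖ / 9 := by
      have e : w 1 * v 2 = w 2 * v 0 := by linear_combination h1
      have e1 : ‖w 1‖ = ‖w 2‖ * ‖v 0‖ := by
        rw [← norm_mul, ← e, norm_mul, c2, mul_one]
      rw [e1]
      nlinarith
    obtain ⟨q1, q2⟩ := an3 (w 0) (D * w 2)
    rw [norm_mul, hD, one_mul] at q1
    have d2 : ‖w 0 ^ 2 + 7 * (D * w 2) ^ 2‖ ≤ ‖w 2‖ ^ 2 / 9 := by
      have e : (w 0 ^ 2 + 7 * (D * w 2) ^ 2) * v 2 =
          (28 * D * w 2 ^ 2 * (v 1 - -D) + 28 * D ^ 2 * w 2 ^ 2 * (v 2 - 1)) -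
            3 * w 1 ^ 2 * v 2 := by
        linear_combination h2
      have e1 : ‖w 0 ^ 2 + 7 * (D * w 2) ^ 2‖ =
          ‖(28 * D * w 2 ^ 2 * (v 1 - -D) + 28 * D ^ 2 * w 2 ^ 2 * (v 2 - 1)) -
            3 * w 1 ^ 2 * v 2‖ := by
        rw [← e, norm_mul, c2, mul_one]
      rw [e1]
      refine (sub_max _ _).trans (max_le
        ((IsUltrametricDist.norm_add_le_max _ _).trans (max_le ?_ ?_)) ?_)
      · rw [norm_mul, norm_mul, norm_mul, n28, hD, norm_pow]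
        nlinarith [sq_nonneg ‖w 2‖]
      · rw [norm_mul, norm_mul, norm_mul, n28, norm_pow, hD, norm_pow]
        nlinarith [sq_nonneg ‖w 2‖]
      · rw [norm_mul, norm_mul, norm3, c2, norm_pow]
        nlinarith
    have d5 : w 2 = 0 := zero_of_sq_le (by nlinarith [sq_nonneg ‖w 2‖])
    rw [d5, norm_zero] at d1
    have d3 : w 1 = 0 := norm_le_zero_iff.1 (by linarith)
    rw [d5, norm_zero] at d2
    rw [d5] at q2
    have d4 : w 0 = 0 := zero_of_sq_le (by linarith)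
    exact hall d4 d3 d5

/-- **The 3-Selmer set is empty.** -/
theorem ex_sel {D : ℕ} (hD : GoodQ D) : SelQ exS (fun _ => D) 3 = ∅ := by
  by_contra hne
  obtain ⟨ξ, hξ⟩ := Set.nonempty_iff_ne_empty.2 hne
  obtain ⟨t, w, v, h1, ⟨j, hj⟩, h3, h4⟩ := near_sel exS hom_ex (fun _ => D) (fun _ => hD) 0 ξ (by
    rw [zero_add, pow_one]
    exact hξ)
  have e1 := h4 f1 (by simp [exS])
  have e2 := h4 f2 (by simp [exS])
  have e3 := h4 f3 (by simp [exS])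
  rw [ev1] at e1
  rw [ev2] at e2
  rw [ev3] at e3
  have hDn : ‖(D : ℚ_[3])‖ = 1 := by
    have h5 : ¬ ‖((D : ℤ) : ℚ_[3])‖ < 1 := by
      rw [Padic.norm_intCast_lt_one_iff]
      have := hD.mod
      omega
    have h6 := le_antisymm (Padic.norm_int_le_one (p := 3) (D : ℤ)) (not_lt.1 h5)
    exact_mod_cast h6
  have h6 := ex_three hDn (t 0) w (v 0) (fun j => by
    refine (h3 0 j).trans (le_of_eq ?_)
    norm_num) e1 e2 e3 j
  rw [h6, norm_zero] at hj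
  norm_num at hj

end Pool.Agent.R419.ST
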