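import Mathlib

/-!
# The isomorphism of `y² + d y = x³` with `y² = x³ + d²/4`
-/

set_option autoImplicit false
set_option linter.all false

open WeierstrassCurve

namespace Pool.Agent.R419.ST

open scoped Classical

section

variable {F : Type} [Field F]

/-- the curve `y² = x³ + d²/4` -/
def WS (d : F) : WeierstrassCurve F := ⟨0, 0, 0, 0, d ^ 2 / 4⟩

/-- the curve `y² + d y = x³` -/
def WE (d : F) : WeierstrassCurve F := ⟨0, 0, d, 0, 0⟩

lemma ns_iff (h2 : (2 : F) ≠ 0) (d x y : F) :
    (WE d).toAffine.Nonsingular x y ↔ (WS d).toAffine.Nonsingular x (y + d / 2) := by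
  have h4 : (4 : F) ≠ 0 := by
    have : (4 : F) = 2 ^ 2 := by norm_num
    rw [this]
    exact pow_ne_zero 2 h2
  have hd : d / 2 * 2 = d := div_mul_cancel₀ _ h2
  rw [Affine.nonsingular_iff, Affine.nonsingular_iff, Affine.equation_iff, Affine.equation_iff]
  simp only [WE, WS]
  refine and_congr ?_ (or_congr ?_ ?_)
  · constructor
    · intro h
      field_simp
      linear_combination 16 * h
    · intro h
      field_simp at h
      apply mul_left_cancel₀ (mul_ne_zero h4 h4)
      linear_combination h
  · simp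
  · constructor
    · intro h h'
      apply h
      linear_combination h' - hd
    · intro h h'
      apply h
      linear_combination h' + hd

/-- the map on points -/
def toS (h2 : (2 : F) ≠ 0) (d : F) : (WE d).toAffine.Point → (WS d).toAffine.Point
  | .zero => .zero
  | .some x y h => .some x (y + d / 2) ((ns_iff h2 d x y).1 h)

/-- the inverse map -/
def ofS (h2 : (2 : F) ≠ 0) (d : F) : (WS d).toAffine.Point → (WE d).toAffine.Point
  | .zero => .zero
  | .some x y h => .some x (y - d / 2) ((ns_iff h2 d x (y - d / 2)).2 (by rwa [sub_add_cancel]))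

lemma toS_some (h2 : (2 : F) ≠ 0) (d : F) {x y : F} (h : (WE d).toAffine.Nonsingular x y) :
    toS h2 d (.some x y h) = .some x (y + d / 2) ((ns_iff h2 d x y).1 h) := rfl

lemma slope_S (h2 : (2 : F) ≠ 0) (d x₁ x₂ y₁ y₂ : F) :
    (WS d).toAffine.slope x₁ x₂ (y₁ + d / 2) (y₂ + d / 2) = (WE d).toAffine.slope x₁ x₂ y₁ y₂ := by
  have e : ∀ x y : F, (WS d).toAffine.negY x (y + d / 2) = (WE d).toAffine.negY x y + d / 2 := by
    intro x y
    simp only [Affine.negY, WE, WS]
    ring_nf
    field_simp
    ring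
  unfold Affine.slope
  simp only [e, add_left_inj, add_sub_add_right_eq_sub]
  simp only [WE, WS]
  ring_nf

lemma toS_add (h2 : (2 : F) ≠ 0) (d : F) (P Q : (WE d).toAffine.Point) :
    toS h2 d (P + Q) = toS h2 d P + toS h2 d Q := by
  have e : ∀ x y : F, (WS d).toAffine.negY x (y + d / 2) = (WE d).toAffine.negY x y + d / 2 := by
    intro x y
    simp only [Affine.negY, WE, WS]
    ring_nf
    field_simp
    ring
  match P, Q with
  | .zero, Q =>
    have h1 : (Affine.Point.zero : (WE d).toAffine.Point) + Q = Q := zero_add Q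
    have h2' : toS h2 d Affine.Point.zero = 0 := rfl
    rw [h1, h2', zero_add]
  | .some x₁ y₁ n₁, .zero =>
    have h1 : Affine.Point.some x₁ y₁ n₁ + (Affine.Point.zero : (WE d).toAffine.Point) =
      Affine.Point.some x₁ y₁ n₁ := add_zero _
    have h2' : toS h2 d Affine.Point.zero = 0 := rfl
    rw [h1, h2', add_zero]
  | .some x₁ y₁ n₁, .some x₂ y₂ n₂ =>
    rw [toS_some, toS_some]
    by_cases hxy : x₁ = x₂ ∧ y₁ = (WE d).toAffine.negY x₂ y₂
    · rw [Affine.Point.add_of_Y_eq hxy.1 hxy.2, Affine.Point.add_of_Y_eq hxy.1]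
      · rfl
      · rw [e, hxy.2]
    · have hxy' : ¬ (x₁ = x₂ ∧ y₁ + d / 2 = (WS d).toAffine.negY x₂ (y₂ + d / 2)) := by
        rw [e]
        rintro ⟨h1, h3⟩
        exact hxy ⟨h1, add_right_cancel h3⟩
      rw [Affine.Point.add_some hxy, Affine.Point.add_some hxy', toS_some]
      have hX : ∀ l : F, (WS d).toAffine.addX x₁ x₂ l = (WE d).toAffine.addX x₁ x₂ l := fun l => rfl
      have hs := slope_S h2 d x₁ x₂ y₁ y₂
      rw [Affine.Point.some.injEq]
      refine ⟨?_, ?_⟩
      · rw [hs, hX]
      · rw [hs, Affine.addY, Affine.addY, Affine.negAddY, Affine.negAddY, hX, ← e]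
        congr 1
        ring

/-- the isomorphism -/
def isoS (h2 : (2 : F) ≠ 0) (d : F) : (WE d).toAffine.Point ≃+ (WS d).toAffine.Point where
  toFun := toS h2 d
  invFun := ofS h2 d
  left_inv P := by
    match P with
    | .zero => rfl
    | .some x y h =>
      show Affine.Point.some _ _ _ = _
      rw [Affine.Point.some.injEq]
      exact ⟨rfl, add_sub_cancel_right _ _⟩
  right_inv P := by
    match P with
    | .zero => rfl
    | .some x y h =>
      show Affine.Point.some _ _ _ = _
      rw [Affine.Point.some.injEq]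
      exact ⟨rfl, sub_add_cancel _ _⟩
  map_add' := toS_add h2 d

end

end Pool.Agent.R419.ST
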