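import Pool.Agent.R419.ST.Tor
import Pool.Agent.R419.ST.Iso
import Pool.Agent.R419.ST.Div

/-!
# Local points close to points divisible by high powers of three
-/

set_option autoImplicit false
set_option linter.all false

open WeierstrassCurve Filter Topology MvPolynomial

namespace Pool.Agent.R419.ST

open Pool.Agent.TH954

open scoped Classical

section

variable {L : Type} [NormedField L] [IsUltrametricDist L] [ProperSpace L]

lemma si_WS (hL : Th L) {d : L} (hd : ‖d‖ ≤ 1) : SI (WS d) where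
  h1 := rfl
  h2 := rfl
  h3 := rfl
  ha := by
    show ‖(0 : L)‖ ≤ 1
    rw [norm_zero]
    exact zero_le_one
  hb := by
    show ‖d ^ 2 / 4‖ ≤ 1
    rw [norm_div, norm_pow, hL.four, div_one]
    exact pow_le_one₀ (norm_nonneg _) hd

lemma disc_WS (hL : Th L) {d : L} (hd0 : d ≠ 0) : 4 * (WS d).a₄ ^ 3 + 27 * (WS d).a₆ ^ 2 ≠ 0 := by
  show 4 * (0 : L) ^ 3 + 27 * (d ^ 2 / 4) ^ 2 ≠ 0
  have h3 : (3 : L) ≠ 0 := norm_pos_iff.1 hL.three_pos
  have h27 : (27 : L) = 3 ^ 3 := by norm_num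
  rw [zero_pow (by norm_num), mul_zero, zero_add, h27]
  exact mul_ne_zero (pow_ne_zero _ h3) (pow_ne_zero _ (div_ne_zero (pow_ne_zero _ hd0) hL.four_ne))

/-- a limit of multiples of high powers of three, up to a common shift -/
theorem lim_pr (hL : Th L) {W : WeierstrassCurve L} (hW : SI W) (h4 : W.a₄ = 0)
    (hD : 4 * W.a₄ ^ 3 + 27 * W.a₆ ^ 2 ≠ 0) (U : Ultrafilter ℕ) (hU : (U : Filter ℕ) ≤ atTop)
    (P : ℕ → W.toAffine.Point) (P' y : W.toAffine.Point)
    (hP : ∀ j, Tendsto (fun k => nc (P k) j) U (𝓝 (nc P' j)))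
    (hz : ∀ᶠ k in (U : Filter ℕ), ∃ z, P k - y = 3 ^ k • z) : Pr (P' - y) := by
  obtain ⟨N, hN0, hN⟩ := exists_expo' hW hD hL.two_ne 2 (by norm_num)
  obtain ⟨a, m, hm, hNam⟩ := Nat.exists_eq_pow_mul_and_not_dvd hN0.ne' 3 (by norm_num)
  refine ⟨m, hm, zero_of_big' fun R hR => ?_⟩
  obtain ⟨d, hd0, -, hd⟩ := hW.exists_near hL.two_ne hD hR
  have h1 : ∀ᶠ k in (U : Filter ℕ), ∀ j, ‖nc (P k) j - nc P' j‖ < d := by
    rw [eventually_all]
    intro j
    have := (hP j).sub (tendsto_const_nhds (x := nc P' j))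
    rw [sub_self] at this
    have h3 := this.norm
    rw [norm_zero] at h3
    exact h3.eventually_lt_const hd0
  obtain ⟨r, hr⟩ := pow_unbounded_of_one_lt R (ratio_gt hL)
  have hge : ∀ᶠ k in (U : Filter ℕ), a + r ≤ k := hU (eventually_ge_atTop (a + r))
  obtain ⟨k, ⟨hk1, hk2⟩, z, hk3⟩ := ((h1.and hge).and hz).exists
  have h3 : Big R (m • (P k - P')) := hW.big_nsmul hL.two_ne hR (hd _ _ hk1) m
  have h5 : Big R (m • (P k - y)) := by
    obtain ⟨t, rfl⟩ := Nat.exists_eq_add_of_le hk2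
    have e : m • (P (a + r + t) - y) = 3 ^ (r + t) • (N • z) := by
      rw [hk3, hNam, ← mul_smul, ← mul_smul]
      congr 1
      rw [pow_add, pow_add, pow_add]
      ring
    rw [e]
    have h6 := big_three_pow hL hW h4 (by norm_num : (1 : ℝ) < 2) (hN z) (r + t)
    refine big_mono ?_ h6
    have h7 : ((‖(3 : L)‖ ^ 2)⁻¹) ^ r ≤ ((‖(3 : L)‖ ^ 2)⁻¹) ^ (r + t) :=
      pow_le_pow_right₀ (ratio_gt hL).le (by omega)
    have h8 : (0 : ℝ) < ((‖(3 : L)‖ ^ 2)⁻¹) ^ (r + t) := by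
      have := ratio_gt hL
      positivity
    linarith
  have e2 : m • (P' - y) = m • (P k - y) - m • (P k - P') := by
    rw [← smul_sub]
    congr 1
    abel
  rw [e2]
  exact hW.big_sub hL.two_ne hR h5 h3

/-- the coordinates on `y² + d y = x³` in terms of those on `y² = x³ + d²/4` -/
lemma crd_toS (h2 : (2 : L) ≠ 0) (d : L) (P : (WE d).toAffine.Point) :
    crd P 0 = crd (isoS h2 d P) 0 ∧
      crd P 1 = crd (isoS h2 d P) 1 - d / 2 * crd (isoS h2 d P) 2 ∧
      crd P 2 = crd (isoS h2 d P) 2 := by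
  match P with
  | .zero =>
    have e : isoS h2 d (Affine.Point.zero : (WE d).toAffine.Point) = Affine.Point.zero := rfl
    rw [e]
    simp [crd]
  | .some x y h =>
    have e : isoS h2 d (Affine.Point.some x y h : (WE d).toAffine.Point) =
      Affine.Point.some x (y + d / 2) ((ns_iff h2 d x y).1 h) := rfl
    rw [e]
    simp [crd]

/-- the linear map between the coordinates -/
def lin (d : L) (u : Fin 3 → L) (j : Fin 3) : L := u j - (if j = 1 then d / 2 else 0) * u 2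

lemma crd_lin (h2 : (2 : L) ≠ 0) (d : L) (P : (WE d).toAffine.Point) (j : Fin 3) :
    crd P j = lin d (fun i => crd (isoS h2 d P) i) j := by
  obtain ⟨h0, h1, h2'⟩ := crd_toS h2 d P
  unfold lin
  fin_cases j
  · show crd P 0 = crd (isoS h2 d P) 0 - (if (0 : Fin 3) = 1 then d / 2 else 0) *
      crd (isoS h2 d P) 2
    rw [if_neg (by decide), zero_mul, sub_zero]
    exact h0
  · show crd P 1 = crd (isoS h2 d P) 1 - (if (1 : Fin 3) = 1 then d / 2 else 0) *
      crd (isoS h2 d P) 2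
    rw [if_pos rfl]
    exact h1
  · show crd P 2 = crd (isoS h2 d P) 2 - (if (2 : Fin 3) = 1 then d / 2 else 0) *
      crd (isoS h2 d P) 2
    rw [if_neg (by decide), zero_mul, sub_zero]
    exact h2'

lemma eval_lin (hL : Th L) {n : ℕ} {d : Fin n → L} (hd : ∀ i, ‖d i‖ ≤ 1) {e : Fin n → ℕ}
    {f : MvPolynomial (Fin n × Fin 3) L} (hf : MultiHom e f)
    (P : (i : Fin n) → (WE (d i)).toAffine.Point) :
    eval (fun p => crd (P p.1) p.2) f = 0 ↔
      eval (fun p : Fin n × Fin 3 =>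
        lin (d p.1) (fun i => nc (isoS hL.two_ne (d p.1) (P p.1)) i) p.2) f = 0 := by
  choose s hs0 hs1 hs2 using fun i => crd_eq_smul_nc (si_WS hL (hd i)) (isoS hL.two_ne (d i) (P i))
  have e1 : (fun p : Fin n × Fin 3 => crd (P p.1) p.2) = fun p => s p.1 *
      lin (d p.1) (fun i => nc (isoS hL.two_ne (d p.1) (P p.1)) i) p.2 := by
    funext p
    obtain ⟨i, j⟩ := p
    rw [crd_lin hL.two_ne]
    have h := hs1 i
    unfold lin
    simp only [h]
    ring
  rw [e1, hf.eval_smul s (fun p : Fin n × Fin 3 =>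
    lin (d p.1) (fun i => nc (isoS hL.two_ne (d p.1) (P p.1)) i) p.2), mul_eq_zero, or_iff_right]
  exact Finset.prod_ne_zero_iff.2 fun i _ => pow_ne_zero _ (hs0 i)

/-- **The limit argument.** -/
theorem lim_main (hL : Th L) {n : ℕ} (d : Fin n → L) (hd : ∀ i, ‖d i‖ ≤ 1) (hd0 : ∀ i, d i ≠ 0)
    (S : Set (MvPolynomial (Fin n × Fin 3) L)) (hS : ∀ f ∈ S, ∃ e, MultiHom e f)
    (Y : Set ((i : Fin n) → (WE (d i)).toAffine.Point)) (hY : Y.Finite)
    (h : ∀ k : ℕ, ∃ P : (i : Fin n) → (WE (d i)).toAffine.Point,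
      (∀ f ∈ S, eval (fun p => crd (P p.1) p.2) f = 0) ∧
        ∃ y ∈ Y, ∀ i, ∃ z, P i = y i + 3 ^ k • z) :
    ∃ P : (i : Fin n) → (WE (d i)).toAffine.Point,
      (∀ f ∈ S, eval (fun p => crd (P p.1) p.2) f = 0) ∧
        ∃ y ∈ Y, ∀ i, ∃ m : ℕ, ¬ 3 ∣ m ∧ m • (P i - y i) = 0 := by
  choose P hPS y hyY z hz using h
  -- a constant shift
  obtain ⟨y₀, hy₀Y, hy₀⟩ : ∃ y₀ ∈ Y, ∀ᶠ k in (hyperfilter ℕ : Filter ℕ), y k = y₀ := by
    have h1 : ∀ᶠ k in (hyperfilter ℕ : Filter ℕ), y k ∈ Y := Filter.Eventually.of_forall hyY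
    have h2 : (⋃ y₀ ∈ Y, {k | y k = y₀}) ∈ (hyperfilter ℕ : Filter ℕ) := by
      filter_upwards [h1] with k hk
      exact Set.mem_biUnion hk rfl
    obtain ⟨y₀, h3, h4⟩ := (Ultrafilter.finite_biUnion_mem_iff hY).1 h2
    exact ⟨y₀, h3, h4⟩
  have hlim : ∀ i, ∃ Pi : (WS (d i)).toAffine.Point, ∀ j,
      Tendsto (fun k => nc (isoS hL.two_ne (d i) (P k i)) j) (hyperfilter ℕ) (𝓝 (nc Pi j)) :=
    fun i => lim_point (si_WS hL (hd i)) (disc_WS hL (hd0 i)) hL.two_ne (hyperfilter ℕ)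
      (fun k => isoS hL.two_ne (d i) (P k i))
  choose P' hP' using hlim
  obtain ⟨Pp, hPp⟩ : ∃ Pp : (i : Fin n) → (WE (d i)).toAffine.Point,
      ∀ i, isoS hL.two_ne (d i) (Pp i) = P' i :=
    ⟨fun i => (isoS hL.two_ne (d i)).symm (P' i), fun i => AddEquiv.apply_symm_apply _ _⟩
  refine ⟨Pp, ?_, y₀, hy₀Y, fun i => ?_⟩
  · intro f hf
    obtain ⟨e, he⟩ := hS f hf
    refine (eval_lin hL hd he Pp).2 ?_
    have e3 : (fun p : Fin n × Fin 3 =>
        lin (d p.1) (fun i => nc (isoS hL.two_ne (d p.1) (Pp p.1)) i) p.2) =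
        (fun p : Fin n × Fin 3 => lin (d p.1) (fun i => nc (P' p.1) i) p.2) := by
      funext p
      rw [hPp]
    rw [e3]
    have h0 : Tendsto (fun k => (fun p : Fin n × Fin 3 =>
        lin (d p.1) (fun i => nc (isoS hL.two_ne (d p.1) (P k p.1)) i) p.2)) (hyperfilter ℕ)
        (𝓝 (fun p : Fin n × Fin 3 => lin (d p.1) (fun i => nc (P' p.1) i) p.2)) := by
      rw [tendsto_pi_nhds]
      rintro ⟨i, j⟩
      exact (hP' i j).sub (tendsto_const_nhds.mul (hP' i 2))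
    have hcont : Continuous fun u : Fin n × Fin 3 → L => eval u f := MvPolynomial.continuous_eval f
    have h1 := (hcont.tendsto _).comp h0
    have h2 : ((fun u : Fin n × Fin 3 → L => eval u f) ∘ fun k => (fun p : Fin n × Fin 3 =>
        lin (d p.1) (fun i => nc (isoS hL.two_ne (d p.1) (P k p.1)) i) p.2)) = fun _ => (0 : L) := by
      funext k
      exact (eval_lin hL hd he (P k)).1 (hPS k f hf)
    rw [h2] at h1
    exact tendsto_nhds_unique h1 tendsto_const_nhds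
  · have hU : ((hyperfilter ℕ : Ultrafilter ℕ) : Filter ℕ) ≤ atTop := by
      have hle : (hyperfilter ℕ : Filter ℕ) ≤ cofinite := hyperfilter_le_cofinite
      rwa [Nat.cofinite_eq_atTop] at hle
    obtain ⟨m, hm, h1⟩ := lim_pr hL (si_WS hL (hd i)) rfl (disc_WS hL (hd0 i)) (hyperfilter ℕ) hU
      (fun k => isoS hL.two_ne (d i) (P k i)) (P' i) (isoS hL.two_ne (d i) (y₀ i)) (hP' i) (by
        filter_upwards [hy₀] with k hk
        refine ⟨isoS hL.two_ne (d i) (z k i), ?_⟩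
        rw [← map_sub, ← map_nsmul, hz k i, hk, add_sub_cancel_left])
    refine ⟨m, hm, ?_⟩
    apply (isoS hL.two_ne (d i)).injective
    rw [map_nsmul, map_sub, hPp, map_zero]
    exact h1

end

end Pool.Agent.R419.ST
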