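import Pool.Agent.R419.ST.Lim
import Pool.Agent.TH954.Expo
import Pool.Agent.Y791.BS.Loc
import Pool.Agent.H723R3.EuclidLocal
import Mathlib.NumberTheory.NumberField.Cyclotomic.Three

/-!
# The completion of `ℚ(√-3)` at the prime above three
-/

set_option autoImplicit false
set_option linter.all false

open IsDedekindDomain NumberField WeierstrassCurve

namespace Pool.Agent.R419.ST

open Pool.Agent.TH954

open scoped Classical

section

variable {K : Type} [Field K] [NumberField K] (v : HeightOneSpectrum (𝓞 K))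

lemma nle' {x : K} :
    ‖algebraMap K (v.adicCompletion K) x‖ ≤ 1 ↔ v.valuation K x ≤ 1 := by
  rw [Valued.toNormedField.norm_le_one_iff]
  exact Iff.of_eq (congrArg (· ≤ 1) (HeightOneSpectrum.valuedAdicCompletion_eq_valuation' v x))

/-- the embedding of the integers in the completion -/
noncomputable def ff : 𝓞 K →+* v.adicCompletion K :=
  (algebraMap K (v.adicCompletion K)).comp (algebraMap (𝓞 K) K)

lemma nlt_mem {r : 𝓞 K} (h : r ∈ v.asIdeal) : ‖ff v r‖ < 1 :=
  (FinitePlace.norm_lt_one_iff_mem K v r).2 h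

lemma nff_le (r : 𝓞 K) : ‖ff v r‖ ≤ 1 := FinitePlace.norm_le_one K v r

/-- residues -/
lemma res_of (h : ∀ n : 𝓞 K, n ∈ v.asIdeal ∨ n - 1 ∈ v.asIdeal ∨ n + 1 ∈ v.asIdeal) :
    Res (v.adicCompletion K) := by
  intro z hz
  have hz' : z ∈ v.adicCompletionIntegers K := Valued.toNormedField.norm_le_one_iff.1 hz
  obtain ⟨r, hr⟩ := Pool.Agent.H723R3.exists_approx_int (R := 𝓞 K) v hz' 1
  have hr' : ‖ff v r - z‖ < 1 := Valued.toNormedField.norm_lt_one_iff.2 hr
  rcases h r with h | h | h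
  · left
    have e : z = ff v r - (ff v r - z) := by ring
    rw [e]
    exact usub_lt (nlt_mem v h) hr'
  · right
    left
    have e : z - 1 = ff v (r - 1) - (ff v r - z) := by
      rw [map_sub, map_one]
      ring
    rw [e]
    exact usub_lt (nlt_mem v h) hr'
  · right
    right
    have e : z + 1 = ff v (r + 1) - (ff v r - z) := by
      rw [map_add, map_one]
      ring
    rw [e]
    exact usub_lt (nlt_mem v h) hr'

/-- a generator of the prime ideal is a uniformizer -/
lemma disc_of {l : 𝓞 K} (h0 : l ≠ 0) (hl : v.asIdeal = Ideal.span {l}) (w : v.adicCompletion K)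
    (hw : ‖w‖ < 1) : ‖w‖ ≤ ‖ff v l‖ := by
  have h2 : Valued.v (ff v l) = WithZero.exp (-1 : ℤ) := by
    refine (HeightOneSpectrum.valuedAdicCompletion_eq_valuation' v _).trans ?_
    exact (HeightOneSpectrum.valuation_of_algebraMap v l).trans (v.intValuation_singleton h0 hl)
  rw [Valued.toNormedField.norm_le_iff, h2]
  rw [Valued.toNormedField.norm_lt_one_iff] at hw
  by_cases h0 : Valued.v w = 0
  · rw [h0]
    exact zero_le'
  · rw [← WithZero.exp_log h0] at hw ⊢
    rw [← WithZero.exp_zero, WithZero.exp_lt_exp] at hw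
    rw [WithZero.exp_le_exp]
    omega

end

section

variable {K : Type} [Field K] [NumberField K] [IsCyclotomicExtension {3} ℚ K]

/-- the prime above three -/
lemma ex_lam : ∃ l η : 𝓞 K, Prime l ∧ l = η - 1 ∧ η ^ 2 = -η - 1 ∧
    (∀ x : 𝓞 K, l ∣ x ∨ l ∣ x - 1 ∨ l ∣ x + 1) := by
  have hζ := IsCyclotomicExtension.zeta_spec 3 ℚ K
  have h3 : Fact (Nat.Prime 3) := ⟨Nat.prime_three⟩
  refine ⟨hζ.toInteger - 1, hζ.toInteger, hζ.zeta_sub_one_prime', rfl, ?_, fun x => ?_⟩
  · exact IsCyclotomicExtension.Rat.Three.eta_sq hζ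
  · exact IsCyclotomicExtension.Rat.Three.lambda_dvd_or_dvd_sub_one_or_dvd_add_one hζ x

lemma span_of {l η : 𝓞 K} (hl : Prime l) (hη : l = η - 1) (h2 : η ^ 2 = -η - 1)
    (v : HeightOneSpectrum (𝓞 K)) (hv : ((3 : ℕ) : 𝓞 K) ∈ v.asIdeal) :
    v.asIdeal = Ideal.span {l} := by
  have hmem : l ∈ v.asIdeal := by
    have h4 : l ^ 2 ∈ v.asIdeal := by
      have e : l ^ 2 = ((3 : ℕ) : 𝓞 K) * (-η) := by
        rw [hη]
        push_cast
        linear_combination h2
      rw [e]
      exact v.asIdeal.mul_mem_right _ hv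
    exact v.isPrime.mem_of_pow_mem 2 h4
  have hmax : (Ideal.span {l} : Ideal (𝓞 K)).IsMaximal := by
    have hp : (Ideal.span {l} : Ideal (𝓞 K)).IsPrime :=
      (Ideal.span_singleton_prime hl.ne_zero).2 hl
    exact hp.isMaximal (by
      rw [Ne, Ideal.span_singleton_eq_bot]
      exact hl.ne_zero)
  exact (hmax.eq_of_le v.isPrime.ne_top ((Ideal.span_singleton_le_iff_mem _).2 hmem)).symm

theorem isLoc (v : HeightOneSpectrum (𝓞 K)) (hv : ((3 : ℕ) : 𝓞 K) ∈ v.asIdeal) :
    ∃ lam : v.adicCompletion K, IsLoc lam := by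
  obtain ⟨l, η, hl, hη, h2, hdiv⟩ := ex_lam (K := K)
  have hspan := span_of hl hη h2 v hv
  have hcube : (η : 𝓞 K) ^ 3 = 1 := by linear_combination (η - 1) * h2
  let f : 𝓞 K →+* v.adicCompletion K := ff v
  have hη1 : ‖f η‖ = 1 := by
    have h5 : ‖f η‖ ^ 3 = 1 := by rw [← norm_pow, ← map_pow, hcube, map_one, norm_one]
    exact (pow_eq_one_iff_of_nonneg (norm_nonneg _) (by norm_num)).1 h5
  have hlam : ‖f (l * η)‖ = ‖f l‖ := by rw [map_mul, norm_mul, hη1, mul_one]
  have h3 : ‖(3 : v.adicCompletion K)‖ < 1 := by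
    have := nlt_mem v hv
    rw [map_natCast] at this
    exact_mod_cast this
  have hl1 : ‖f l‖ < 1 := nlt_mem v (by rw [hspan]; exact Ideal.mem_span_singleton_self l)
  refine ⟨f (l * η), ⟨?_, ?_, ?_, ?_, fun x hx => ?_, ?_⟩⟩
  · refine le_antisymm u2 ?_
    by_contra hcon
    rw [not_le] at hcon
    have h6 : ‖(1 : v.adicCompletion K)‖ < 1 := by
      have e : (1 : v.adicCompletion K) = 3 - 2 := by norm_num
      rw [e]
      exact usub_lt h3 hcon
    rw [norm_one] at h6
    exact lt_irrefl _ h6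
  · rw [← map_pow]
    have e : (l * η) ^ 2 = -3 := by
      rw [hη]
      linear_combination (η ^ 2 - 3 * η + 3) * h2
    rw [e, map_neg]
    congr 1
    have := map_ofNat f 3
    exact this
  · rw [hlam, norm_pos_iff]
    intro h0
    have h1 : algebraMap K (v.adicCompletion K) (l : K) = 0 := h0
    rw [map_eq_zero] at h1
    exact hl.ne_zero (NumberField.RingOfIntegers.coe_injective (h1.trans (map_zero _).symm))
  · rw [hlam]
    exact hl1
  · rw [hlam]
    exact disc_of v hl.ne_zero hspan x hx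
  · refine res_of v fun n => ?_
    rw [hspan]
    simp only [Ideal.mem_span_singleton]
    exact hdiv n

/-- the constant of the curve -/
lemma a6_lt {v : HeightOneSpectrum (𝓞 K)} {lam : v.adicCompletion K} (hL : IsLoc lam) {D : 𝓞 K}
    (hD : (3 : 𝓞 K) ∣ D - 1) :
    ‖(ff v D) ^ 2 / 4 - 1‖ < 1 ∧ ‖ff v D + 2‖ < 1 ∧ ‖ff v D - 2‖ = 1 := by
  obtain ⟨c, hc⟩ := hD
  have e : ff v D = 1 + 3 * ff v c := by
    have e1 : D = 1 + 3 * c := by linear_combination hc
    rw [e1, map_add, map_one, map_mul]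
    congr 2
    exact map_ofNat _ 3
  have hc1 := nff_le v c
  have h3c : ‖3 * ff v c‖ < 1 := by
    rw [norm_mul]
    have := hL.three_lt
    nlinarith [norm_nonneg (3 : v.adicCompletion K), norm_nonneg (ff v c)]
  have h2 : ‖ff v D + 2‖ < 1 := by
    have e2 : ff v D + 2 = 3 * ff v c + 3 := by rw [e]; ring
    rw [e2]
    exact uadd_lt h3c hL.three_lt
  have h4 : ‖ff v D - 2‖ = 1 := by
    have e2 : ff v D - 2 = -4 + (ff v D + 2) := by ring
    rw [e2, uadd_eq, norm_neg, hL.four]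
    rw [norm_neg, hL.four]
    exact h2
  refine ⟨?_, h2, h4⟩
  have h40 : (4 : v.adicCompletion K) ≠ 0 := hL.th.four_ne
  have e3 : ff v D ^ 2 / 4 - 1 = (ff v D - 2) * (ff v D + 2) / 4 := by
    field_simp
    ring
  rw [e3, norm_div, norm_mul, h4, hL.four, one_mul, div_one]
  exact h2

lemma nine_of {v : HeightOneSpectrum (𝓞 K)} (hv : ((3 : ℕ) : 𝓞 K) ∈ v.asIdeal)
    {lam : v.adicCompletion K} (hL : IsLoc lam) {D : 𝓞 K} (hD : (3 : 𝓞 K) ∣ D - 1)
    (h : ‖(ff v D) ^ 2 / 4 - 1‖ ≤ ‖(9 : v.adicCompletion K)‖) : (9 : 𝓞 K) ∣ D + 2 := by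
  obtain ⟨-, h2, h4⟩ := a6_lt hL hD
  obtain ⟨l, η, hl, hη, hη2, hdiv⟩ := ex_lam (K := K)
  have h40 : (4 : v.adicCompletion K) ≠ 0 := hL.th.four_ne
  have e3 : ff v D ^ 2 / 4 - 1 = (ff v D - 2) * (ff v D + 2) / 4 := by
    field_simp
    ring
  rw [e3, norm_div, norm_mul, h4, hL.four, one_mul, div_one] at h
  have h9' : (9 : v.adicCompletion K) ≠ 0 := by
    have : (9 : v.adicCompletion K) = 3 ^ 2 := by norm_num
    rw [this]
    exact pow_ne_zero 2 hL.three_ne
  have hq : ∀ w : HeightOneSpectrum (𝓞 K),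
      w.valuation K (algebraMap (𝓞 K) K (D + 2) / algebraMap (𝓞 K) K 9) ≤ 1 := by
    intro w
    by_cases hw : ((3 : ℕ) : 𝓞 K) ∈ w.asIdeal
    · have hwv : w = v := by
        apply HeightOneSpectrum.ext
        rw [span_of hl hη hη2 w hw, span_of hl hη hη2 v hv]
      rw [hwv, ← nle' v, map_div₀, norm_div]
      have e9 : algebraMap K (v.adicCompletion K) (algebraMap (𝓞 K) K 9) = 9 :=
        map_ofNat (ff v) 9
      have eD : algebraMap K (v.adicCompletion K) (algebraMap (𝓞 K) K (D + 2)) = ff v D + 2 := by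
        have : ff v (D + 2) = ff v D + 2 := by
          rw [map_add]
          congr 1
          exact map_ofNat _ 2
        exact this
      rw [e9, eD, div_le_one (norm_pos_iff.2 h9')]
      exact h
    · rw [map_div₀]
      have h5 : w.valuation K (algebraMap (𝓞 K) K 9) = 1 := by
        have e : (9 : 𝓞 K) = ((3 : ℕ) : 𝓞 K) ^ 2 := by
          norm_num
        rw [e]
        refine (w.valuation_eq_one_iff_notMem (K := K)).2 fun hmem => hw ?_
        exact w.isPrime.mem_of_pow_mem 2 hmem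
      rw [h5, div_one]
      exact w.valuation_le_one (K := K) (D + 2)
  obtain ⟨q, hq'⟩ := HeightOneSpectrum.mem_integers_of_valuation_le_one K _ hq
  refine ⟨q, ?_⟩
  apply IsFractionRing.injective (𝓞 K) K
  have h9 : algebraMap (𝓞 K) K 9 ≠ 0 := by
    rw [map_ofNat]
    norm_num
  rw [map_mul, hq', mul_div_cancel₀ _ h9]

end

end Pool.Agent.R419.ST
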