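import Pool.Agent.TH954.NB
import Pool.Agent.TH954.Near
import Pool.Agent.TH954.LocKey

/-!
# Points of order prime to three on `y² = x³ + c` over the completion of `ℚ(√-3)` at the prime above three
-/

set_option autoImplicit false
set_option linter.all false

open WeierstrassCurve

namespace Pool.Agent.R419.ST

open Pool.Agent.TH954

open scoped Classical

section

variable {F : Type} [Field F] {W : WeierstrassCurve F}

/-- doubling -/
lemma dbl (hW : Short W) (h4 : W.a₄ = 0) (h2 : (2 : F) ≠ 0) {x y : F}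
    (n : W.toAffine.Nonsingular x y) (hy : y ≠ 0) :
    ∃ X Y n', Affine.Point.some x y n + Affine.Point.some x y n =
      (Affine.Point.some X Y n' : W.toAffine.Point) ∧
      X = (3 * x ^ 2 / (2 * y)) ^ 2 - 2 * x ∧ Y = -(3 * x ^ 2 / (2 * y) * (X - x) + y) := by
  have hne : y ≠ W.toAffine.negY x y := by
    rw [hW.negY]
    intro h
    apply hy
    have : 2 * y = 0 := by linear_combination h
    exact (mul_eq_zero.1 this).resolve_left h2
  have h := Affine.Point.add_self_of_Y_ne (h₁ := n) hne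
  have hs : W.toAffine.slope x x y y = 3 * x ^ 2 / (2 * y) := by
    rw [Affine.slope_of_Y_ne rfl hne, hW.negY, hW.h1, hW.h2, h4]
    congr 1 <;> ring
  have hX : W.toAffine.addX x x (W.toAffine.slope x x y y) = (3 * x ^ 2 / (2 * y)) ^ 2 - 2 * x := by
    rw [hs, Affine.addX, hW.h1, hW.h2]
    ring
  have hY : W.toAffine.addY x x y (W.toAffine.slope x x y y) =
      -(3 * x ^ 2 / (2 * y) * (W.toAffine.addX x x (W.toAffine.slope x x y y) - x) + y) := by
    rw [Affine.addY, Affine.negAddY, hW.negY, hs]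
  exact ⟨_, _, _, h, hX, hY⟩

/-- tripling -/
lemma tpl (hW : Short W) (h4 : W.a₄ = 0) (h2 : (2 : F) ≠ 0) {x y : F}
    (n : W.toAffine.Nonsingular x y) (hy : y ≠ 0) :
    3 • Affine.Point.some x y n = (0 : W.toAffine.Point) ∨
      (3 * x * (x ^ 3 + 4 * W.a₆) ≠ 0 ∧ ∃ X Y n', 3 • Affine.Point.some x y n =
        (Affine.Point.some X Y n' : W.toAffine.Point) ∧
        X = (8 * y ^ 3 / (3 * x * (x ^ 3 + 4 * W.a₆)) - 3 * x ^ 2 / (2 * y)) ^ 2 -
          ((3 * x ^ 2 / (2 * y)) ^ 2 - 2 * x) - x) := by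
  obtain ⟨X, Y, n', h, hX, hY⟩ := dbl hW h4 h2 n hy
  have he := hW.eqn n
  rw [h4, zero_mul, add_zero] at he
  have h3 : 3 • Affine.Point.some x y n = Affine.Point.some X Y n' + Affine.Point.some x y n := by
    rw [← h]
    abel
  have h2y : 2 * y ≠ 0 := mul_ne_zero h2 hy
  have hXx : (X - x) * (4 * y ^ 2) = -(3 * x * (x ^ 3 + 4 * W.a₆)) := by
    rw [hX]
    field_simp
    linear_combination (-48 * x) * he
  have h4y : 4 * y ^ 2 ≠ 0 := by
    have : 4 * y ^ 2 = (2 * y) ^ 2 := by ring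
    rw [this]
    exact pow_ne_zero 2 h2y
  by_cases hψ : 3 * x * (x ^ 3 + 4 * W.a₆) = 0
  · left
    rw [hψ, neg_zero, mul_eq_zero] at hXx
    have hx : X = x := sub_eq_zero.1 (hXx.resolve_right h4y)
    subst hx
    rw [h3]
    refine Affine.Point.add_of_Y_eq rfl ?_
    rw [hW.negY, hY, sub_self, mul_zero, zero_add]
  · right
    refine ⟨hψ, ?_⟩
    have hne : X ≠ x := by
      intro hx
      apply hψ
      rw [hx, sub_self, zero_mul] at hXx
      exact (neg_eq_zero.1 hXx.symm)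
    have hXx0 : X - x ≠ 0 := sub_ne_zero.2 hne
    have h5 := Affine.Point.add_of_X_ne (h₁ := n') (h₂ := n) hne
    refine ⟨_, _, _, h3.trans h5, ?_⟩
    rw [Affine.slope_of_X_ne hne, Affine.addX, hW.h1, hW.h2]
    have hs : (Y - y) / (X - x) = 8 * y ^ 3 / (3 * x * (x ^ 3 + 4 * W.a₆)) - 3 * x ^ 2 / (2 * y) := by
      have e1 : (Y - y) / (X - x) = -(2 * y) / (X - x) - 3 * x ^ 2 / (2 * y) := by
        rw [hY]
        field_simp
        ring
      rw [e1]
      congr 1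
      rw [div_eq_div_iff hXx0 hψ]
      linear_combination (-2 * y) * hXx
    rw [hs, ← hX]
    ring

end

section

variable {L : Type} [NormedField L] [IsUltrametricDist L]

/-- three is small and two is a unit -/
structure Th (L : Type) [NormedField L] : Prop where
  two : ‖(2 : L)‖ = 1
  three_pos : 0 < ‖(3 : L)‖
  three_lt : ‖(3 : L)‖ < 1

lemma Th.two_ne (h : Th L) : (2 : L) ≠ 0 := by
  intro h0
  have := h.two
  rw [h0, norm_zero] at this
  norm_num at this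

lemma Th.four (h : Th L) : ‖(4 : L)‖ = 1 := by
  have : (4 : L) = 2 ^ 2 := by norm_num
  rw [this, norm_pow, h.two, one_pow]

lemma Th.four_ne (h : Th L) : (4 : L) ≠ 0 := by
  have : (4 : L) = 2 ^ 2 := by norm_num
  rw [this]
  exact pow_ne_zero 2 h.two_ne

lemma Th.eight (h : Th L) : ‖(8 : L)‖ = 1 := by
  have : (8 : L) = 2 ^ 3 := by norm_num
  rw [this, norm_pow, h.two, one_pow]

/-- a field like the completion of `ℚ(√-3)` at the prime above three -/
structure IsLoc (lam : L) : Prop where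
  two : ‖(2 : L)‖ = 1
  sq : lam ^ 2 = -3
  pos : 0 < ‖lam‖
  lt : ‖lam‖ < 1
  disc : ∀ x : L, ‖x‖ < 1 → ‖x‖ ≤ ‖lam‖
  res : ∀ x : L, ‖x‖ ≤ 1 → ‖x‖ < 1 ∨ ‖x - 1‖ < 1 ∨ ‖x + 1‖ < 1

variable {lam : L} {W : WeierstrassCurve L}

lemma IsLoc.three (h : IsLoc lam) : ‖(3 : L)‖ = ‖lam‖ ^ 2 := by
  rw [← norm_pow, h.sq, norm_neg]

lemma IsLoc.two_ne (h : IsLoc lam) : (2 : L) ≠ 0 := by
  intro h0
  have := h.two
  rw [h0, norm_zero] at this
  norm_num at this

lemma IsLoc.lam_ne (h : IsLoc lam) : lam ≠ 0 := norm_pos_iff.1 h.pos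

lemma IsLoc.three_pos (h : IsLoc lam) : 0 < ‖(3 : L)‖ := by
  rw [h.three]
  exact pow_pos h.pos 2

lemma IsLoc.three_lt (h : IsLoc lam) : ‖(3 : L)‖ < 1 := by
  rw [h.three]
  exact pow_lt_one₀ h.pos.le h.lt (by norm_num)

lemma IsLoc.three_ne (h : IsLoc lam) : (3 : L) ≠ 0 := norm_pos_iff.1 h.three_pos

lemma IsLoc.th (h : IsLoc lam) : Th L := ⟨h.two, h.three_pos, h.three_lt⟩

lemma IsLoc.four (h : IsLoc lam) : ‖(4 : L)‖ = 1 := by
  have : (4 : L) = 2 ^ 2 := by norm_num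
  rw [this, norm_pow, h.two, one_pow]

lemma IsLoc.eight (h : IsLoc lam) : ‖(8 : L)‖ = 1 := by
  have : (8 : L) = 2 ^ 3 := by norm_num
  rw [this, norm_pow, h.two, one_pow]

/-- multiplication by three near the origin -/
lemma big_three (hL : Th L) (hW : SI W) (h4 : W.a₄ = 0) {R : ℝ} (hR : 1 < R)
    {T : W.toAffine.Point} (hT : Big R T) : Big (R / ‖(3 : L)‖ ^ 2) (3 • T) := by
  match T with
  | .zero =>
    have : (3 • Affine.Point.zero : W.toAffine.Point) = 0 := smul_zero 3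
    rw [this]
    exact big_zero _
  | .some x y n =>
    have hx := big_some.mp hT
    have hx1 : 1 < ‖x‖ := hR.trans_le hx
    have hx0 : 0 < ‖x‖ := zero_lt_one.trans hx1
    have hy0 : y ≠ 0 := norm_pos_iff.mp (hW.norm_y_pos n hx1)
    rcases tpl hW.toShort h4 hL.two_ne n hy0 with h | ⟨hψ, X, Y, n', h, hX⟩
    · rw [h]
      exact big_zero _
    · rw [h, big_some]
      have hy2 := hW.norm_y_eq n hx1
      have t0 := hL.three_pos
      have t1 := hL.three_lt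
      have e1 : ‖x ^ 3 + 4 * W.a₆‖ = ‖x‖ ^ 3 := by
        rw [uadd_eq, norm_pow]
        rw [norm_pow, norm_mul, hL.four, one_mul]
        exact lt_of_le_of_lt hW.hb (one_lt_pow₀ hx1 (by norm_num))
      have e2 : ‖3 * x * (x ^ 3 + 4 * W.a₆)‖ = ‖(3 : L)‖ * ‖x‖ ^ 4 := by
        rw [norm_mul, norm_mul, e1]
        ring
      have hyp : 0 < ‖y‖ := norm_pos_iff.2 hy0
      have e3 : ‖8 * y ^ 3 / (3 * x * (x ^ 3 + 4 * W.a₆))‖ = ‖y‖ ^ 3 / (‖(3 : L)‖ * ‖x‖ ^ 4) := by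
        rw [norm_div, norm_mul, norm_pow, hL.eight, one_mul, e2]
      have e4 : ‖3 * x ^ 2 / (2 * y)‖ = ‖(3 : L)‖ * ‖x‖ ^ 2 / ‖y‖ := by
        rw [norm_div, norm_mul, norm_mul, norm_pow, hL.two, one_mul]
      have hlt : ‖3 * x ^ 2 / (2 * y)‖ < ‖8 * y ^ 3 / (3 * x * (x ^ 3 + 4 * W.a₆))‖ := by
        rw [e3, e4, div_lt_div_iff₀ hyp (by positivity)]
        have e5 : ‖y‖ ^ 3 * ‖y‖ = ‖x‖ ^ 6 := by
          calc ‖y‖ ^ 3 * ‖y‖ = (‖y‖ ^ 2) ^ 2 := by ring
            _ = (‖x‖ ^ 3) ^ 2 := by rw [hy2]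
            _ = ‖x‖ ^ 6 := by ring
        rw [e5]
        have e6 : ‖(3 : L)‖ * ‖x‖ ^ 2 * (‖(3 : L)‖ * ‖x‖ ^ 4) = ‖(3 : L)‖ ^ 2 * ‖x‖ ^ 6 := by ring
        rw [e6]
        have : ‖(3 : L)‖ ^ 2 < 1 := pow_lt_one₀ t0.le t1 (by norm_num)
        have hx6 : 0 < ‖x‖ ^ 6 := by positivity
        nlinarith
      have e7 : ‖8 * y ^ 3 / (3 * x * (x ^ 3 + 4 * W.a₆)) - 3 * x ^ 2 / (2 * y)‖ ^ 2 =
          ‖x‖ / ‖(3 : L)‖ ^ 2 := by
        rw [usub_eq hlt, e3, div_pow]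
        rw [div_eq_div_iff (by positivity) (by positivity)]
        calc (‖y‖ ^ 3) ^ 2 * ‖(3 : L)‖ ^ 2 = (‖y‖ ^ 2) ^ 3 * ‖(3 : L)‖ ^ 2 := by ring
          _ = (‖x‖ ^ 3) ^ 3 * ‖(3 : L)‖ ^ 2 := by rw [hy2]
          _ = ‖x‖ * (‖(3 : L)‖ * ‖x‖ ^ 4) ^ 2 := by ring
      have hbig : ‖x‖ < ‖x‖ / ‖(3 : L)‖ ^ 2 := by
        rw [lt_div_iff₀ (by positivity)]
        have : ‖(3 : L)‖ ^ 2 < 1 := pow_lt_one₀ t0.le t1 (by norm_num)
        nlinarith
      have e8 : ‖(3 * x ^ 2 / (2 * y)) ^ 2‖ ≤ ‖x‖ := by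
        rw [norm_pow, e4, div_pow, hy2, div_le_iff₀ (by positivity)]
        have : ‖(3 : L)‖ ^ 2 < 1 := pow_lt_one₀ t0.le t1 (by norm_num)
        have hx4 : 0 < ‖x‖ ^ 4 := by positivity
        calc (‖(3 : L)‖ * ‖x‖ ^ 2) ^ 2 = ‖(3 : L)‖ ^ 2 * ‖x‖ ^ 4 := by ring
          _ ≤ 1 * ‖x‖ ^ 4 := mul_le_mul_of_nonneg_right this.le hx4.le
          _ = ‖x‖ * ‖x‖ ^ 3 := by ring
      have e9 : ‖(3 * x ^ 2 / (2 * y)) ^ 2 - 2 * x + x‖ ≤ ‖x‖ :=
        uadd (usub e8 (by rw [norm_mul, hL.two, one_mul])) le_rfl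
      have hXn : ‖X‖ = ‖x‖ / ‖(3 : L)‖ ^ 2 := by
        rw [hX, sub_sub, usub_eq]
        · rw [norm_pow, e7]
        · rw [norm_pow, e7]
          exact e9.trans_lt hbig
      rw [hXn]
      gcongr

lemma big_three_pow (hL : Th L) (hW : SI W) (h4 : W.a₄ = 0) {R : ℝ} (hR : 1 < R)
    {T : W.toAffine.Point} (hT : Big R T) :
    ∀ j : ℕ, Big (R * ((‖(3 : L)‖ ^ 2)⁻¹) ^ j) (3 ^ j • T)
  | 0 => by
    rw [pow_zero, mul_one, pow_zero, one_nsmul]
    exact hT
  | j + 1 => by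
    have h1 := big_three_pow hL hW h4 hR hT j
    have hq : 1 ≤ (‖(3 : L)‖ ^ 2)⁻¹ := by
      rw [one_le_inv₀ (pow_pos hL.three_pos 2)]
      exact (pow_lt_one₀ hL.three_pos.le hL.three_lt (by norm_num)).le
    have h3 : 1 < R * ((‖(3 : L)‖ ^ 2)⁻¹) ^ j := by
      have : 1 ≤ ((‖(3 : L)‖ ^ 2)⁻¹) ^ j := one_le_pow₀ hq
      nlinarith
    have h5 := big_three hL hW h4 h3 h1
    rw [pow_succ 3 j, mul_comm (3 ^ j) 3, mul_smul, pow_succ, ← mul_assoc, ← div_eq_mul_inv]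
    exact h5

lemma zero_of_big' {T : W.toAffine.Point} (h : ∀ R : ℝ, 1 < R → Big R T) : T = 0 := by
  match T with
  | .zero => rfl
  | .some x y n =>
    exfalso
    have h1 := big_some.mp (h (‖x‖ + 2) (by linarith [norm_nonneg x]))
    linarith

lemma ratio_gt (hL : Th L) : 1 < (‖(3 : L)‖ ^ 2)⁻¹ := by
  rw [one_lt_inv₀ (pow_pos hL.three_pos 2)]
  exact pow_lt_one₀ hL.three_pos.le hL.three_lt (by norm_num)

/-- the points of order prime to three -/
def Pr (T : W.toAffine.Point) : Prop := ∃ m : ℕ, ¬ 3 ∣ m ∧ m • T = 0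

lemma Pr.nsmul {T : W.toAffine.Point} (h : Pr T) (k : ℕ) : Pr (k • T) := by
  obtain ⟨m, hm, h⟩ := h
  refine ⟨m, hm, ?_⟩
  rw [← mul_smul, mul_comm, mul_smul, h, smul_zero]

/-- points of order prime to three are not close to the origin -/
lemma pr_big (hL : Th L) (hW : SI W) (h4 : W.a₄ = 0) {R : ℝ} (hR : 1 < R)
    {T : W.toAffine.Point} (hT : Big R T) (h : Pr T) : T = 0 := by
  obtain ⟨m, hm, h⟩ := h
  refine zero_of_big' fun R' hR' => ?_
  have hc : Nat.Coprime 3 m := (Nat.Prime.coprime_iff_not_dvd Nat.prime_three).2 hm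
  have hm0 : 0 < m := Nat.pos_of_ne_zero (by rintro rfl; exact hm (dvd_zero 3))
  obtain ⟨r, hr⟩ := pow_unbounded_of_one_lt R' (ratio_gt hL)
  have hpos : 0 < Nat.totient m := Nat.totient_pos.2 hm0
  have h1 : 3 ^ (Nat.totient m * r) ≡ 1 [MOD m] := by
    rw [pow_mul]
    have := (Nat.ModEq.pow_totient hc).pow r
    rwa [one_pow] at this
  have h3 : 3 ^ (Nat.totient m * r) • T = T := by
    have h5 : 1 ≤ 3 ^ (Nat.totient m * r) := Nat.one_le_pow _ _ (by norm_num)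
    obtain ⟨c, hc'⟩ := (Nat.modEq_iff_dvd' h5).1 h1.symm
    have e : 3 ^ (Nat.totient m * r) = c * m + 1 := by
      rw [mul_comm c m, ← hc']
      omega
    rw [e, add_smul, mul_smul, h, smul_zero, zero_add, one_smul]
  rw [← h3]
  refine big_mono ?_ (big_three_pow hL hW h4 hR hT (Nat.totient m * r))
  have h6 : ((‖(3 : L)‖ ^ 2)⁻¹) ^ r ≤ ((‖(3 : L)‖ ^ 2)⁻¹) ^ (Nat.totient m * r) :=
    pow_le_pow_right₀ (ratio_gt hL).le (Nat.le_mul_of_pos_left r hpos)
  have h7 : (0 : ℝ) < ((‖(3 : L)‖ ^ 2)⁻¹) ^ (Nat.totient m * r) := by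
    have := ratio_gt hL
    positivity
  nlinarith

lemma pr_some (hL : Th L) (hW : SI W) (h4 : W.a₄ = 0) {x y : L}
    {n : W.toAffine.Nonsingular x y} (h : Pr (Affine.Point.some x y n : W.toAffine.Point)) :
    ‖x‖ ≤ 1 := by
  by_contra hx
  rw [not_le] at hx
  exact Affine.Point.some_ne_zero n (pr_big hL hW h4 hx (big_some.2 le_rfl) h)

lemma pr_three {T : W.toAffine.Point} (h : Pr T) (h3 : 3 • T = 0) : T = 0 := by
  obtain ⟨m, hm, h⟩ := h
  have hc : Nat.Coprime 3 m := (Nat.Prime.coprime_iff_not_dvd Nat.prime_three).2 hm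
  have h1 : addOrderOf T ∣ Nat.gcd 3 m := Nat.dvd_gcd (addOrderOf_dvd_iff_nsmul_eq_zero.2 h3)
    (addOrderOf_dvd_iff_nsmul_eq_zero.2 h)
  rw [hc] at h1
  exact AddMonoid.addOrderOf_eq_one_iff.1 (Nat.dvd_one.1 h1)

/-- no point of order prime to three has large slope -/
lemma no_slope (hL : Th L) (hW : SI W) (h4 : W.a₄ = 0) {x y : L}
    {n : W.toAffine.Nonsingular x y} (h : Pr (Affine.Point.some x y n : W.toAffine.Point))
    (hy : y ≠ 0) (hx : ‖x‖ ≤ 1) (h1 : ‖3 * x ^ 2 / (2 * y)‖ ≤ 1)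
    (h2 : 3 * x * (x ^ 3 + 4 * W.a₆) ≠ 0 →
      1 < ‖8 * y ^ 3 / (3 * x * (x ^ 3 + 4 * W.a₆))‖) : False := by
  rcases tpl hW.toShort h4 hL.two_ne n hy with h3 | ⟨hψ, X, Y, n', h3, hX⟩
  · exact Affine.Point.some_ne_zero n (pr_three h h3)
  · have hs := h2 hψ
    have hs2 : 1 < ‖8 * y ^ 3 / (3 * x * (x ^ 3 + 4 * W.a₆)) - 3 * x ^ 2 / (2 * y)‖ := by
      rw [usub_eq (h1.trans_lt hs)]
      exact hs
    have hs3 : 1 < ‖(8 * y ^ 3 / (3 * x * (x ^ 3 + 4 * W.a₆)) - 3 * x ^ 2 / (2 * y)) ^ 2‖ := by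
      rw [norm_pow]
      exact one_lt_pow₀ hs2 (by norm_num)
    have e9 : ‖(3 * x ^ 2 / (2 * y)) ^ 2 - 2 * x + x‖ ≤ 1 := by
      refine uadd (usub ?_ ?_) hx
      · rw [norm_pow]
        exact pow_le_one₀ (norm_nonneg _) h1
      · rw [norm_mul, hL.two, one_mul]
        exact hx
    have hX1 : 1 < ‖X‖ := by
      rw [hX, sub_sub, usub_eq (e9.trans_lt hs3)]
      exact hs3
    have h5 := h.nsmul 3
    rw [h3] at h5
    exact absurd (pr_some hL hW h4 h5) (not_le.2 hX1)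

lemma a6_norm (hc : ‖W.a₆ - 1‖ < 1) : ‖W.a₆‖ = 1 := by
  have : W.a₆ = 1 + (W.a₆ - 1) := by ring
  rw [this, uadd_eq, norm_one]
  rw [norm_one]
  exact hc

/-- nonsingular reduction -/
lemma caseA (hL : Th L) (hW : SI W) (h4 : W.a₄ = 0) (hc : ‖W.a₆ - 1‖ < 1) {x y : L}
    {n : W.toAffine.Nonsingular x y} (h : Pr (Affine.Point.some x y n : W.toAffine.Point))
    (hx : ‖x‖ < 1) : False := by
  have he := hW.toShort.eqn n
  rw [h4, zero_mul, add_zero] at he
  have hc1 := a6_norm hc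
  have hx3 : ‖x ^ 3‖ < 1 := by
    rw [norm_pow]
    exact pow_lt_one₀ (norm_nonneg _) hx (by norm_num)
  have hy2 : ‖y‖ ^ 2 = 1 := by
    rw [← norm_pow, he, add_comm, uadd_eq, hc1]
    rw [hc1]
    exact hx3
  have hy : ‖y‖ = 1 := (pow_eq_one_iff_of_nonneg (norm_nonneg _) (by norm_num)).1 hy2
  have hy0 : y ≠ 0 := by
    intro h0
    rw [h0, norm_zero] at hy
    norm_num at hy
  have t1 := hL.three_lt
  refine no_slope hL hW h4 h hy0 hx.le ?_ fun hψ => ?_
  · rw [norm_div, norm_mul, norm_mul, hL.two, hy, norm_pow, mul_one, div_one]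
    have : ‖x‖ ^ 2 ≤ 1 := pow_le_one₀ (norm_nonneg _) hx.le
    nlinarith [norm_nonneg (3 : L), sq_nonneg ‖x‖]
  · have e1 : ‖3 * x * (x ^ 3 + 4 * W.a₆)‖ < 1 := by
      rw [norm_mul, norm_mul]
      have e2 : ‖x ^ 3 + 4 * W.a₆‖ ≤ 1 := uadd hx3.le (by rw [norm_mul, hL.four, hc1, one_mul])
      have e3 : ‖(3 : L)‖ * ‖x‖ < 1 := by nlinarith [norm_nonneg (3 : L), norm_nonneg x]
      have e4 : 0 ≤ ‖(3 : L)‖ * ‖x‖ := by positivity
      nlinarith [norm_nonneg (x ^ 3 + 4 * W.a₆)]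
    rw [norm_div, norm_mul, norm_pow, hL.eight, hy, one_pow, mul_one]
    rw [one_lt_div (norm_pos_iff.2 hψ)]
    exact e1

/-- the residues are `0`, `1`, `-1` -/
def Res (L : Type) [NormedField L] : Prop :=
  ∀ x : L, ‖x‖ ≤ 1 → ‖x‖ < 1 ∨ ‖x - 1‖ < 1 ∨ ‖x + 1‖ < 1

lemma res_sq (hR : Res L) {x : L} (hx : ‖x‖ = 1) : ‖x ^ 2 - 1‖ < 1 := by
  have e : x ^ 2 - 1 = (x - 1) * (x + 1) := by ring
  rw [e, norm_mul]
  have h1 : ‖x - 1‖ ≤ 1 := usub hx.le (by rw [norm_one])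
  have h2 : ‖x + 1‖ ≤ 1 := uadd hx.le (by rw [norm_one])
  rcases hR x hx.le with h | h | h
  · exact absurd hx h.ne
  · nlinarith [norm_nonneg (x - 1), norm_nonneg (x + 1)]
  · nlinarith [norm_nonneg (x - 1), norm_nonneg (x + 1)]

lemma res_cube (hR : Res L) {x : L} (hx : ‖x‖ ≤ 1) : ‖x ^ 3 - x‖ < 1 := by
  have e : x ^ 3 - x = x * ((x - 1) * (x + 1)) := by ring
  rw [e, norm_mul, norm_mul]
  have h1 : ‖x - 1‖ ≤ 1 := usub hx (by rw [norm_one])
  have h2 : ‖x + 1‖ ≤ 1 := uadd hx (by rw [norm_one])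
  have n0 := norm_nonneg x
  have n1 := norm_nonneg (x - 1)
  have n2 := norm_nonneg (x + 1)
  rcases hR x hx with h | h | h
  · have : ‖x - 1‖ * ‖x + 1‖ ≤ 1 := by nlinarith
    nlinarith [mul_nonneg n1 n2]
  · have : ‖x - 1‖ * ‖x + 1‖ < 1 := by nlinarith
    nlinarith [mul_nonneg n1 n2]
  · have : ‖x - 1‖ * ‖x + 1‖ < 1 := by nlinarith
    nlinarith [mul_nonneg n1 n2]

/-- the points of order prime to three reduce to the singular point -/
lemma classify (hL : Th L) (hR : Res L) (hW : SI W) (h4 : W.a₄ = 0) (hc : ‖W.a₆ - 1‖ < 1)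
    {x y : L} {n : W.toAffine.Nonsingular x y}
    (h : Pr (Affine.Point.some x y n : W.toAffine.Point)) :
    ‖x + 1‖ < 1 ∧ ‖x‖ = 1 ∧ ‖y‖ < 1 := by
  have hx1 := pr_some hL hW h4 h
  have he := hW.toShort.eqn n
  rw [h4, zero_mul, add_zero] at he
  have hxm : ‖x + 1‖ < 1 := by
    rcases hR x hx1 with hx | hx | hx
    · exact (caseA hL hW h4 hc h hx).elim
    · exfalso
      have hy1 := hW.norm_y_le_one n hx1
      have e1 : ‖y ^ 2 - 2‖ < 1 := by
        have : y ^ 2 - 2 = (x - 1) * (x ^ 2 + x + 1) + (W.a₆ - 1) := by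
          rw [he]
          ring
        rw [this]
        refine uadd_lt ?_ hc
        rw [norm_mul]
        have : ‖x ^ 2 + x + 1‖ ≤ 1 := by
          refine uadd (uadd ?_ hx1) (by rw [norm_one])
          rw [norm_pow]
          exact pow_le_one₀ (norm_nonneg _) hx1
        nlinarith [norm_nonneg (x - 1), norm_nonneg (x ^ 2 + x + 1)]
      rcases eq_or_lt_of_le hy1 with hy | hy
      · have e2 := res_sq hR hy
        have e3 : ‖(1 : L)‖ < 1 := by
          have : (1 : L) = (y ^ 2 - 1) - (y ^ 2 - 2) := by ring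
          rw [this]
          exact usub_lt e2 e1
        rw [norm_one] at e3
        exact lt_irrefl _ e3
      · have e2 : ‖y ^ 2‖ < 1 := by
          rw [norm_pow]
          exact pow_lt_one₀ (norm_nonneg _) hy (by norm_num)
        have e3 : ‖(2 : L)‖ < 1 := by
          have : (2 : L) = y ^ 2 - (y ^ 2 - 2) := by ring
          rw [this]
          exact usub_lt e2 e1
        rw [hL.two] at e3
        exact lt_irrefl _ e3
    · exact hx
  have hxn : ‖x‖ = 1 := by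
    have : x = -1 + (x + 1) := by ring
    rw [this, uadd_eq, norm_neg, norm_one]
    rw [norm_neg, norm_one]
    exact hxm
  have hy2 : ‖y ^ 2‖ < 1 := by
    have : y ^ 2 = (x + 1) * (x ^ 2 - x + 1) + (W.a₆ - 1) := by
      rw [he]
      ring
    rw [this]
    refine uadd_lt ?_ hc
    rw [norm_mul]
    have : ‖x ^ 2 - x + 1‖ ≤ 1 := by
      refine uadd (usub ?_ hx1) (by rw [norm_one])
      rw [norm_pow]
      exact pow_le_one₀ (norm_nonneg _) hx1
    nlinarith [norm_nonneg (x + 1), norm_nonneg (x ^ 2 - x + 1)]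
  refine ⟨hxm, hxn, ?_⟩
  by_contra hcon
  rw [not_lt] at hcon
  rw [norm_pow] at hy2
  exact absurd hy2 (not_lt.2 (one_le_pow₀ hcon))

/-- there are no such points with `y = -3 w`, `w ≠ 0` -/
lemma lastC (hL : Th L) (hR : Res L) (hW : SI W) (h4 : W.a₄ = 0) (hc : ‖W.a₆ - 1‖ < 1)
    {x y : L} {n : W.toAffine.Nonsingular x y}
    (h : Pr (Affine.Point.some x y n : W.toAffine.Point)) (hxm : ‖x + 1‖ < 1) (hxn : ‖x‖ = 1)
    (hy0 : y ≠ 0) {w : L} (hyw : y = -3 * w) (hw0 : w ≠ 0) (hw1 : ‖w‖ ≤ 1) : False := by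
  have h4' : (4 : L) ≠ 0 := by
    intro h0
    have := hL.four
    rw [h0, norm_zero] at this
    norm_num at this
  obtain ⟨X, Y, n', h2, hX, -⟩ := dbl hW.toShort h4 hL.two_ne n hy0
  have hX' : X = x ^ 4 / (4 * w ^ 2) - 2 * x := by
    rw [hX, hyw]
    have h3 : (3 : L) ≠ 0 := norm_pos_iff.1 hL.three_pos
    have h2' := hL.two_ne
    field_simp
    ring
  have h5 := h.nsmul 2
  rw [two_nsmul, h2] at h5
  have hX1 := pr_some hL hW h4 h5
  have e3 : ‖x ^ 4 / (4 * w ^ 2)‖ = 1 / ‖w‖ ^ 2 := by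
    rw [norm_div, norm_pow, norm_mul, norm_pow, hL.four, hxn, one_pow, one_mul]
  rcases eq_or_lt_of_le hw1 with hwn | hwn
  · refine caseA hL hW h4 hc h5 ?_
    have e4 : X = ((x ^ 4 - 1) - (w ^ 2 - 1) - 3 * w ^ 2) / (4 * w ^ 2) + 3 - 2 * (x + 1) := by
      rw [hX']
      field_simp
      ring
    rw [e4]
    have e5 := res_sq hR hwn
    have e6 : ‖x ^ 4 - 1‖ < 1 := by
      have : x ^ 4 - 1 = (x ^ 2 - 1) * (x ^ 2 + 1) := by ring
      rw [this, norm_mul]
      have h6 := res_sq hR hxn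
      have h7 : ‖x ^ 2 + 1‖ ≤ 1 := uadd (by rw [norm_pow, hxn, one_pow]) (by rw [norm_one])
      nlinarith [norm_nonneg (x ^ 2 - 1), norm_nonneg (x ^ 2 + 1)]
    have e7 : ‖3 * w ^ 2‖ < 1 := by
      rw [norm_mul, norm_pow, hwn, one_pow, mul_one]
      exact hL.three_lt
    refine usub_lt (uadd_lt ?_ hL.three_lt) ?_
    · rw [norm_div, norm_mul, norm_pow, hL.four, hwn, one_pow, one_mul, div_one]
      exact usub_lt (usub_lt e6 e5) e7
    · rw [norm_mul, hL.two, one_mul]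
      exact hxm
  · have hwp : 0 < ‖w‖ := norm_pos_iff.2 hw0
    have e4 : 1 < ‖x ^ 4 / (4 * w ^ 2)‖ := by
      rw [e3, one_lt_div (by positivity)]
      exact pow_lt_one₀ hwp.le hwn (by norm_num)
    have e5 : ‖X‖ = ‖x ^ 4 / (4 * w ^ 2)‖ := by
      rw [hX', usub_eq]
      rw [norm_mul, hL.two, hxn, one_mul]
      exact e4
    rw [e5] at hX1
    linarith

lemma two_zero (hW : SI W) {x y : L} {n : W.toAffine.Nonsingular x y} (hy0 : y = 0) :
    2 • (Affine.Point.some x y n : W.toAffine.Point) = 0 := by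
  rw [two_nsmul]
  refine Affine.Point.add_of_Y_eq rfl ?_
  rw [hW.toShort.negY, hy0, neg_zero]

/-- **Points of order prime to three have order two**, and there are none but the origin if `c` is not
`1` modulo `9`. -/
theorem two_of (hL : IsLoc lam) (hW : SI W) (h4 : W.a₄ = 0) (hc : ‖W.a₆ - 1‖ < 1)
    {T : W.toAffine.Point} (h : Pr T) : 2 • T = 0 ∧ (T ≠ 0 → ‖W.a₆ - 1‖ ≤ ‖(9 : L)‖) := by
  match T with
  | .zero => exact ⟨smul_zero 2, fun h => absurd rfl h⟩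
  | .some x y n =>
    obtain ⟨hxm, hxn, hy1⟩ := classify hL.th hL.res hW h4 hc h
    have he := hW.toShort.eqn n
    rw [h4, zero_mul, add_zero] at he
    have r0 := hL.pos
    have r1 := hL.lt
    by_cases hy0 : y = 0
    · refine ⟨two_zero hW hy0, fun _ => ?_⟩
      obtain ⟨t, ht⟩ : ∃ t, x + 1 = lam * t := ⟨(x + 1) / lam, by field_simp [hL.lam_ne]⟩
      have ht1 : ‖t‖ ≤ 1 := by
        have h5 := hL.disc _ hxm
        rw [ht, norm_mul] at h5
        by_contra hcon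
        rw [not_le] at hcon
        nlinarith
      have hx' : x = lam * t - 1 := by rw [← ht]; ring
      have e1 : W.a₆ - 1 = 3 * lam * (t ^ 3 - t) - 9 * t ^ 2 := by
        have h6 : W.a₆ = -x ^ 3 := by
          rw [hy0] at he
          linear_combination -he
        rw [h6, hx']
        linear_combination (-(lam * t ^ 3) + 3 * t ^ 2) * hL.sq
      have h9 : ‖(9 : L)‖ = ‖lam‖ ^ 4 := by
        have : (9 : L) = 3 ^ 2 := by norm_num
        rw [this, norm_pow, hL.three]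
        ring
      rw [e1, h9]
      refine usub ?_ ?_
      · rw [norm_mul, norm_mul, hL.three]
        have := hL.disc _ (res_cube hL.res ht1)
        calc ‖lam‖ ^ 2 * ‖lam‖ * ‖t ^ 3 - t‖ ≤ ‖lam‖ ^ 2 * ‖lam‖ * ‖lam‖ := by gcongr
          _ = ‖lam‖ ^ 4 := by ring
      · rw [norm_mul, norm_pow, h9]
        have : ‖t‖ ^ 2 ≤ 1 := pow_le_one₀ (norm_nonneg _) ht1
        calc ‖lam‖ ^ 4 * ‖t‖ ^ 2 ≤ ‖lam‖ ^ 4 * 1 := by gcongr
          _ = ‖lam‖ ^ 4 := by ring
    · exfalso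
      obtain ⟨u, hu⟩ : ∃ u, y = lam * u := ⟨y / lam, by field_simp [hL.lam_ne]⟩
      have hu1 : ‖u‖ ≤ 1 := by
        have h5 := hL.disc _ hy1
        rw [hu, norm_mul] at h5
        by_contra hcon
        rw [not_le] at hcon
        nlinarith
      have hu0 : u ≠ 0 := by
        rintro rfl
        exact hy0 (by rw [hu, mul_zero])
      rcases eq_or_lt_of_le hu1 with hun | hun
      · -- `‖y‖ = ‖lam‖`
        have hyn : ‖y‖ = ‖lam‖ := by rw [hu, norm_mul, hun, mul_one]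
        refine no_slope hL.th hW h4 h hy0 hxn.le ?_ fun hψ => ?_
        · rw [norm_div, norm_mul, norm_mul, hL.two, hyn, norm_pow, hxn, hL.three, one_pow, one_mul,
            mul_one, pow_two, mul_div_assoc, div_self r0.ne', mul_one]
          exact r1.le
        · have e1 : 3 * x * (x ^ 3 + 4 * W.a₆) = 3 ^ 2 * x * (W.a₆ - u ^ 2) := by
            have h6 : x ^ 3 = -3 * u ^ 2 - W.a₆ := by
              have : x ^ 3 = y ^ 2 - W.a₆ := by linear_combination -he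
              rw [this, hu]
              linear_combination u ^ 2 * hL.sq
            rw [h6]
            ring
          have e2 : ‖W.a₆ - u ^ 2‖ < 1 := by
            have : W.a₆ - u ^ 2 = (W.a₆ - 1) - (u ^ 2 - 1) := by ring
            rw [this]
            exact usub_lt hc (res_sq hL.res hun)
          rw [norm_div, one_lt_div (norm_pos_iff.2 hψ), e1, norm_mul, norm_mul, norm_mul, norm_pow,
            norm_pow, hL.eight, hxn, hyn, hL.three, one_mul, mul_one, ← pow_mul]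
          have n3 : 0 < ‖lam‖ ^ 3 := by positivity
          have e3 : ‖lam‖ ^ (2 * 2) * ‖W.a₆ - u ^ 2‖ ≤ ‖lam‖ ^ 4 * 1 := by
            gcongr
          have e4 : ‖lam‖ ^ 4 < ‖lam‖ ^ 3 := by
            have : ‖lam‖ ^ 4 = ‖lam‖ ^ 3 * ‖lam‖ := by ring
            rw [this]
            nlinarith
          linarith
      · -- `‖y‖ < ‖lam‖`
        obtain ⟨w, hw⟩ : ∃ w, u = lam * w := ⟨u / lam, by field_simp [hL.lam_ne]⟩
        have hw1 : ‖w‖ ≤ 1 := by
          have h5 := hL.disc _ hun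
          rw [hw, norm_mul] at h5
          by_contra hcon
          rw [not_le] at hcon
          nlinarith
        have hw0 : w ≠ 0 := by
          rintro rfl
          exact hu0 (by rw [hw, mul_zero])
        have hyw : y = -3 * w := by
          rw [hu, hw]
          linear_combination w * hL.sq
        exact lastC hL.th hL.res hW h4 hc h hxm hxn hy0 hyw hw0 hw1

/-- **The same over `ℚ_3`.** -/
theorem two_ofQ (hL : Th L) (hR : Res L) (hdisc : ∀ x : L, ‖x‖ < 1 → ‖x‖ ≤ ‖(3 : L)‖) (hW : SI W)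
    (h4 : W.a₄ = 0) (hc : ‖W.a₆ - 1‖ < 1)
    {T : W.toAffine.Point} (h : Pr T) : 2 • T = 0 ∧ (T ≠ 0 → ‖W.a₆ - 1‖ ≤ ‖(9 : L)‖) := by
  match T with
  | .zero => exact ⟨smul_zero 2, fun h => absurd rfl h⟩
  | .some x y n =>
    obtain ⟨hxm, hxn, hy1⟩ := classify hL hR hW h4 hc h
    have he := hW.toShort.eqn n
    rw [h4, zero_mul, add_zero] at he
    have h3 : (3 : L) ≠ 0 := norm_pos_iff.1 hL.three_pos
    have r0 := hL.three_pos
    have r1 := hL.three_lt
    by_cases hy0 : y = 0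
    · refine ⟨two_zero hW hy0, fun _ => ?_⟩
      obtain ⟨t, ht⟩ : ∃ t, x + 1 = 3 * t := ⟨(x + 1) / 3, by field_simp⟩
      have ht1 : ‖t‖ ≤ 1 := by
        have h5 := hdisc _ hxm
        rw [ht, norm_mul] at h5
        by_contra hcon
        rw [not_le] at hcon
        nlinarith
      have hx' : x = 3 * t - 1 := by rw [← ht]; ring
      have e1 : W.a₆ - 1 = 9 * (-3 * t ^ 3 + 3 * t ^ 2 - t) := by
        have h6 : W.a₆ = -x ^ 3 := by
          rw [hy0] at he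
          linear_combination -he
        rw [h6, hx']
        ring
      rw [e1, norm_mul]
      have hint : ‖-3 * t ^ 3 + 3 * t ^ 2 - t‖ ≤ 1 := by
        have h5 : ‖t ^ 3‖ ≤ 1 := by rw [norm_pow]; exact pow_le_one₀ (norm_nonneg _) ht1
        have h6 : ‖t ^ 2‖ ≤ 1 := by rw [norm_pow]; exact pow_le_one₀ (norm_nonneg _) ht1
        refine usub (uadd (umul ?_ h5) (umul u3 h6)) ht1
        rw [norm_neg]
        exact u3
      nlinarith [norm_nonneg (9 : L)]
    · exfalso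
      refine lastC hL hR hW h4 hc h hxm hxn hy0 (w := -(y / 3)) (by field_simp) ?_ ?_
      · exact neg_ne_zero.2 (div_ne_zero hy0 h3)
      · rw [norm_neg, norm_div, div_le_one r0]
        exact hdisc _ hy1

end

end Pool.Agent.R419.ST
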