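import Pool.Agent.R419.ST.Lim

/-!
# Uniform estimates for the points of `y² + d y = x³` over `ℚ_3`, `d² ≢ 4` modulo `9`
-/

set_option autoImplicit false
set_option linter.all false

open WeierstrassCurve Filter Topology

namespace Pool.Agent.R419.ST

open Pool.Agent.TH954

open scoped Classical

/-- the homogeneous coordinates of the points of order dividing three on `y² + d y = x³` -/
def tau {F : Type} [Field F] (d : F) : Fin 3 → Fin 3 → F := ![![0, 1, 0], ![0, 0, 1], ![0, -d, 1]]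

section

variable {F : Type} [Field F] {W : WeierstrassCurve F}

/-- the points of order three -/
lemma tor3 (hW : Short W) (h4 : W.a₄ = 0) (h2 : (2 : F) ≠ 0) {x y : F}
    (n : W.toAffine.Nonsingular x y) (hy : y ≠ 0)
    (h0 : 3 • (Affine.Point.some x y n : W.toAffine.Point) = 0) : 3 * x * (x ^ 3 + 4 * W.a₆) = 0 := by
  obtain ⟨X, Y, n', h, hX, hY⟩ := dbl hW h4 h2 n hy
  have he := hW.eqn n
  rw [h4, zero_mul, add_zero] at he
  have h3 : (Affine.Point.some X Y n' : W.toAffine.Point) + Affine.Point.some x y n = 0 := by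
    rw [← h, ← h0]
    abel
  have hXx : (X - x) * (4 * y ^ 2) = -(3 * x * (x ^ 3 + 4 * W.a₆)) := by
    rw [hX]
    field_simp
    linear_combination (-48 * x) * he
  have hx : X = x := by
    by_contra hne
    rw [Affine.Point.add_of_X_ne hne] at h3
    exact Affine.Point.some_ne_zero _ h3
  rw [hx, sub_self, zero_mul] at hXx
  exact (neg_eq_zero.1 hXx.symm)

end

section

variable {L : Type} [NormedField L] [IsUltrametricDist L] {W : WeierstrassCurve L}

/-- a field like the field of the 3-adic numbers -/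
structure Q3 (L : Type) [NormedField L] : Prop where
  th : Th L
  res : Res L
  disc : ∀ x : L, ‖x‖ < 1 → ‖x‖ ≤ ‖(3 : L)‖

lemma three_ne (hL : Th L) (hW : SI W) (h4 : W.a₄ = 0) {R : ℝ} (hR : 1 < R)
    {T : W.toAffine.Point} (hT : Big R T) (h : 3 • T = 0) : T = 0 := by
  match T with
  | .zero => rfl
  | .some x y n =>
    exfalso
    have hx1 : 1 < ‖x‖ := hR.trans_le (big_some.mp hT)
    have hy0 : y ≠ 0 := norm_pos_iff.mp (hW.norm_y_pos n hx1)
    have h1 := tor3 hW.toShort h4 hL.two_ne n hy0 h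
    have h3 : (3 : L) ≠ 0 := norm_pos_iff.1 hL.three_pos
    have hx0 : x ≠ 0 := norm_pos_iff.1 (zero_lt_one.trans hx1)
    have e1 : ‖x ^ 3 + 4 * W.a₆‖ = ‖x‖ ^ 3 := by
      rw [uadd_eq, norm_pow]
      rw [norm_pow, norm_mul, hL.four, one_mul]
      exact lt_of_le_of_lt hW.hb (one_lt_pow₀ hx1 (by norm_num))
    rcases mul_eq_zero.1 h1 with h | h
    · exact (mul_ne_zero h3 hx0) h
    · rw [h, norm_zero] at e1
      have : 0 < ‖x‖ ^ 3 := by positivity
      linarith

lemma big_le (hL : Th L) (hW : SI W) (h4 : W.a₄ = 0) {R : ℝ} (hR : 1 < R)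
    {T : W.toAffine.Point} (hT : Big R T) : Big R (3 • T) := by
  have h := big_three_pow hL hW h4 hR hT 1
  rw [pow_one, pow_one] at h
  refine big_mono ?_ h
  have := ratio_gt hL
  nlinarith

lemma pow_three_ne (hL : Th L) (hW : SI W) (h4 : W.a₄ = 0) {R : ℝ} (hR : 1 < R) :
    ∀ (a : ℕ) {T : W.toAffine.Point}, Big R T → 3 ^ a • T = 0 → T = 0
  | 0, T, _, h => by rwa [pow_zero, one_nsmul] at h
  | a + 1, T, hT, h => by
    rw [pow_succ, mul_nsmul'] at h
    exact three_ne hL hW h4 hR hT (pow_three_ne hL hW h4 hR a (big_le hL hW h4 hR hT) h)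

/-- there are no points of finite order near the origin -/
lemma big_tor (hL : Th L) (hW : SI W) (h4 : W.a₄ = 0) {R : ℝ} (hR : 1 < R)
    {T : W.toAffine.Point} (hT : Big R T) {m : ℕ} (hm : m ≠ 0) (h : m • T = 0) : T = 0 := by
  obtain ⟨a, m', hm', e⟩ := Nat.exists_eq_pow_mul_and_not_dvd hm 3 (by norm_num)
  refine pow_three_ne hL hW h4 hR a hT ?_
  have hb : Big R (3 ^ a • T) := by
    have h1 := big_three_pow hL hW h4 hR hT a
    refine big_mono ?_ h1
    have h2 : 1 ≤ ((‖(3 : L)‖ ^ 2)⁻¹) ^ a := one_le_pow₀ (ratio_gt hL).le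
    nlinarith
  refine pr_big hL hW h4 hR hb ⟨m', hm', ?_⟩
  rw [← mul_smul, mul_comm, ← e, h]

/-- three times a point is close to the origin -/
lemma three_big2 (hL : Q3 L) (hW : SI W) (h4 : W.a₄ = 0) (hc : ‖W.a₆ - 1‖ < 1)
    (h9 : ¬ ‖W.a₆ - 1‖ ≤ ‖(9 : L)‖) (T : W.toAffine.Point) :
    Big (((‖(3 : L)‖ ^ 2)⁻¹) ^ 2) (3 • T) := by
  match T with
  | .zero =>
    have : (3 • Affine.Point.zero : W.toAffine.Point) = 0 := smul_zero 3
    rw [this]
    exact big_zero _
  | .some x y n =>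
    have t0 := hL.th.three_pos
    have t1 := hL.th.three_lt
    have he := hW.toShort.eqn n
    rw [h4, zero_mul, add_zero] at he
    have hc1 := a6_norm hc
    have h3 : (3 : L) ≠ 0 := norm_pos_iff.1 t0
    rcases lt_or_ge 1 ‖x‖ with hx1 | hx1
    · have h := big_three hL.th hW h4 hx1 (T := Affine.Point.some x y n) (big_some.2 le_rfl)
      refine big_mono ?_ h
      have hy0 : y ≠ 0 := norm_pos_iff.mp (hW.norm_y_pos n hx1)
      have hyp := hW.norm_y_pos n hx1
      have hy2 := hW.norm_y_eq n hx1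
      have hxp : 0 < ‖x‖ := zero_lt_one.trans hx1
      have q1 : ‖x / y‖ ^ 2 * ‖x‖ = 1 := by
        rw [norm_div, div_pow, hy2]
        field_simp
      have q2 : ‖x / y‖ < 1 := by
        by_contra hcon
        have := one_le_pow₀ (not_lt.1 hcon) (n := 2)
        nlinarith
      have q3 := pow_le_pow_left₀ (norm_nonneg _) (hL.disc _ q2) 2
      have q4 : (‖(3 : L)‖ ^ 2)⁻¹ ≤ ‖x‖ := by
        rw [inv_le_iff_one_le_mul₀ (by positivity), ← q1, mul_comm ‖x‖]
        gcongr
      rw [div_eq_mul_inv, pow_two]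
      gcongr
    · rcases hL.res x hx1 with hx | hx | hx
      · have hx3 : ‖x ^ 3‖ < 1 := by
          rw [norm_pow]
          exact pow_lt_one₀ (norm_nonneg _) hx (by norm_num)
        have hy2 : ‖y‖ ^ 2 = 1 := by
          rw [← norm_pow, he, add_comm, uadd_eq, hc1]
          rw [hc1]
          exact hx3
        have hy : ‖y‖ = 1 := (pow_eq_one_iff_of_nonneg (norm_nonneg _) (by norm_num)).1 hy2
        have hy0 : y ≠ 0 := by
          intro h0
          rw [h0, norm_zero] at hy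
          norm_num at hy
        rcases tpl hW.toShort h4 hL.th.two_ne n hy0 with h | ⟨hψ, X, Y, n', h, hX⟩
        · rw [h]
          exact big_zero _
        · rw [h, big_some]
          have e1 : ‖3 * x * (x ^ 3 + 4 * W.a₆)‖ ≤ ‖(3 : L)‖ ^ 2 := by
            rw [norm_mul, norm_mul]
            have e2 : ‖x ^ 3 + 4 * W.a₆‖ ≤ 1 :=
              uadd hx3.le (by rw [norm_mul, hL.th.four, hc1, one_mul])
            have e2' := hL.disc x hx
            calc ‖(3 : L)‖ * ‖x‖ * ‖x ^ 3 + 4 * W.a₆‖ ≤ ‖(3 : L)‖ * ‖(3 : L)‖ * 1 := by gcongr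
              _ = ‖(3 : L)‖ ^ 2 := by ring
          have e3 : ‖8 * y ^ 3 / (3 * x * (x ^ 3 + 4 * W.a₆))‖ =
              ‖3 * x * (x ^ 3 + 4 * W.a₆)‖⁻¹ := by
            rw [norm_div, norm_mul, norm_pow, hL.th.eight, hy, one_pow, mul_one, one_div]
          have hψ0 := norm_pos_iff.2 hψ
          have e4 : (‖(3 : L)‖ ^ 2)⁻¹ ≤ ‖8 * y ^ 3 / (3 * x * (x ^ 3 + 4 * W.a₆))‖ := by
            rw [e3]
            exact inv_anti₀ hψ0 e1
          have e5 : 1 < (‖(3 : L)‖ ^ 2)⁻¹ := ratio_gt hL.th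
          have e6 : ‖3 * x ^ 2 / (2 * y)‖ ≤ 1 := by
            rw [norm_div, norm_mul, norm_mul, hL.th.two, hy, norm_pow, mul_one, div_one]
            have : ‖x‖ ^ 2 ≤ 1 := pow_le_one₀ (norm_nonneg _) hx.le
            nlinarith [norm_nonneg (3 : L), sq_nonneg ‖x‖]
          have e7 : ‖8 * y ^ 3 / (3 * x * (x ^ 3 + 4 * W.a₆)) - 3 * x ^ 2 / (2 * y)‖ =
              ‖8 * y ^ 3 / (3 * x * (x ^ 3 + 4 * W.a₆))‖ :=
            usub_eq (e6.trans_lt (e5.trans_le e4))
          have e9 : ‖(3 * x ^ 2 / (2 * y)) ^ 2 - 2 * x + x‖ ≤ 1 := by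
            refine uadd (usub ?_ ?_) hx1
            · rw [norm_pow]
              exact pow_le_one₀ (norm_nonneg _) e6
            · rw [norm_mul, hL.th.two, one_mul]
              exact hx1
          have e8 : 1 < ‖(8 * y ^ 3 / (3 * x * (x ^ 3 + 4 * W.a₆)) - 3 * x ^ 2 / (2 * y)) ^ 2‖ := by
            rw [norm_pow, e7]
            exact one_lt_pow₀ (e5.trans_le e4) (by norm_num)
          rw [hX, sub_sub, usub_eq (e9.trans_lt e8), norm_pow, e7]
          exact pow_le_pow_left₀ (by positivity) e4 2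
      · exfalso
        have hy1 := hW.norm_y_le_one n hx1
        have e1 : ‖y ^ 2 - 2‖ < 1 := by
          have : y ^ 2 - 2 = (x - 1) * (x ^ 2 + x + 1) + (W.a₆ - 1) := by
            rw [he]
            ring
          rw [this]
          refine uadd_lt ?_ hc
          rw [norm_mul]
          have : ‖x ^ 2 + x + 1‖ ≤ 1 := by
            refine uadd (uadd ?_ hx1) (by rw [norm_one])
            rw [norm_pow]
            exact pow_le_one₀ (norm_nonneg _) hx1
          nlinarith [norm_nonneg (x - 1), norm_nonneg (x ^ 2 + x + 1)]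
        rcases eq_or_lt_of_le hy1 with hy | hy
        · have e2 := res_sq hL.res hy
          have e3 : ‖(1 : L)‖ < 1 := by
            have : (1 : L) = (y ^ 2 - 1) - (y ^ 2 - 2) := by ring
            rw [this]
            exact usub_lt e2 e1
          rw [norm_one] at e3
          exact lt_irrefl _ e3
        · have e2 : ‖y ^ 2‖ < 1 := by
            rw [norm_pow]
            exact pow_lt_one₀ (norm_nonneg _) hy (by norm_num)
          have e3 : ‖(2 : L)‖ < 1 := by
            have : (2 : L) = y ^ 2 - (y ^ 2 - 2) := by ring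
            rw [this]
            exact usub_lt e2 e1
          rw [hL.th.two] at e3
          exact lt_irrefl _ e3
      · exfalso
        obtain ⟨t, ht⟩ : ∃ t, x + 1 = 3 * t := ⟨(x + 1) / 3, by field_simp⟩
        have ht1 : ‖t‖ ≤ 1 := by
          have h5 := hL.disc _ hx
          rw [ht, norm_mul] at h5
          by_contra hcon
          rw [not_le] at hcon
          nlinarith
        have hx' : x = 3 * t - 1 := by rw [← ht]; ring
        have e1 : W.a₆ - 1 = y ^ 2 + 9 * (-3 * t ^ 3 + 3 * t ^ 2 - t) := by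
          rw [he, hx']
          ring
        have hint : ‖-3 * t ^ 3 + 3 * t ^ 2 - t‖ ≤ 1 := by
          have h5 : ‖t ^ 3‖ ≤ 1 := by rw [norm_pow]; exact pow_le_one₀ (norm_nonneg _) ht1
          have h6 : ‖t ^ 2‖ ≤ 1 := by rw [norm_pow]; exact pow_le_one₀ (norm_nonneg _) ht1
          refine usub (uadd (umul ?_ h5) (umul u3 h6)) ht1
          rw [norm_neg]
          exact u3
        have h9' : ‖(9 : L)‖ = ‖(3 : L)‖ ^ 2 := by
          have : (9 : L) = 3 ^ 2 := by norm_num
          rw [this, norm_pow]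
        have e2 : ‖9 * (-3 * t ^ 3 + 3 * t ^ 2 - t)‖ ≤ ‖(9 : L)‖ := by
          rw [norm_mul]
          nlinarith [norm_nonneg (9 : L)]
        have e3 : ‖y ^ 2‖ < 1 := by
          have : y ^ 2 = (W.a₆ - 1) - 9 * (-3 * t ^ 3 + 3 * t ^ 2 - t) := by rw [e1]; ring
          rw [this]
          refine usub_lt hc (e2.trans_lt ?_)
          rw [h9']
          exact pow_lt_one₀ t0.le t1 (by norm_num)
        have e4 : ‖y‖ < 1 := by
          rw [norm_pow] at e3
          by_contra hcon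
          exact absurd e3 (not_lt.2 (one_le_pow₀ (not_lt.1 hcon)))
        have e5 : ‖y ^ 2‖ ≤ ‖(9 : L)‖ := by
          rw [norm_pow, h9']
          exact pow_le_pow_left₀ (norm_nonneg _) (hL.disc _ e4) 2
        exact h9 (by rw [e1]; exact uadd e5 e2)

lemma three_big (hL : Q3 L) (hW : SI W) (h4 : W.a₄ = 0) (hc : ‖W.a₆ - 1‖ < 1)
    (h9 : ¬ ‖W.a₆ - 1‖ ≤ ‖(9 : L)‖) (T : W.toAffine.Point) :
    Big ((‖(3 : L)‖ ^ 2)⁻¹) (3 • T) := by
  refine big_mono ?_ (three_big2 hL hW h4 hc h9 T)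
  have := ratio_gt hL.th
  nlinarith

/-- multiples of high powers of three -/
lemma pow_big (hL : Q3 L) (hW : SI W) (h4 : W.a₄ = 0) (hc : ‖W.a₆ - 1‖ < 1)
    (h9 : ¬ ‖W.a₆ - 1‖ ≤ ‖(9 : L)‖) (T : W.toAffine.Point) (k : ℕ) :
    Big (((‖(3 : L)‖ ^ 2)⁻¹) ^ (k + 2)) (3 ^ (k + 1) • T) := by
  have h := big_three_pow hL.th hW h4 (one_lt_pow₀ (ratio_gt hL.th) two_ne_zero)
    (three_big2 hL hW h4 hc h9 T) k
  rw [pow_succ 3 k, mul_nsmul']
  rw [pow_add, mul_comm]
  exact h

/-- the points of finite order -/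
lemma fin_ord (hL : Q3 L) (hW : SI W) (h4 : W.a₄ = 0) (hc : ‖W.a₆ - 1‖ < 1)
    (h9 : ¬ ‖W.a₆ - 1‖ ≤ ‖(9 : L)‖) {x y : L} {n : W.toAffine.Nonsingular x y} {m : ℕ}
    (hm : m ≠ 0) (h : m • (Affine.Point.some x y n : W.toAffine.Point) = 0) : x = 0 := by
  have he := hW.toShort.eqn n
  rw [h4, zero_mul, add_zero] at he
  have h3 : 3 • (Affine.Point.some x y n : W.toAffine.Point) = 0 := by
    refine big_tor hL.th hW h4 (ratio_gt hL.th) (three_big hL hW h4 hc h9 _) hm ?_
    rw [← mul_smul, mul_comm, mul_smul, h, smul_zero]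
  have hy0 : y ≠ 0 := by
    intro h0
    have h2 := two_zero hW (n := n) h0
    have h1 : (Affine.Point.some x y n : W.toAffine.Point) = 0 := by
      have : (Affine.Point.some x y n : W.toAffine.Point) =
        3 • (Affine.Point.some x y n : W.toAffine.Point) -
          2 • (Affine.Point.some x y n : W.toAffine.Point) := by abel
      rw [this, h3, h2, sub_zero]
    exact Affine.Point.some_ne_zero n h1
  have h1 := tor3 hW.toShort h4 hL.th.two_ne n hy0 h3
  have t0 := hL.th.three_pos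
  have t1 := hL.th.three_lt
  have h3' : (3 : L) ≠ 0 := norm_pos_iff.1 t0
  rcases mul_eq_zero.1 h1 with h5 | h5
  · exact (mul_eq_zero.1 h5).resolve_left h3'
  · exfalso
    have e1 : y ^ 2 = -3 * W.a₆ := by
      rw [he]
      linear_combination h5
    have e2 : ‖y‖ ^ 2 = ‖(3 : L)‖ := by
      rw [← norm_pow, e1, norm_mul, norm_neg, a6_norm hc, mul_one]
    have e3 : ‖y‖ < 1 := by
      by_contra hcon
      have := one_le_pow₀ (not_lt.1 hcon) (n := 2)
      linarith
    have e4 := hL.disc _ e3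
    have e5 := pow_le_pow_left₀ (norm_nonneg _) e4 2
    have e6 : ‖(3 : L)‖ ^ 2 < ‖(3 : L)‖ := by nlinarith
    linarith

lemma le_of_sq_le_sq' {a b : ℝ} (h : a ^ 2 ≤ b ^ 2) (hb : 0 ≤ b) : a ≤ b := by
  by_contra hcon
  rw [not_le] at hcon
  nlinarith

/-- adding a point near the origin to a point with `x = 0` -/
lemma add_near (hL : Th L) (hW : SI W) (h4 : W.a₄ = 0) {y0 : L}
    (n0 : W.toAffine.Nonsingular 0 y0) {ε : ℝ} (hε : 0 < ε) (hε1 : ε < 1) {Q : W.toAffine.Point}
    (hQ : Big ((ε ^ 2)⁻¹) Q) : ∃ (x y : L) (n : W.toAffine.Nonsingular x y),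
      Affine.Point.some 0 y0 n0 + Q = (Affine.Point.some x y n : W.toAffine.Point) ∧
      ‖x‖ ≤ ε ∧ ‖y - y0‖ ≤ ε := by
  match Q with
  | .zero =>
    refine ⟨0, y0, n0, add_zero _, ?_, ?_⟩
    · rw [norm_zero]; exact hε.le
    · rw [sub_self, norm_zero]; exact hε.le
  | .some X Y nQ =>
    have hX := big_some.mp hQ
    have hε2 : 0 < ε ^ 2 := by positivity
    have hX1 : 1 < ‖X‖ := by
      refine lt_of_lt_of_le ?_ hX
      rw [one_lt_inv₀ hε2]
      exact pow_lt_one₀ hε.le hε1 (by norm_num)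
    have hX0 : X ≠ 0 := norm_pos_iff.1 (zero_lt_one.trans hX1)
    have he0 := hW.toShort.eqn n0
    rw [h4, zero_mul, add_zero, zero_pow (by norm_num), zero_add] at he0
    have he := hW.toShort.eqn nQ
    rw [h4, zero_mul, add_zero] at he
    have hy2 := hW.norm_y_eq nQ hX1
    have hy0 : ‖y0‖ ≤ 1 := hW.norm_y_le_one n0 (by rw [norm_zero]; exact zero_le_one)
    have h5 := Affine.Point.add_of_X_ne (h₁ := n0) (h₂ := nQ) (Ne.symm hX0)
    have hs : W.toAffine.slope 0 X y0 Y = (y0 - Y) / (0 - X) := Affine.slope_of_X_ne (Ne.symm hX0)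
    set ℓ := (y0 - Y) / (0 - X) with hℓ
    have hℓX : ℓ * X = Y - y0 := by
      rw [hℓ]
      field_simp
      ring
    have hxa : W.toAffine.addX 0 X (W.toAffine.slope 0 X y0 Y) = ℓ ^ 2 - X := by
      rw [hs, Affine.addX, hW.toShort.h1, hW.toShort.h2]
      ring
    have hya : W.toAffine.addY 0 X y0 (W.toAffine.slope 0 X y0 Y) = -(ℓ * (ℓ ^ 2 - X) + y0) := by
      rw [Affine.addY, Affine.negAddY, hW.toShort.negY, hxa, hs, sub_zero]
    have hx1 : ‖ℓ ^ 2 - X‖ ≤ ε := by
      have e1 : (ℓ ^ 2 - X) * X ^ 2 = 2 * y0 * (y0 - Y) := by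
        have : (ℓ ^ 2 - X) * X ^ 2 = (ℓ * X) ^ 2 - X ^ 3 := by ring
        rw [this, hℓX]
        linear_combination he - he0
      have hY1 : 1 ≤ ‖Y‖ := by
        by_contra hcon
        rw [not_le] at hcon
        have h6 : ‖Y‖ ^ 2 < 1 := pow_lt_one₀ (norm_nonneg _) hcon (by norm_num)
        have h7 : 1 < ‖X‖ ^ 3 := one_lt_pow₀ hX1 (by norm_num)
        linarith
      have e2 : ‖ℓ ^ 2 - X‖ * ‖X‖ ^ 2 ≤ ‖Y‖ := by
        rw [← norm_pow, ← norm_mul, e1, norm_mul, norm_mul, hL.two, one_mul]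
        have e3 : ‖y0 - Y‖ ≤ ‖Y‖ := usub (hy0.trans hY1) le_rfl
        nlinarith [norm_nonneg y0, norm_nonneg (y0 - Y)]
      have e4 : ‖ℓ ^ 2 - X‖ ^ 2 * ‖X‖ ≤ 1 := by
        have h6 := pow_le_pow_left₀ (by positivity) e2 2
        rw [hy2] at h6
        have h7 : 0 < ‖X‖ ^ 3 := by positivity
        have h8 : (‖ℓ ^ 2 - X‖ ^ 2 * ‖X‖) * ‖X‖ ^ 3 ≤ 1 * ‖X‖ ^ 3 := by
          calc (‖ℓ ^ 2 - X‖ ^ 2 * ‖X‖) * ‖X‖ ^ 3 = (‖ℓ ^ 2 - X‖ * ‖X‖ ^ 2) ^ 2 := by ring
            _ ≤ ‖X‖ ^ 3 := h6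
            _ = 1 * ‖X‖ ^ 3 := by ring
        exact le_of_mul_le_mul_right h8 h7
      have e5 : ‖ℓ ^ 2 - X‖ ^ 2 ≤ ε ^ 2 := by
        have h6 : ‖ℓ ^ 2 - X‖ ^ 2 * (ε ^ 2)⁻¹ ≤ 1 := by
          refine le_trans ?_ e4
          exact mul_le_mul_of_nonneg_left hX (by positivity)
        rwa [← div_eq_mul_inv, div_le_one hε2] at h6
      exact le_of_sq_le_sq' e5 hε.le
    refine ⟨_, _, _, h5, ?_, ?_⟩
    · rw [hxa]
      exact hx1
    · rw [hya]
      have e1 : -(ℓ * (ℓ ^ 2 - X) + y0) - y0 = 2 * y0 * (ℓ ^ 2 - X) / X := by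
        rw [eq_div_iff hX0]
        apply mul_right_cancel₀ (pow_ne_zero 2 hX0)
        have h6 : ℓ = (Y - y0) / X := by rw [eq_div_iff hX0, hℓX]
        rw [h6]
        field_simp
        linear_combination (-(Y - y0)) * (he - he0)
      rw [e1, norm_div, norm_mul, norm_mul, hL.two, one_mul,
        div_le_iff₀ (zero_lt_one.trans hX1)]
      calc ‖y0‖ * ‖ℓ ^ 2 - X‖ ≤ 1 * ε := by gcongr
        _ = ε * 1 := by ring
        _ ≤ ε * ‖X‖ := by gcongr

/-- **Points which differ from a point of finite order by a multiple of a high power of three.** -/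
theorem near_tau [ProperSpace L] (hL : Q3 L) {d : L} (hd : ‖d‖ ≤ 1) (hc : ‖d ^ 2 / 4 - 1‖ < 1)
    (h9 : ¬ ‖d ^ 2 / 4 - 1‖ ≤ ‖(9 : L)‖) {P y z : (WE d).toAffine.Point} {m : ℕ} (hm : m ≠ 0)
    (hy : m • y = 0) (k : ℕ) (h : P = y + 3 ^ (k + 1) • z) :
    ∃ (t : Fin 3) (s : L) (v : Fin 3 → L), s ≠ 0 ∧ (∀ j, crd P j = s * v j) ∧
      ∀ j, ‖v j - tau d t j‖ ≤ ‖(3 : L)‖ ^ (k + 2) := by
  have hW : SI (WS d) := si_WS hL.th hd
  have t0 := hL.th.three_pos
  have t1 := hL.th.three_lt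
  set ε := ‖(3 : L)‖ ^ (k + 2) with hε
  have hε0 : 0 < ε := by positivity
  have hε1 : ε < 1 := pow_lt_one₀ t0.le t1 (by omega)
  set y' := isoS hL.th.two_ne d y with hy'
  set P' := isoS hL.th.two_ne d P with hP'
  obtain ⟨Q, hQ⟩ : ∃ Q, Q = 3 ^ (k + 1) • isoS hL.th.two_ne d z := ⟨_, rfl⟩
  have hPQ : P' = y' + Q := by
    rw [hP', h, map_add, map_nsmul, hQ]
  have hbig : Big ((ε ^ 2)⁻¹) Q := by
    have := pow_big hL hW rfl hc h9 (isoS hL.th.two_ne d z) k
    rw [← hQ] at this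
    have e : (ε ^ 2)⁻¹ = ((‖(3 : L)‖ ^ 2)⁻¹) ^ (k + 2) := by
      rw [hε, inv_pow, ← pow_mul, ← pow_mul, mul_comm]
    rw [e]
    exact this
  have hmy : m • y' = 0 := by rw [hy', ← map_nsmul, hy, map_zero]
  obtain ⟨c0, c1, c2⟩ := crd_toS hL.th.two_ne d P
  rw [← hP'] at c0 c1 c2
  have h2 := hL.th.two_ne
  match y', hmy, hPQ with
  | .zero, _, hPQ =>
    have hPQ' : P' = Q := hPQ.trans (zero_add Q)
    rw [hPQ'] at c0 c1 c2
    match Q, hbig, c0, c1, c2 with
    | .zero, _, c0, c1, c2 =>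
      refine ⟨0, 1, ![0, 1, 0], one_ne_zero, fun j => ?_, fun j => ?_⟩
      · have e0 : crd (Affine.Point.zero : (WS d).toAffine.Point) = ![0, 1, 0] := rfl
        rw [e0] at c0 c1 c2
        fin_cases j
        · simpa using c0
        · simpa using c1
        · simpa using c2
      · have e : (![0, 1, 0] : Fin 3 → L) j - tau d 0 j = 0 := by
          unfold tau
          simp
        rw [e, norm_zero]
        exact hε0.le
    | .some X Y n, hbig, c0, c1, c2 =>
      have e0 : crd (Affine.Point.some X Y n : (WS d).toAffine.Point) = ![X, Y, 1] := rfl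
      rw [e0] at c0 c1 c2
      have hX := big_some.mp hbig
      have hε2 : 0 < ε ^ 2 := by positivity
      have hX1 : 1 < ‖X‖ := by
        refine lt_of_lt_of_le ?_ hX
        rw [one_lt_inv₀ hε2]
        exact pow_lt_one₀ hε0.le hε1 (by norm_num)
      have hY0 : Y ≠ 0 := norm_pos_iff.1 (hW.norm_y_pos n hX1)
      have hY2 := hW.norm_y_eq n hX1
      have hYp : 0 < ‖Y‖ := norm_pos_iff.2 hY0
      have hXp : 0 < ‖X‖ := zero_lt_one.trans hX1
      have i1 : ‖X / Y‖ ≤ ε := by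
        refine le_of_sq_le_sq' ?_ hε0.le
        rw [norm_div, div_pow, hY2, div_le_iff₀ (by positivity)]
        have : 1 ≤ ε ^ 2 * ‖X‖ := by
          have := (inv_le_iff_one_le_mul₀ hε2).1 hX
          linarith
        calc ‖X‖ ^ 2 = ‖X‖ ^ 2 * 1 := by ring
          _ ≤ ‖X‖ ^ 2 * (ε ^ 2 * ‖X‖) := by gcongr
          _ = ε ^ 2 * ‖X‖ ^ 3 := by ring
      have i2 : ‖1 / Y‖ ≤ ε := by
        refine le_trans ?_ i1
        rw [norm_div, norm_div, norm_one]
        gcongr
      have i3 : ‖d / (2 * Y)‖ ≤ ε := by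
        refine le_trans ?_ i2
        rw [norm_div, norm_mul, hL.th.two, one_mul, norm_div, norm_one]
        gcongr
      refine ⟨0, Y, ![X / Y, 1 - d / (2 * Y), 1 / Y], hY0, fun j => ?_, fun j => ?_⟩
      · fin_cases j
        · show crd P 0 = Y * (X / Y)
          rw [c0]
          show X = _
          field_simp
        · show crd P 1 = Y * (1 - d / (2 * Y))
          rw [c1]
          show Y - d / 2 * 1 = _
          field_simp
        · show crd P 2 = Y * (1 / Y)
          rw [c2]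
          show (1 : L) = _
          field_simp
      · fin_cases j
        · show ‖X / Y - 0‖ ≤ ε
          rw [sub_zero]
          exact i1
        · show ‖1 - d / (2 * Y) - 1‖ ≤ ε
          rw [sub_sub_cancel_left, norm_neg]
          exact i3
        · show ‖1 / Y - 0‖ ≤ ε
          rw [sub_zero]
          exact i2
  | .some x0 y0 n0, hmy, hPQ =>
    have hx0 : x0 = 0 := fin_ord hL hW rfl hc h9 hm hmy
    subst hx0
    obtain ⟨x, yy, n, e1, e2, e3⟩ := add_near hL.th hW rfl n0 hε0 hε1 hbig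
    rw [hPQ, e1] at c0 c1 c2
    have e0 : crd (Affine.Point.some x yy n : (WS d).toAffine.Point) = ![x, yy, 1] := rfl
    rw [e0] at c0 c1 c2
    have he0 := hW.toShort.eqn n0
    have hy0 : y0 = d / 2 ∨ y0 = -(d / 2) := by
      apply sq_eq_sq_iff_eq_or_eq_neg.1
      rw [he0]
      show (0 : L) ^ 3 + 0 * 0 + d ^ 2 / 4 = _
      have h22 : (2 : L) ^ 2 = 4 := by norm_num
      rw [div_pow, h22]
      ring
    rcases hy0 with hy0 | hy0
    · refine ⟨1, 1, ![x, yy - d / 2, 1], one_ne_zero, fun j => ?_, fun j => ?_⟩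
      · fin_cases j
        · show crd P 0 = 1 * x
          rw [c0, one_mul]
          rfl
        · show crd P 1 = 1 * (yy - d / 2)
          rw [c1, one_mul]
          show yy - d / 2 * 1 = _
          ring
        · show crd P 2 = 1 * 1
          rw [c2, one_mul]
          rfl
      · fin_cases j
        · show ‖x - 0‖ ≤ ε
          rw [sub_zero]
          exact e2
        · show ‖yy - d / 2 - 0‖ ≤ ε
          rw [sub_zero, ← hy0]
          exact e3
        · show ‖(1 : L) - 1‖ ≤ ε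
          rw [sub_self, norm_zero]
          exact hε0.le
    · refine ⟨2, 1, ![x, yy - d / 2, 1], one_ne_zero, fun j => ?_, fun j => ?_⟩
      · fin_cases j
        · show crd P 0 = 1 * x
          rw [c0, one_mul]
          rfl
        · show crd P 1 = 1 * (yy - d / 2)
          rw [c1, one_mul]
          show yy - d / 2 * 1 = _
          ring
        · show crd P 2 = 1 * 1
          rw [c2, one_mul]
          rfl
      · fin_cases j
        · show ‖x - 0‖ ≤ ε
          rw [sub_zero]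
          exact e2
        · show ‖yy - d / 2 - -d‖ ≤ ε
          have : yy - d / 2 - -d = yy - y0 := by
            rw [hy0]
            field_simp
            ring
          rw [this]
          exact e3
        · show ‖(1 : L) - 1‖ ≤ ε
          rw [sub_self, norm_zero]
          exact hε0.le

end

end Pool.Agent.R419.ST
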